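import Mathlib

/-!
# Maximal equiangular tight frames and their symmetries
-/

set_option autoImplicit false

open Finset

namespace Pool.Agent.Y387.SF

section

variable {V : Type*} [NormedAddCommGroup V] [InnerProductSpace ℂ V] {ι : Type*}

/-- `d²` equiangular lines -/
structure IsEtf (d : ℕ) (x : ι → V) : Prop where
  nrm : ∀ i, ‖x i‖ = 1
  ang : ∀ i j, i ≠ j → ‖inner ℂ (x i) (x j)‖ = 1 / Real.sqrt ((d : ℝ) + 1)

variable {d : ℕ} {x : ι → V}

theorem IsEtf.inner_self (h : IsEtf d x) (i : ι) : inner ℂ (x i) (x i) = 1 := by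
  rw [inner_self_eq_norm_sq_to_K, h.nrm i]
  simp

theorem IsEtf.ne_zero (h : IsEtf d x) (i j : ι) : inner ℂ (x i) (x j) ≠ 0 := by
  by_cases hij : i = j
  · rw [hij, h.inner_self]
    exact one_ne_zero
  · intro h0
    have h1 := h.ang i j hij
    rw [h0, norm_zero] at h1
    have h2 : (0 : ℝ) < 1 / Real.sqrt ((d : ℝ) + 1) := by positivity
    exact h2.ne h1

theorem IsEtf.line (h : IsEtf d x) (hd : 1 ≤ d) {i j : ι} {c : ℂ} (hc : x i = c • x j) : i = j := by
  by_contra hij
  have h1 := h.ang j i (Ne.symm hij)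
  rw [hc, inner_smul_right, h.inner_self, mul_one] at h1
  have h2 := h.nrm i
  rw [hc, norm_smul, h.nrm j, mul_one, h1] at h2
  have h3 : Real.sqrt ((d : ℝ) + 1) = 1 := by
    have h4 : Real.sqrt ((d : ℝ) + 1) ≠ 0 := by positivity
    field_simp at h2
    exact h2.symm
  rw [Real.sqrt_eq_one] at h3
  have h5 : (1 : ℝ) ≤ d := by exact_mod_cast hd
  linarith

variable [Fintype ι]

omit [Fintype ι] in
/-- the square of an inner product -/
theorem IsEtf.mul_inner [DecidableEq ι] (h : IsEtf d x) (i j : ι) :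
    inner ℂ (x i) (x j) * inner ℂ (x j) (x i) =
      (if i = j then (d : ℂ) / (d + 1) else 0) + 1 / ((d : ℂ) + 1) := by
  have hd : (d : ℂ) + 1 ≠ 0 := by exact_mod_cast d.succ_ne_zero
  split_ifs with hij
  · rw [hij, h.inner_self]
    field_simp
  · rw [← inner_conj_symm (x j) (x i), Complex.mul_conj, Complex.normSq_eq_norm_sq,
      h.ang i j hij, div_pow, Real.sq_sqrt (by positivity)]
    push_cast
    ring

/-- coefficients of an operator with vanishing diagonal -/
theorem IsEtf.coeff_zero (h : IsEtf d x) (hd : 1 ≤ d) (hcard : Fintype.card ι = d ^ 2)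
    (n : ι → ℂ)
    (hn : ∀ l, ∑ k, n k * (inner ℂ (x l) (x k) * inner ℂ (x k) (x l)) = 0) : n = 0 := by
  classical
  have hd1 : (d : ℂ) + 1 ≠ 0 := by exact_mod_cast d.succ_ne_zero
  have hd0 : (d : ℂ) ≠ 0 := by
    have : d ≠ 0 := by omega
    exact_mod_cast this
  have h1 : ∀ l, n l * d + ∑ k, n k = 0 := by
    intro l
    have h2 := hn l
    simp_rw [h.mul_inner, mul_add] at h2
    rw [Finset.sum_add_distrib, ← Finset.sum_mul] at h2
    have h3 : ∑ k, n k * (if l = k then (d : ℂ) / (d + 1) else 0) = n l * (d / (d + 1)) := by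
      rw [Finset.sum_eq_single l]
      · rw [if_pos rfl]
      · intro k _ hk
        rw [if_neg (Ne.symm hk), mul_zero]
      · intro h0
        exact absurd (Finset.mem_univ _) h0
    rw [h3] at h2
    field_simp at h2
    linear_combination h2
  have h2 : (∑ k, n k) * d + d ^ 2 * ∑ k, n k = 0 := by
    have h3 : ∑ l, (n l * d + ∑ k, n k) = 0 := Finset.sum_eq_zero fun l _ => h1 l
    rw [Finset.sum_add_distrib, ← Finset.sum_mul, Finset.sum_const, Finset.card_univ, hcard,
      nsmul_eq_mul] at h3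
    push_cast at h3
    exact h3
  have h3 : (d : ℂ) * (d + 1) * ∑ k, n k = 0 := by linear_combination h2
  have h4 : ∑ k, n k = 0 := by
    rcases mul_eq_zero.1 h3 with h5 | h5
    · exact absurd h5 (mul_ne_zero hd0 hd1)
    · exact h5
  funext l
  have h5 := h1 l
  rw [h4, add_zero] at h5
  rcases mul_eq_zero.1 h5 with h6 | h6
  · exact h6
  · exact absurd h6 hd0

variable [FiniteDimensional ℂ V]

/-- rank one projections -/
noncomputable def pr (v : V) : V →ₗ[ℂ] V where
  toFun w := inner ℂ v w • v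
  map_add' a b := by rw [inner_add_right, add_smul]
  map_smul' c a := by rw [inner_smul_right, mul_smul]; rfl

omit [FiniteDimensional ℂ V] in
theorem pr_apply (v w : V) : pr v w = inner ℂ v w • v := rfl

/-- an operator with vanishing diagonal is zero -/
theorem IsEtf.op_zero (h : IsEtf d x) (hd : 1 ≤ d) (hcard : Fintype.card ι = d ^ 2)
    (hV : Module.finrank ℂ V = d) (N : V →ₗ[ℂ] V) (hN : ∀ k, inner ℂ (x k) (N (x k)) = 0) :
    N = 0 := by
  classical
  have hli : LinearIndependent ℂ (fun k => pr (x k)) := by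
    rw [Fintype.linearIndependent_iff]
    intro n hn
    have h1 : n = 0 := by
      apply h.coeff_zero hd hcard
      intro l
      have h2 := congrArg (fun M : V →ₗ[ℂ] V => inner ℂ (x l) (M (x l))) hn
      simp only [LinearMap.sum_apply, LinearMap.smul_apply, pr_apply, LinearMap.zero_apply,
        inner_zero_right, inner_sum, inner_smul_right] at h2
      rw [← h2]
      refine Finset.sum_congr rfl fun k _ => ?_
      ring
    exact fun i => congrFun h1 i
  have hspan : Submodule.span ℂ (Set.range fun k => pr (x k)) = ⊤ := by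
    apply hli.span_eq_top_of_card_eq_finrank'
    rw [hcard, Module.finrank_linearMap, hV, sq]
  have hmem : N ∈ Submodule.span ℂ (Set.range fun k => pr (x k)) := by
    rw [hspan]; exact Submodule.mem_top
  rw [Submodule.mem_span_range_iff_exists_fun] at hmem
  obtain ⟨n, rfl⟩ := hmem
  have h1 : n = 0 := by
    apply h.coeff_zero hd hcard
    intro l
    have h2 := hN l
    simp only [LinearMap.sum_apply, LinearMap.smul_apply, pr_apply,
      inner_sum, inner_smul_right] at h2
    rw [← h2]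
    refine Finset.sum_congr rfl fun k _ => ?_
    ring
  rw [h1]
  simp

/-- `U` maps the line of `x k` to the line of `x (π k)` -/
def Ind (x : ι → V) (U : V ≃ₗᵢ[ℂ] V) (π : Equiv.Perm ι) : Prop :=
  ∀ k, ∃ c : ℂ, U (x k) = c • x (π k)

omit [Fintype ι] [FiniteDimensional ℂ V] in
theorem ind_norm (h : IsEtf d x) {U : V ≃ₗᵢ[ℂ] V} {i j : ι} {c : ℂ} (hc : U (x i) = c • x j) :
    ‖c‖ = 1 := by
  have h1 := congrArg norm hc
  rw [U.norm_map, h.nrm, norm_smul, h.nrm, mul_one] at h1
  exact h1.symm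

omit [Fintype ι] [FiniteDimensional ℂ V] in
theorem Ind.one : Ind x (1 : V ≃ₗᵢ[ℂ] V) 1 := fun k => ⟨1, by simp⟩

omit [Fintype ι] [FiniteDimensional ℂ V] in
theorem Ind.mul {U U' : V ≃ₗᵢ[ℂ] V} {π π' : Equiv.Perm ι} (h : Ind x U π) (h' : Ind x U' π') :
    Ind x (U * U') (π * π') := by
  intro k
  obtain ⟨c, hc⟩ := h' k
  obtain ⟨c', hc'⟩ := h (π' k)
  refine ⟨c * c', ?_⟩
  change U (U' (x k)) = _
  rw [hc, map_smul, hc', smul_smul]
  rfl

omit [Fintype ι] [FiniteDimensional ℂ V] in
theorem Ind.inv (hx : IsEtf d x) {U : V ≃ₗᵢ[ℂ] V} {π : Equiv.Perm ι} (h : Ind x U π) :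
    Ind x U⁻¹ π⁻¹ := by
  intro k
  obtain ⟨c, hc⟩ := h (π⁻¹ k)
  have hππ : π (π⁻¹ k) = k := π.apply_symm_apply k
  rw [hππ] at hc
  have hc0 : c ≠ 0 := by
    rintro rfl
    have := ind_norm hx hc
    simp at this
  refine ⟨c⁻¹, ?_⟩
  have h1 : U (c⁻¹ • x (π⁻¹ k)) = x k := by
    rw [map_smul, hc, smul_smul, inv_mul_cancel₀ hc0, one_smul]
  rw [← h1]
  exact U.symm_apply_apply _

/-- an operator commuting with a transitive family of symmetries is scalar -/
theorem commutant (h : IsEtf d x) (hd : 1 ≤ d) (hcard : Fintype.card ι = d ^ 2)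
    (hV : Module.finrank ℂ V = d) (N : V →ₗ[ℂ] V) (i₀ : ι)
    (hN : ∀ k, ∃ (U : V ≃ₗᵢ[ℂ] V) (c : ℂ), U (x i₀) = c • x k ∧ ∀ v, N (U v) = U (N v)) :
    ∃ c : ℂ, ∀ v, N v = c • v := by
  refine ⟨inner ℂ (x i₀) (N (x i₀)), fun v => ?_⟩
  have h1 : N - inner ℂ (x i₀) (N (x i₀)) • LinearMap.id = 0 := by
    apply h.op_zero hd hcard hV
    intro k
    obtain ⟨U, c, hU, hc⟩ := hN k
    have h2 : inner ℂ (x k) (N (x k)) = inner ℂ (x i₀) (N (x i₀)) := by
      have h3 : inner ℂ (U (x i₀)) (N (U (x i₀))) = inner ℂ (x i₀) (N (x i₀)) := by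
        rw [hc, U.inner_map_map]
      rw [← h3, hU, map_smul, inner_smul_left, inner_smul_right, ← mul_assoc]
      have h4 : (starRingEnd ℂ) c * c = 1 := by
        rw [mul_comm, Complex.mul_conj, Complex.normSq_eq_norm_sq, ind_norm h hU]
        simp
      rw [h4, one_mul]
    rw [LinearMap.sub_apply, inner_sub_right, LinearMap.smul_apply, LinearMap.id_apply,
      inner_smul_right, h.inner_self, h2, mul_one, sub_self]
  have h2 := LinearMap.congr_fun h1 v
  rw [LinearMap.sub_apply, LinearMap.smul_apply, LinearMap.id_apply, LinearMap.zero_apply,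
    sub_eq_zero] at h2
  exact h2

/-- a symmetry fixing all the lines is scalar -/
theorem fix_all (h : IsEtf d x) (hd : 1 ≤ d) (hcard : Fintype.card ι = d ^ 2)
    (hV : Module.finrank ℂ V = d) {U : V ≃ₗᵢ[ℂ] V} (hU : Ind x U 1) :
    ∃ c : ℂ, ‖c‖ = 1 ∧ ∀ v, U v = c • v := by
  have hne : Nonempty ι := by
    rw [← Fintype.card_pos_iff, hcard]
    positivity
  obtain ⟨i₀⟩ := hne
  obtain ⟨c, hc⟩ := hU i₀
  have hcn := ind_norm h hc
  refine ⟨c, hcn, fun v => ?_⟩
  have h1 : (U.toLinearEquiv : V →ₗ[ℂ] V) - c • LinearMap.id = 0 := by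
    apply h.op_zero hd hcard hV
    intro k
    obtain ⟨c', hc'⟩ := hU k
    have hcn' := ind_norm h hc'
    have h2 := U.inner_map_map (x i₀) (x k)
    rw [hc, hc', inner_smul_left, inner_smul_right, Equiv.Perm.one_apply,
      Equiv.Perm.one_apply] at h2
    have h3 : (starRingEnd ℂ) c * c' = 1 := by
      have h4 := h.ne_zero i₀ k
      have h5 : ((starRingEnd ℂ) c * c' - 1) * inner ℂ (x i₀) (x k) = 0 := by
        linear_combination h2
      rcases mul_eq_zero.1 h5 with h6 | h6
      · exact sub_eq_zero.1 h6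
      · exact absurd h6 h4
    have h4 : c * (starRingEnd ℂ) c = 1 := by
      rw [Complex.mul_conj, Complex.normSq_eq_norm_sq, hcn]
      simp
    have h5 : c' = c := by
      calc c' = (c * (starRingEnd ℂ) c) * c' := by rw [h4, one_mul]
        _ = c * ((starRingEnd ℂ) c * c') := by ring
        _ = c := by rw [h3, mul_one]
    rw [LinearMap.sub_apply, LinearMap.smul_apply, LinearMap.id_apply]
    change inner ℂ (x k) (U (x k) - c • x k) = 0
    rw [hc', Equiv.Perm.one_apply, h5, sub_self, inner_zero_right]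
  have h2 := LinearMap.congr_fun h1 v
  rw [LinearMap.sub_apply, LinearMap.smul_apply, LinearMap.id_apply, LinearMap.zero_apply,
    sub_eq_zero] at h2
  exact h2

end

end Pool.Agent.Y387.SF
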