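import Pool.Agent.Y387.SF.Alg

/-!
# Finiteness
-/

set_option autoImplicit false

open Finset
namespace Pool.Agent.Y387.SF
open IsLocalRing

/-- an element of an extension of `ℂ` which is algebraic over the rationals is a constant -/
theorem mem_range_of_alg {K : Type*} [Field K] [CharZero K] (c : ℂ →+* K) {z : K}
    (hz : IsAlgebraic ℚ z) : ∃ m : ℂ, c m = z := by
  let _ := c.toAlgebra
  have h1 : IsAlgebraic ℂ z := by
    obtain ⟨Q, hQ0, hQ⟩ := hz
    refine ⟨Q.map (algebraMap ℚ ℂ), ?_, ?_⟩
    · exact (Polynomial.map_ne_zero_iff (algebraMap ℚ ℂ).injective).2 hQ0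
    · rw [Polynomial.aeval_def, Polynomial.eval₂_map]
      have h2 : (algebraMap ℂ K).comp (algebraMap ℚ ℂ) = algebraMap ℚ K := Subsingleton.elim _ _
      rw [h2]
      exact hQ
  have h2 := IsAlgClosed.degree_eq_one_of_irreducible ℂ (minpoly.irreducible h1.isIntegral)
  exact minpoly.mem_range_of_degree_eq_one ℂ z h2

variable {p : ℕ} [hp : Fact p.Prime]

/-- equations transfer along ring homomorphisms -/
theorem map_cc {K L : Type*} [Field K] [Field L] (c : K →+* L) (χ : AddChar (ZMod p) K)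
    (x y : ZMod p → K) (a b : ZMod p) :
    c (cc χ x y a b) = cc (c.toMonoidHom.compAddChar χ) (fun j => c (x j)) (fun j => c (y j)) a b := by
  unfold cc
  rw [map_sum]
  refine Finset.sum_congr rfl fun j _ => ?_
  rw [map_mul, map_mul]
  rfl

open MvPolynomial in
theorem finite_solutions (hp5 : 5 ≤ p) {χ : AddChar (ZMod p) ℂ} (hχ : χ ≠ 1) :
    {m : ZMod p → ZMod p → ℂ | ∃ x y : ZMod p → ℂ, IsSol χ x y ∧
      m = fun i j => x i * y j}.Finite := by
  classical
  -- polynomials vanishing at all the solutions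
  set I : Ideal (MvPolynomial (ZMod p ⊕ ZMod p) ℂ) :=
    ⨅ s : {s : (ZMod p → ℂ) × (ZMod p → ℂ) // IsSol χ s.1 s.2},
      RingHom.ker (eval (Sum.elim s.1.1 s.1.2)) with hI
  have hmemI : ∀ f : MvPolynomial (ZMod p ⊕ ZMod p) ℂ, (∀ x y : ZMod p → ℂ, IsSol χ x y →
      eval (Sum.elim x y) f = 0) → f ∈ I := by
    intro f hf
    rw [hI, Ideal.mem_iInf]
    rintro ⟨⟨x, y⟩, h⟩
    exact hf x y h
  have key : ∀ q : Ideal (MvPolynomial (ZMod p ⊕ ZMod p) ℂ), q.IsPrime → I ≤ q →
      ∃ m : ZMod p → ZMod p → ℂ, ∀ i j, X (Sum.inl i) * X (Sum.inr j) - C (m i j) ∈ q := by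
    intro q hq hIq
    have hdom : IsDomain (MvPolynomial (ZMod p ⊕ ZMod p) ℂ ⧸ q) := Ideal.Quotient.isDomain q
    set K := FractionRing (MvPolynomial (ZMod p ⊕ ZMod p) ℂ ⧸ q) with hK
    set φ : MvPolynomial (ZMod p ⊕ ZMod p) ℂ →+* K :=
      (algebraMap (MvPolynomial (ZMod p ⊕ ZMod p) ℂ ⧸ q) K).comp (Ideal.Quotient.mk q) with hφ
    have hker : ∀ f, φ f = 0 ↔ f ∈ q := by
      intro f
      rw [hφ, RingHom.comp_apply, FaithfulSMul.algebraMap_eq_zero_iff,
        Ideal.Quotient.eq_zero_iff_mem]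
    set c : ℂ →+* K := φ.comp C with hc
    have hchar : CharZero K := charZero_of_injective_ringHom c.injective
    set χ' : AddChar (ZMod p) K := c.toMonoidHom.compAddChar χ with hχ'
    have hχ'1 : χ' ≠ 1 := by
      intro h
      apply hχ
      ext b
      have h1 := congrArg (fun ψ : AddChar (ZMod p) K => ψ b) h
      simp only [AddChar.one_apply] at h1 ⊢
      have h2 : c (χ b) = c 1 := by rw [map_one]; exact h1
      exact c.injective h2
    have hsol : IsSol χ' (fun i => φ (X (Sum.inl i))) (fun j => φ (X (Sum.inr j))) := by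
      constructor
      · have h1 : (∑ j, X (Sum.inl j) * X (Sum.inr j) - 1 :
            MvPolynomial (ZMod p ⊕ ZMod p) ℂ) ∈ I := by
          apply hmemI
          intro x y h
          rw [map_sub, map_sum, map_one]
          simp only [map_mul, eval_X, Sum.elim_inl, Sum.elim_inr]
          rw [h.one, sub_self]
        have h2 := (hker _).2 (hIq h1)
        rw [map_sub, map_sum, map_one, sub_eq_zero] at h2
        rw [← h2]
        refine Finset.sum_congr rfl fun j _ => ?_
        rw [map_mul]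
      · intro a b hab
        have h1 : ((∑ j, X (Sum.inl j) * X (Sum.inr (j + a)) * C (χ (b * j))) *
            (∑ j, X (Sum.inl (j + a)) * X (Sum.inr j) * C (χ (-(b * j)))) -
            C (((p : ℂ) + 1)⁻¹) : MvPolynomial (ZMod p ⊕ ZMod p) ℂ) ∈ I := by
          apply hmemI
          intro x y h
          have h2 := h.mul a b hab
          unfold cc cd at h2
          rw [map_sub, map_mul, map_sum, map_sum, eval_C]
          simp only [map_mul, eval_X, Sum.elim_inl, Sum.elim_inr, eval_C]
          rw [h2, sub_self]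
        have h2 := (hker _).2 (hIq h1)
        rw [map_sub, map_mul, map_sum, map_sum, sub_eq_zero] at h2
        have h3 : φ (C (((p : ℂ) + 1)⁻¹)) = ((p : K) + 1)⁻¹ := by
          change c (((p : ℂ) + 1)⁻¹) = ((p : K) + 1)⁻¹
          rw [map_inv₀, map_add, map_natCast, map_one]
        rw [h3] at h2
        rw [← h2]
        unfold cc cd
        congr 1
        · refine Finset.sum_congr rfl fun j _ => ?_
          rw [RingHom.map_mul φ, RingHom.map_mul φ]
          rfl
        · refine Finset.sum_congr rfl fun j _ => ?_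
          rw [RingHom.map_mul φ, RingHom.map_mul φ]
          rfl
    have halg := fun i j => mem_range_of_alg c (algebraic hp5 hχ'1 hsol i j)
    choose m hm using halg
    refine ⟨m, fun i j => ?_⟩
    rw [← hker, map_sub, map_mul, ← hm i j, hc, RingHom.comp_apply, sub_self]
  choose! mat hmat using key
  refine ((Ideal.finite_minimalPrimes_of_isNoetherianRing _ I).image mat).subset ?_
  rintro m ⟨x, y, h, rfl⟩
  have hIm : I ≤ RingHom.ker (eval (Sum.elim x y)) := by
    rw [hI]
    exact iInf_le _ (⟨(x, y), h⟩ : {s : (ZMod p → ℂ) × (ZMod p → ℂ) // IsSol χ s.1 s.2})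
  have hpr : (RingHom.ker (eval (Sum.elim x y : ZMod p ⊕ ZMod p → ℂ))).IsPrime :=
    RingHom.ker_isPrime _
  obtain ⟨q, hq, hqm⟩ := Ideal.exists_minimalPrimes_le hIm
  refine ⟨q, hq, ?_⟩
  funext i j
  have h1 := hqm (hmat q hq.1.1 hq.1.2 i j)
  rw [RingHom.mem_ker, map_sub, map_mul, eval_X, eval_X, eval_C, Sum.elim_inl, Sum.elim_inr,
    sub_eq_zero] at h1
  exact h1.symm

end Pool.Agent.Y387.SF
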