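import Pool.Agent.Y387.SF.Fid
import Pool.Agent.Y387.SF.Fin

/-!
# Finitely many classes of frames with transitive symmetries
-/

set_option autoImplicit false

open Finset

namespace Pool.Agent.Y387.SF

variable {p : ℕ} [hp : Fact p.Prime]

instance : Finite (AddChar (ZMod p) ℂ) := inferInstance

/-- solutions, as matrices -/
def Sol (χ : AddChar (ZMod p) ℂ) : Set (ZMod p → ZMod p → ℂ) :=
  {m | ∃ x y : ZMod p → ℂ, IsSol χ x y ∧ m = fun i j => x i * y j}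

omit hp in
theorem cj_mul_ne {ψ : ZMod p → ℂ} {i : ZMod p} (hi : ψ i ≠ 0) : ψ i * cj ψ i ≠ 0 :=
  mul_ne_zero hi ((map_ne_zero _).2 hi)

theorem phase_of {ψ ψ' : ZMod p → ℂ} (hψ : ψ ≠ 0)
    (h : ∀ i j, ψ i * cj ψ j = ψ' i * cj ψ' j) : ∃ c : ℂ, ‖c‖ = 1 ∧ ∀ j, ψ' j = c * ψ j := by
  obtain ⟨i, hi⟩ : ∃ i, ψ i ≠ 0 := by
    by_contra hcon
    push Not at hcon
    exact hψ (funext hcon)
  have h1 := h i i
  have h2 : ψ' i * cj ψ' i ≠ 0 := by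
    rw [← h1]
    exact cj_mul_ne hi
  have hi' : ψ' i ≠ 0 := left_ne_zero_of_mul h2
  have hci' : cj ψ' i ≠ 0 := right_ne_zero_of_mul h2
  have hci : cj ψ i ≠ 0 := (map_ne_zero _).2 hi
  refine ⟨ψ' i / ψ i, ?_, fun j => ?_⟩
  · simp only [cj, Complex.mul_conj, Complex.normSq_eq_norm_sq] at h1
    have h3 : ‖ψ i‖ ^ 2 = ‖ψ' i‖ ^ 2 := by exact_mod_cast h1
    have h4 : ‖ψ i‖ = ‖ψ' i‖ := by
      rwa [sq_eq_sq₀ (norm_nonneg _) (norm_nonneg _)] at h3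
    rw [norm_div, h4, div_self]
    exact norm_ne_zero_iff.2 hi'
  · have h3 := h j i
    field_simp
    have h4 : (ψ' j * ψ i - ψ' i * ψ j) * (cj ψ' i * cj ψ i) = 0 := by
      linear_combination (-(ψ i * cj ψ i)) * h3 + (ψ j * cj ψ i) * h1
    rcases mul_eq_zero.1 h4 with h5 | h5
    · linear_combination h5
    · exact absurd h5 (mul_ne_zero hci' hci)

theorem Dv_smul (χ : AddChar (ZMod p) ℂ) {ψ ψ' : ZMod p → ℂ} {c : ℂ} (h : ∀ j, ψ' j = c * ψ j)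
    (a b : ZMod p) : Dv χ ψ' a b = c • Dv χ ψ a b := by
  ext j
  rw [PiLp.smul_apply, Dv_apply, Dv_apply, h, smul_eq_mul]
  ring

theorem isSol_congr {χ : AddChar (ZMod p) ℂ} {x y x' y' : ZMod p → ℂ}
    (h : ∀ i j, x i * y j = x' i * y' j) (hs : IsSol χ x y) : IsSol χ x' y' := by
  refine ⟨?_, fun a b hab => ?_⟩
  · rw [← hs.one]
    exact Finset.sum_congr rfl fun j _ => (h j j).symm
  · rw [← hs.mul a b hab]
    unfold cc cd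
    congr 1
    · exact Finset.sum_congr rfl fun j _ => by rw [h]
    · exact Finset.sum_congr rfl fun j _ => by rw [h]

theorem char_alg (χ : AddChar (ZMod p) ℂ) (u : ZMod p) : IsAlgebraic ℚ (χ u) := by
  apply IsAlgebraic.of_pow hp.out.pos
  rw [char_pow]
  exact isAlgebraic_one

/-- a representative with algebraic entries -/
theorem exists_alg (hp5 : 5 ≤ p) {χ : AddChar (ZMod p) ℂ} (hχ : χ ≠ 1) {ψ : ZMod p → ℂ}
    (h : IsSol χ ψ (cj ψ)) : ∃ ψ' : ZMod p → ℂ, (∀ i j, ψ i * cj ψ j = ψ' i * cj ψ' j) ∧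
      ∀ j, IsAlgebraic ℚ (ψ' j) := by
  have halg := algebraic hp5 hχ h
  have hψ : ψ ≠ 0 := by
    rintro rfl
    have := h.one
    simp at this
  obtain ⟨i, hi⟩ : ∃ i, ψ i ≠ 0 := by
    by_contra hcon
    push Not at hcon
    exact hψ (funext hcon)
  have hn : (‖ψ i‖ : ℂ) ≠ 0 := by
    rw [Complex.ofReal_ne_zero]
    exact norm_ne_zero_iff.2 hi
  have hii : ψ i * cj ψ i = (‖ψ i‖ : ℂ) ^ 2 := by
    simp only [cj, Complex.mul_conj, Complex.normSq_eq_norm_sq]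
    push_cast
    rfl
  have hna : IsAlgebraic ℚ (‖ψ i‖ : ℂ) := by
    apply IsAlgebraic.of_pow (n := 2) (by norm_num)
    rw [← hii]
    exact halg i i
  refine ⟨fun j => ψ j * cj ψ i / (‖ψ i‖ : ℂ), fun a b => ?_, fun j => ?_⟩
  · have h1 : cj (fun j => ψ j * cj ψ i / (‖ψ i‖ : ℂ)) b = cj ψ b * ψ i / (‖ψ i‖ : ℂ) := by
      simp only [cj, map_div₀, map_mul, Complex.conj_conj, Complex.conj_ofReal]
    rw [h1]
    field_simp
    linear_combination (-(ψ a * cj ψ b)) * hii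
  · change IsAlgebraic ℚ (ψ j * cj ψ i / (‖ψ i‖ : ℂ))
    rw [div_eq_mul_inv]
    exact (halg j i).mul hna.inv

/-- the relation between frames and finite data -/
def Rel (x : Fin (p ^ 2) → EuclideanSpace ℂ (Fin p))
    (δ : AddChar (ZMod p) ℂ × (ZMod p → ZMod p → ℂ) × (Fin (p ^ 2) → ZMod p × ZMod p)) : Prop :=
  ∃ (ψ : ZMod p → ℂ) (T : EuclideanSpace ℂ (Fin p) ≃ₗᵢ[ℂ] EuclideanSpace ℂ (ZMod p)),
    IsSol δ.1 ψ (cj ψ) ∧ (δ.2.1 = fun i j => ψ i * cj ψ j) ∧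
    ∀ k, ∃ c : ℂ, ‖c‖ = 1 ∧ T (x k) = c • Dv δ.1 ψ (δ.2.2 k).1 (δ.2.2 k).2

theorem sol_ne {χ : AddChar (ZMod p) ℂ} {ψ : ZMod p → ℂ} (h : IsSol χ ψ (cj ψ)) : ψ ≠ 0 := by
  rintro rfl
  have := h.one
  simp at this

theorem rel_equiv {x y : Fin (p ^ 2) → EuclideanSpace ℂ (Fin p)}
    {δ : AddChar (ZMod p) ℂ × (ZMod p → ZMod p → ℂ) × (Fin (p ^ 2) → ZMod p × ZMod p)}
    (hx : Rel x δ) (hy : Rel y δ) :
    ∃ U : EuclideanSpace ℂ (Fin p) ≃ₗᵢ[ℂ] EuclideanSpace ℂ (Fin p),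
      ∀ k, ∃ c : ℂ, ‖c‖ = 1 ∧ U (x k) = c • y k := by
  obtain ⟨ψ, T, h1, h2, h3⟩ := hx
  obtain ⟨ψ', T', h1', h2', h3'⟩ := hy
  obtain ⟨d, hd, hd'⟩ := phase_of (sol_ne h1) (fun i j => by
    have := h2.symm.trans h2'
    exact congrFun (congrFun this i) j)
  refine ⟨T.trans T'.symm, fun k => ?_⟩
  obtain ⟨c, hc, hc'⟩ := h3 k
  obtain ⟨e, he, he'⟩ := h3' k
  have hd0 : d ≠ 0 := by rintro rfl; simp at hd
  have he0 : e ≠ 0 := by rintro rfl; simp at he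
  refine ⟨c * d⁻¹ * e⁻¹, ?_, ?_⟩
  · rw [norm_mul, norm_mul, norm_inv, norm_inv, hc, hd, he]
    simp
  · rw [LinearIsometryEquiv.trans_apply, LinearIsometryEquiv.symm_apply_eq, map_smul, he', hc',
      Dv_smul δ.1 hd', smul_smul, smul_smul]
    congr 1
    field_simp

theorem rel_rep (hp5 : 5 ≤ p) {x : Fin (p ^ 2) → EuclideanSpace ℂ (Fin p)}
    {δ : AddChar (ZMod p) ℂ × (ZMod p → ZMod p → ℂ) × (Fin (p ^ 2) → ZMod p × ZMod p)}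
    (hδ : δ.1 ≠ 1) (hx : Rel x δ) (h : IsEtf p x) :
    ∃ y : Fin (p ^ 2) → EuclideanSpace ℂ (Fin p), Rel y δ ∧ IsEtf p y ∧
      ∀ k i, IsAlgebraic ℚ (y k i) := by
  obtain ⟨ψ, T, h1, h2, h3⟩ := hx
  obtain ⟨ψ', hψ', halg⟩ := exists_alg hp5 hδ h1
  obtain ⟨d, hd, hd'⟩ := phase_of (sol_ne h1) hψ'
  have eq : Fin p ≃ ZMod p := Fintype.equivOfCardEq (by rw [Fintype.card_fin, ZMod.card])
  set R : EuclideanSpace ℂ (Fin p) ≃ₗᵢ[ℂ] EuclideanSpace ℂ (ZMod p) :=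
    LinearIsometryEquiv.piLpCongrLeft 2 ℂ ℂ eq with hR
  have hy : ∀ k, ∃ c : ℂ, ‖c‖ = 1 ∧
      R.symm (Dv δ.1 ψ' (δ.2.2 k).1 (δ.2.2 k).2) = c • R.symm (T (x k)) := by
    intro k
    obtain ⟨c, hc, hc'⟩ := h3 k
    have hc0 : c ≠ 0 := by rintro rfl; simp at hc
    refine ⟨d * c⁻¹, ?_, ?_⟩
    · rw [norm_mul, norm_inv, hc, hd]
      simp
    · rw [hc', Dv_smul δ.1 hd', map_smul, map_smul, smul_smul]
      congr 1
      field_simp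
  refine ⟨fun k => R.symm (Dv δ.1 ψ' (δ.2.2 k).1 (δ.2.2 k).2), ⟨ψ', R, ?_, ?_, ?_⟩, ⟨?_, ?_⟩, ?_⟩
  · exact isSol_congr hψ' h1
  · rw [h2]
    funext i j
    exact hψ' i j
  · intro k
    exact ⟨1, norm_one, by rw [R.apply_symm_apply, one_smul]⟩
  · intro k
    obtain ⟨c, hc, hc'⟩ := hy k
    rw [hc', norm_smul, hc, R.symm.norm_map, T.norm_map, h.nrm, one_mul]
  · intro k l hkl
    obtain ⟨c, hc, hc'⟩ := hy k
    obtain ⟨e, he, he'⟩ := hy l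
    rw [hc', he', inner_smul_left, inner_smul_right, norm_mul, norm_mul, RCLike.norm_conj, hc, he,
      one_mul, one_mul, R.symm.inner_map_map, T.inner_map_map]
    exact h.ang k l hkl
  · intro k i
    have h4 : R.symm (Dv δ.1 ψ' (δ.2.2 k).1 (δ.2.2 k).2) i =
        Dv δ.1 ψ' (δ.2.2 k).1 (δ.2.2 k).2 (eq i) := by
      rw [hR, LinearIsometryEquiv.piLpCongrLeft_symm, LinearIsometryEquiv.piLpCongrLeft_apply]
      rfl
    rw [h4, Dv_apply]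
    exact (char_alg _ _).mul (halg _)

theorem classify (hp5 : 5 ≤ p) : ∃ S : Set (Fin (p ^ 2) → EuclideanSpace ℂ (Fin p)), S.Finite ∧
    (∀ y ∈ S, IsEtf p y ∧ ∀ k i, IsAlgebraic ℚ (y k i)) ∧
    ∀ x : Fin (p ^ 2) → EuclideanSpace ℂ (Fin p), IsEtf p x →
      (∀ i j, ∃ (U : EuclideanSpace ℂ (Fin p) ≃ₗᵢ[ℂ] EuclideanSpace ℂ (Fin p))
        (π : Equiv.Perm (Fin (p ^ 2))), Ind x U π ∧ π i = j) →
      ∃ y ∈ S, ∃ U : EuclideanSpace ℂ (Fin p) ≃ₗᵢ[ℂ] EuclideanSpace ℂ (Fin p),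
        ∀ k, ∃ c : ℂ, ‖c‖ = 1 ∧ U (x k) = c • y k := by
  classical
  set D : Set (AddChar (ZMod p) ℂ × (ZMod p → ZMod p → ℂ) × (Fin (p ^ 2) → ZMod p × ZMod p)) :=
    {δ | δ.1 ≠ 1 ∧ δ.2.1 ∈ Sol δ.1} with hD
  have hDfin : D.Finite := by
    have h1 : (⋃ χ : AddChar (ZMod p) ℂ,
        (fun q : (ZMod p → ZMod p → ℂ) × (Fin (p ^ 2) → ZMod p × ZMod p) => (χ, q)) ''
        ({m | χ ≠ 1 ∧ m ∈ Sol χ} ×ˢ Set.univ)).Finite := by
      apply Set.finite_iUnion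
      intro χ
      apply Set.Finite.image
      apply Set.Finite.prod _ Set.finite_univ
      by_cases hχ : χ = 1
      · have : {m | χ ≠ 1 ∧ m ∈ Sol χ} = ∅ := by
          ext m
          simp [hχ]
        rw [this]
        exact Set.finite_empty
      · exact (finite_solutions hp5 hχ).subset fun m hm => hm.2
    apply h1.subset
    rintro ⟨χ, m, σ⟩ ⟨h2, h3⟩
    rw [Set.mem_iUnion]
    exact ⟨χ, ⟨m, σ⟩, ⟨⟨h2, h3⟩, Set.mem_univ _⟩, rfl⟩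
  set Y : (AddChar (ZMod p) ℂ × (ZMod p → ZMod p → ℂ) × (Fin (p ^ 2) → ZMod p × ZMod p)) →
      (Fin (p ^ 2) → EuclideanSpace ℂ (Fin p)) := fun δ =>
    if h : ∃ y : Fin (p ^ 2) → EuclideanSpace ℂ (Fin p), Rel y δ ∧ IsEtf p y ∧
      ∀ k i, IsAlgebraic ℚ (y k i) then h.choose else 0 with hY
  have hYs : ∀ δ, (∃ y : Fin (p ^ 2) → EuclideanSpace ℂ (Fin p), Rel y δ ∧ IsEtf p y ∧
      ∀ k i, IsAlgebraic ℚ (y k i)) → Rel (Y δ) δ ∧ IsEtf p (Y δ) ∧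
      ∀ k i, IsAlgebraic ℚ (Y δ k i) := by
    intro δ hδ
    simp only [hY, dif_pos hδ]
    exact hδ.choose_spec
  refine ⟨Y '' {δ | δ ∈ D ∧ ∃ y : Fin (p ^ 2) → EuclideanSpace ℂ (Fin p), Rel y δ ∧ IsEtf p y ∧
      ∀ k i, IsAlgebraic ℚ (y k i)}, ?_, ?_, ?_⟩
  · exact (hDfin.subset fun δ hδ => hδ.1).image Y
  · rintro _ ⟨δ, ⟨_, hδ⟩, rfl⟩
    exact (hYs δ hδ).2
  · intro x hx htr
    obtain ⟨χ, ψ, T, σ, hχ, hsol, hT⟩ := exists_fid hx (Fintype.card_fin _)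
      (by rw [finrank_euclideanSpace_fin]) htr
    have hrel : Rel x (χ, (fun i j => ψ i * cj ψ j), σ) := ⟨ψ, T, hsol, rfl, hT⟩
    have hex := rel_rep hp5 (δ := (χ, (fun i j => ψ i * cj ψ j), σ)) hχ hrel hx
    refine ⟨_, ⟨(χ, (fun i j => ψ i * cj ψ j), σ), ⟨⟨hχ, ψ, cj ψ, hsol, rfl⟩, hex⟩, rfl⟩, ?_⟩
    exact rel_equiv hrel (hYs _ hex).1

end Pool.Agent.Y387.SF
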