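import Pool.Agent.Y387.SF.Bound

/-!
# Algebraicity and finiteness
-/

set_option autoImplicit false

open Finset

namespace Pool.Agent.Y387.SF

open IsLocalRing

variable {K : Type*} [Field K] {p : ℕ} [hp : Fact p.Prime] {χ : AddChar (ZMod p) K}
  {x y : ZMod p → K}

theorem charZero_residue_of_rat [CharZero K] (V : ValuationSubring K)
    (h : Set.range (algebraMap ℚ K) ⊆ V.toSubring) : CharZero (ResidueField V) := by
  refine charZero_of_inj_zero fun n hn => ?_
  by_contra hn0
  have h1 : (n : K) ≠ 0 := by exact_mod_cast hn0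
  have h2 : ((n : K))⁻¹ ∈ V := by
    have h3 : algebraMap ℚ K ((n : ℚ)⁻¹) ∈ V.toSubring := h ⟨_, rfl⟩
    rw [map_inv₀, map_natCast] at h3
    exact h3
  have h4 : (n : ResidueField V) * residue V ⟨(n : K)⁻¹, h2⟩ = 1 := by
    have h5 : (n : ResidueField V) = residue V (n : V) := by rw [map_natCast]
    rw [h5, ← map_mul, ← map_one (residue V)]
    congr 1
    apply Subtype.ext
    push_cast
    exact mul_inv_cancel₀ h1
  rw [hn, zero_mul] at h4
  exact zero_ne_one h4

/-- a solution over any field of characteristic zero has algebraic products -/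
theorem algebraic [CharZero K] (hp5 : 5 ≤ p) (hχ : χ ≠ 1) (h : IsSol χ x y) (i j : ZMod p) :
    IsAlgebraic ℚ (x i * y j) := by
  have h1 : x i * y j ∈ (⨅ V : {V : ValuationSubring K //
      Set.range (algebraMap ℚ K) ⊆ V.toSubring}, V.1.toSubring) := by
    rw [Subring.mem_iInf]
    rintro ⟨V, hV⟩
    have := charZero_residue_of_rat V hV
    have h2 := all_bounded hp5 V hχ h i j
    exact (V.valuation_le_one_iff _).1 h2
  rw [iInf_valuationSubring_superset] at h1
  have h2 : Subring.closure (Set.range (algebraMap ℚ K)) = (algebraMap ℚ K).range := by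
    have h3 : Set.range (algebraMap ℚ K) = ((algebraMap ℚ K).range : Set K) := by
      ext z; simp
    rw [h3, Subring.closure_eq]
  have h3 : IsIntegral (Subring.closure (Set.range (algebraMap ℚ K))) (x i * y j) := h1
  obtain ⟨P, hP, hP0⟩ := h3
  -- transfer to the rationals
  set ι : ℚ →+* Subring.closure (Set.range (algebraMap ℚ K)) :=
    (algebraMap ℚ K).codRestrict (Subring.closure (Set.range (algebraMap ℚ K)))
      (fun q => Subring.subset_closure ⟨q, rfl⟩) with hι
  have hsurj : Function.Surjective ι := by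
    rintro ⟨z, hz⟩
    have hz' := hz
    rw [h2] at hz'
    obtain ⟨q, hq⟩ := hz'
    exact ⟨q, Subtype.ext hq⟩
  obtain ⟨Q, hQ⟩ := Polynomial.map_surjective ι hsurj P
  refine ⟨Q, ?_, ?_⟩
  · rintro rfl
    rw [Polynomial.map_zero] at hQ
    exact hP.ne_zero hQ.symm
  · rw [← hQ, Polynomial.eval₂_map] at hP0
    exact hP0

end Pool.Agent.Y387.SF
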