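import Mathlib

/-!
# The uncertainty principle on the cyclic group of prime order, over a field of characteristic zero
-/

set_option autoImplicit false

open Finset Polynomial

namespace Pool.Agent.Y387.SF

section Sparse

variable {k : Type*} [Field k]

/-- a polynomial in characteristic `p` with at most `n` nonzero coefficients, all of index `< p`,
which is divisible by `(X - 1)^n` is zero -/
theorem sparse (p : ℕ) [CharP k p] (n : ℕ) : ∀ (J : Finset ℕ) (F : k[X]), J.card ≤ n →
    (∀ j ∈ J, j < p) → F.support ⊆ J → (X - 1) ^ n ∣ F → F = 0 := by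
  induction n with
  | zero =>
    intro J F hJ _ hF _
    have h0 : J = ∅ := by
      rw [← Finset.card_eq_zero]; omega
    rw [h0, Finset.subset_empty, Polynomial.support_eq_empty] at hF
    exact hF
  | succ n ih =>
    intro J F hJ hJp hF hdvd
    rcases J.eq_empty_or_nonempty with h0 | ⟨j', hj'⟩
    · rw [h0, Finset.subset_empty, Polynomial.support_eq_empty] at hF
      exact hF
    -- the operator `X d/dX - j'`
    set G : k[X] := X * derivative F - C (j' : k) * F with hG
    have hGc : ∀ i, G.coeff i = ((i : k) - j') * F.coeff i := by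
      intro i
      rw [hG, coeff_sub, coeff_C_mul]
      rcases i with _ | i
      · simp
      · rw [coeff_X_mul, coeff_derivative]
        push_cast
        ring
    have hG0 : G = 0 := by
      apply ih (J.erase j') G
      · rw [Finset.card_erase_of_mem hj']; omega
      · intro j hj
        exact hJp j (Finset.mem_of_mem_erase hj)
      · intro i hi
        rw [Polynomial.mem_support_iff, hGc] at hi
        rw [Finset.mem_erase]
        refine ⟨?_, hF ?_⟩
        · rintro rfl
          simp at hi
        · rw [Polynomial.mem_support_iff]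
          exact right_ne_zero_of_mul hi
      · obtain ⟨H, hH⟩ := hdvd
        refine ⟨X * (C ((n : k) + 1) * H + (X - 1) * derivative H) - C (j' : k) * ((X - 1) * H), ?_⟩
        rw [hG, hH, derivative_mul, derivative_pow]
        simp only [derivative_sub, derivative_X, derivative_one, sub_zero, mul_one,
          Nat.add_sub_cancel, map_add, map_natCast, map_one, Nat.cast_add, Nat.cast_one]
        ring
    have hF' : ∀ i, i ≠ j' → F.coeff i = 0 := by
      intro i hi
      by_contra hne
      have h1 : i ∈ J := hF (Polynomial.mem_support_iff.2 hne)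
      have h2 : ((i : k) - j') * F.coeff i = 0 := by rw [← hGc, hG0, coeff_zero]
      rcases mul_eq_zero.1 h2 with h3 | h3
      · rw [sub_eq_zero, CharP.cast_eq_iff_mod_eq k p] at h3
        rw [Nat.mod_eq_of_lt (hJp i h1), Nat.mod_eq_of_lt (hJp j' hj')] at h3
        exact hi h3
      · exact hne h3
    have hFe : F = C (F.coeff j') * X ^ j' := by
      ext i
      rw [coeff_C_mul, coeff_X_pow]
      split_ifs with h
      · rw [h, mul_one]
      · rw [mul_zero, hF' i h]
    have h1 : (X - 1 : k[X]) ∣ F := (dvd_pow_self _ (Nat.succ_ne_zero n)).trans hdvd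
    have h2 : F.eval 1 = 0 := by
      obtain ⟨H, hH⟩ := h1
      rw [hH]; simp
    rw [hFe] at h2
    simp only [eval_mul, eval_C, eval_pow, eval_X, one_pow, mul_one] at h2
    rw [hFe, h2, C_0, zero_mul]

end Sparse

section Val

variable {K : Type*} [Field K]

/-- a field of characteristic zero has a valuation ring in which `p` is not invertible -/
theorem exists_val (K : Type*) [Field K] [CharZero K] (p : ℕ) (hp : p.Prime) :
    ∃ V : ValuationSubring K, (p : K) ∈ V.nonunits := by
  let A : Subring K := (Int.castRingHom K).range
  let q : A := ⟨(p : K), ⟨(p : ℤ), by simp⟩⟩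
  have hne : Ideal.span {q} ≠ ⊤ := by
    intro h
    rw [Ideal.span_singleton_eq_top] at h
    obtain ⟨w, hw⟩ := h.exists_right_inv
    obtain ⟨m, hm⟩ := w.2
    have h1 : (p : K) * (m : K) = 1 := by
      have := congrArg Subtype.val hw
      simpa [q, ← hm] using this
    have h2 : ((p * m : ℤ) : K) = 1 := by push_cast; exact h1
    have h3 : (p : ℤ) * m = 1 := by exact_mod_cast h2
    have h4 : (p : ℤ) ∣ 1 := ⟨m, h3.symm⟩
    have h5 : p ∣ 1 := by exact_mod_cast h4
    exact hp.one_lt.ne' (Nat.dvd_one.1 h5)
  obtain ⟨V, _, hV⟩ := Ideal.image_subset_nonunits_valuationSubring _ hne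
  exact ⟨V, hV ⟨q, Ideal.subset_span rfl, rfl⟩⟩

/-- the residue field of such a valuation ring has characteristic `p` -/
theorem charP_residue {p : ℕ} (hp : p.Prime) (V : ValuationSubring K) (hV : (p : K) ∈ V.nonunits) :
    CharP (IsLocalRing.ResidueField V) p := by
  have h1 : ((p : ℕ) : IsLocalRing.ResidueField V) = 0 := by
    have h2 : (IsLocalRing.residue V) (p : V) = 0 := by
      rw [IsLocalRing.residue_eq_zero_iff]
      exact ValuationSubring.coe_mem_nonunits_iff.1 (by exact_mod_cast hV)
    simpa using h2
  have h3 := CharP.exists (IsLocalRing.ResidueField V)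
  obtain ⟨q, hq⟩ := h3
  have h4 : q ∣ p := (CharP.cast_eq_zero_iff _ q p).1 h1
  have h5 : q ≠ 1 := CharP.char_ne_one (IsLocalRing.ResidueField V) q
  rcases (Nat.dvd_prime hp).1 h4 with h | h
  · exact absurd h h5
  · rwa [h] at hq

end Val

end Pool.Agent.Y387.SF
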