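import Mathlib
import Pool.Agent.Y387.SF.Unc

/-!
# Leading coefficients, additive characters and the uncertainty principle
-/

set_option autoImplicit false

open Finset Polynomial

namespace Pool.Agent.Y387.SF

open IsLocalRing

variable {K : Type*} [Field K]

/-- leading coefficients of a finite family -/
theorem exists_lead (V : ValuationSubring K) {ι : Type*} [Finite ι] (f : ι → K) (hf : f ≠ 0) :
    ∃ i₀, f i₀ ≠ 0 ∧ (∀ i, V.valuation (f i) ≤ V.valuation (f i₀)) ∧
      ∃ F : ι → V, (∀ i, f i = f i₀ * F i) ∧
      ∀ i, residue V (F i) ≠ 0 ↔ V.valuation (f i) = V.valuation (f i₀) := by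
  have hne : Nonempty ι := by
    by_contra h
    rw [not_nonempty_iff] at h
    exact hf (funext fun i => (h.false i).elim)
  obtain ⟨i₀, h0⟩ := Finite.exists_max fun i => V.valuation (f i)
  have h1 : f i₀ ≠ 0 := by
    intro h2
    apply hf
    funext i
    have h3 := h0 i
    rw [h2, map_zero] at h3
    exact (map_eq_zero V.valuation).1 (le_zero_iff.1 h3)
  have h2 : ∀ i, f i / f i₀ ∈ V := by
    intro i
    rw [← V.valuation_le_one_iff, map_div₀]
    have h3 : 0 < V.valuation (f i₀) := (Valuation.pos_iff _).2 h1
    exact (div_le_one₀ h3).2 (h0 i)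
  refine ⟨i₀, h1, h0, fun i => ⟨f i / f i₀, h2 i⟩, fun i => ?_, fun i => ?_⟩
  · simp only
    rw [mul_div_cancel₀ _ h1]
  · rw [Ne, residue_eq_zero_iff, V.valuation_lt_one_iff]
    simp only
    rw [map_div₀]
    have h3 : V.valuation (f i₀) ≠ 0 := (Valuation.ne_zero_iff _).2 h1
    rw [not_lt, ← div_eq_one_iff_eq h3]
    constructor
    · intro h4
      refine le_antisymm ?_ h4
      exact (div_le_one₀ ((Valuation.pos_iff _).2 h1)).2 (h0 i)
    · intro h4
      exact h4.ge

theorem val_eq_one_of_pow (V : ValuationSubring K) {x : K} {n : ℕ} (hn : n ≠ 0) (h : x ^ n = 1) :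
    V.valuation x = 1 := by
  have h1 : V.valuation x ^ n = 1 := by rw [← map_pow, h, map_one]
  rcases lt_trichotomy (V.valuation x) 1 with h2 | h2 | h2
  · exact absurd h1 (pow_lt_one₀ zero_le h2 hn).ne
  · exact h2
  · exact absurd h1 (one_lt_pow₀ h2 hn).ne'

variable {p : ℕ} [hp : Fact p.Prime]

theorem char_pow (χ : AddChar (ZMod p) K) (b : ZMod p) : χ b ^ p = 1 := by
  rw [← AddChar.map_nsmul_eq_pow, nsmul_eq_mul, CharP.cast_eq_zero, zero_mul,
    AddChar.map_zero_eq_one]

theorem val_char (V : ValuationSubring K) (χ : AddChar (ZMod p) K) (b : ZMod p) :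
    V.valuation (χ b) = 1 := val_eq_one_of_pow V hp.out.ne_zero (char_pow χ b)

theorem char_injective {χ : AddChar (ZMod p) K} (hχ : χ ≠ 1) : Function.Injective χ := by
  intro a b h
  have h1 := AddChar.IsPrimitive.of_ne_one hχ
  have h2 : χ (a - b) = 1 := by
    rw [sub_eq_add_neg, AddChar.map_add_eq_mul, h, ← AddChar.map_add_eq_mul, add_neg_cancel,
      AddChar.map_zero_eq_one]
  rw [AddChar.IsPrimitive.zmod_char_eq_one_iff p h1] at h2
  exact sub_eq_zero.1 h2

/-- an additive character with values in a valuation ring -/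
theorem exists_lift (V : ValuationSubring K) (χ : AddChar (ZMod p) K) :
    ∃ ψ : AddChar (ZMod p) V, ∀ b, (ψ b : K) = χ b := by
  refine ⟨⟨fun b => ⟨χ b, ?_⟩, ?_, ?_⟩, fun b => rfl⟩
  · rw [← V.valuation_le_one_iff, val_char]
  · exact Subtype.ext (AddChar.map_zero_eq_one χ)
  · intro a b
    exact Subtype.ext (AddChar.map_add_eq_mul χ a b)

/-- the Fourier transform on the cyclic group of order `p` -/
def ft {R : Type*} [CommRing R] (χ : AddChar (ZMod p) R) (f : ZMod p → R) (b : ZMod p) : R :=
  ∑ j, f j * χ (b * j)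

theorem char_mul {R : Type*} [CommRing R] (χ : AddChar (ZMod p) R) (b j : ZMod p) :
    χ (b * j) = χ b ^ j.val := by
  rw [← AddChar.map_nsmul_eq_pow, nsmul_eq_mul, ZMod.natCast_zmod_val, mul_comm]

open scoped Classical in
/-- **Uncertainty principle** for the group of prime order (Chebotarev, Tao). -/
theorem unc [CharZero K] {χ : AddChar (ZMod p) K} (hχ : χ ≠ 1) {f : ZMod p → K} (hf : f ≠ 0) :
    p + 1 ≤ (univ.filter fun j => f j ≠ 0).card + (univ.filter fun b => ft χ f b ≠ 0).card := by
  classical
  by_contra hcon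
  push Not at hcon
  set J := univ.filter fun j => f j ≠ 0 with hJ
  set B := univ.filter fun b => ft χ f b = 0 with hB
  have hcard : B.card + (univ.filter fun b => ft χ f b ≠ 0).card = p := by
    rw [hB, Finset.card_filter_add_card_filter_not, Finset.card_univ, ZMod.card]
  have hJB : J.card ≤ B.card := by omega
  obtain ⟨V, hV⟩ := exists_val K p hp.out
  have hchar := charP_residue hp.out V hV
  obtain ⟨i₀, h1, h0, F, hF, hFr⟩ := exists_lead V f hf
  obtain ⟨ψ, hψ⟩ := exists_lift V χ
  -- the polynomial
  set P : V[X] := ∑ j : ZMod p, C (F j) * X ^ j.val with hP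
  have hinj : Function.Injective ψ := by
    intro a b h
    apply char_injective hχ
    rw [← hψ, ← hψ, h]
  have hroot : ∀ b ∈ B, P.eval (ψ b) = 0 := by
    intro b hb
    rw [hB, Finset.mem_filter] at hb
    apply Subtype.val_injective
    have h2 : f i₀ * ((P.eval (ψ b) : V) : K) = ft χ f b := by
      rw [hP, eval_finsetSum, ft]
      push_cast
      rw [Finset.mul_sum]
      refine Finset.sum_congr rfl fun j _ => ?_
      rw [eval_mul, eval_C, eval_pow, eval_X]
      push_cast
      rw [hψ, hF j, char_mul]
      ring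
    rw [hb.2] at h2
    rcases mul_eq_zero.1 h2 with h3 | h3
    · exact absurd h3 h1
    · exact h3
  have hdvd : ((B.image ψ).val.map fun a => X - C a).prod ∣ P := by
    by_cases hP0 : P = 0
    · rw [hP0]; exact dvd_zero _
    rw [Multiset.prod_X_sub_C_dvd_iff_le_roots hP0]
    rw [Finset.val_le_iff_val_subset]
    intro a ha
    rw [Finset.mem_val, Finset.mem_image] at ha
    obtain ⟨b, hb, rfl⟩ := ha
    rw [Polynomial.mem_roots hP0]
    exact hroot b hb
  have hψ1 : ∀ b, residue V (ψ b) = 1 := by
    intro b
    have h2 : ψ b ^ p = 1 := by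
      apply Subtype.val_injective
      push_cast
      rw [hψ, char_pow]
    have h3 : (residue V (ψ b)) ^ p = 1 := by rw [← map_pow, h2, map_one]
    have h4 : (residue V (ψ b) - 1) ^ p = 0 := by
      have := hchar
      rw [sub_pow_char, h3, one_pow, sub_self]
    have h5 := pow_eq_zero_iff hp.out.ne_zero |>.1 h4
    exact sub_eq_zero.1 h5
  have hdvd2 : (X - 1 : (ResidueField V)[X]) ^ B.card ∣ P.map (residue V) := by
    have h2 := Polynomial.map_dvd (residue V) hdvd
    have h3 : (((B.image ψ).val.map fun a => X - C a).prod).map (residue V)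
        = (X - 1 : (ResidueField V)[X]) ^ B.card := by
      rw [Polynomial.map_multiset_prod, Multiset.map_map]
      have h4 : (fun a => (X - C a : V[X]).map (residue V)) ∘ (fun a => a) = fun a =>
        (X - C a : V[X]).map (residue V) := rfl
      rw [Multiset.map_congr rfl (g := fun _ => (X - 1 : (ResidueField V)[X]))]
      · rw [Multiset.map_const', Multiset.prod_replicate]
        congr 1
        change (B.image ψ).card = B.card
        exact Finset.card_image_of_injective _ hinj
      · intro a ha
        rw [Finset.mem_val, Finset.mem_image] at ha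
        obtain ⟨b, hb, rfl⟩ := ha
        simp [hψ1 b]
    rwa [h3] at h2
  have hcoeff : ∀ j : ZMod p, (P.map (residue V)).coeff j.val = residue V (F j) := by
    intro j
    rw [coeff_map, hP, finsetSum_coeff]
    congr 1
    rw [Finset.sum_eq_single j]
    · simp
    · intro i _ hi
      rw [coeff_C_mul, coeff_X_pow, if_neg, mul_zero]
      intro h
      exact hi (ZMod.val_injective p h.symm)
    · intro h; exact absurd (Finset.mem_univ j) h
  have hsupp : (P.map (residue V)).support ⊆ J.image ZMod.val := by
    intro i hi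
    rw [Polynomial.mem_support_iff] at hi
    have hip : i < p := by
      by_contra hip
      apply hi
      rw [coeff_map, hP, finsetSum_coeff]
      rw [Finset.sum_eq_zero, map_zero]
      intro j _
      rw [coeff_C_mul, coeff_X_pow, if_neg, mul_zero]
      intro h
      exact hip (h ▸ ZMod.val_lt j)
    have h2 : ((i : ZMod p)).val = i := ZMod.val_cast_of_lt hip
    rw [Finset.mem_image]
    refine ⟨(i : ZMod p), ?_, h2⟩
    rw [hJ, Finset.mem_filter]
    refine ⟨Finset.mem_univ _, fun h3 => hi ?_⟩
    rw [← h2, hcoeff]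
    have h4 : F (i : ZMod p) = 0 := by
      have := hF (i : ZMod p)
      rw [h3] at this
      apply Subtype.val_injective
      rcases mul_eq_zero.1 this.symm with h5 | h5
      · exact absurd h5 h1
      · exact h5
    rw [h4, map_zero]
  have hzero : P.map (residue V) = 0 := by
    apply sparse p B.card (J.image ZMod.val) _ (Finset.card_image_le.trans hJB)
    · intro j hj
      rw [Finset.mem_image] at hj
      obtain ⟨i, _, rfl⟩ := hj
      exact ZMod.val_lt i
    · exact hsupp
    · exact hdvd2
  have h5 := hcoeff i₀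
  rw [hzero, coeff_zero] at h5
  exact ((hFr i₀).2 rfl) h5.symm

end Pool.Agent.Y387.SF
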