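import Pool.Agent.Y387.SF.FinGood

/-!
# Two symmetries of the equations: chirps and the Fourier transform
-/

set_option autoImplicit false

open Finset

namespace Pool.Agent.Y387.SF

variable {K : Type*} [Field K] {p : ℕ} [hp : Fact p.Prime] {χ : AddChar (ZMod p) K}
  {x y : ZMod p → K}

theorem isSol_iff : IsSol χ x y ↔ cc χ x y 0 0 = 1 ∧ ∀ a b, (a ≠ 0 ∨ b ≠ 0) →
    cc χ x y a b * (χ (a * b) * cc χ x y (-a) (-b)) = ((p : K) + 1)⁻¹ := by
  constructor
  · intro h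
    refine ⟨cc_zero_zero h, fun a b hab => ?_⟩
    rw [← cd_eq_cc]
    exact h.mul a b hab
  · rintro ⟨h1, h2⟩
    refine ⟨?_, fun a b hab => ?_⟩
    · rw [← h1]
      unfold cc
      simp
    · rw [cd_eq_cc]
      exact h2 a b hab

/-- multiplication by a chirp -/
theorem chirp_cc (s : ZMod p) (a b : ZMod p) :
    cc χ (fun j => x j * χ (s * j ^ 2 * 2⁻¹)) (fun j => y j * χ (-(s * j ^ 2 * 2⁻¹))) a b =
      χ (-(s * a ^ 2 * 2⁻¹)) * cc χ x y a (b - s * a * (2 * 2⁻¹)) := by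
  unfold cc
  rw [Finset.mul_sum]
  refine Finset.sum_congr rfl fun j _ => ?_
  have h1 : χ (s * j ^ 2 * 2⁻¹) * χ (-(s * (j + a) ^ 2 * 2⁻¹)) * χ (b * j) =
      χ (-(s * a ^ 2 * 2⁻¹)) * χ ((b - s * a * (2 * 2⁻¹)) * j) := by
    rw [← AddChar.map_add_eq_mul, ← AddChar.map_add_eq_mul, ← AddChar.map_add_eq_mul]
    congr 1
    ring
  calc _ = x j * y (j + a) * (χ (s * j ^ 2 * 2⁻¹) * χ (-(s * (j + a) ^ 2 * 2⁻¹)) *
        χ (b * j)) := by ring
    _ = _ := by rw [h1]; ring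

theorem two_ne (hp3 : 3 ≤ p) : (2 : ZMod p) ≠ 0 := by
  intro h
  have h1 : ((2 : ℕ) : ZMod p) = 0 := by exact_mod_cast h
  rw [ZMod.natCast_eq_zero_iff] at h1
  have := Nat.le_of_dvd (by norm_num) h1
  omega

theorem chirp_sol (hp3 : 3 ≤ p) (h : IsSol χ x y) (s : ZMod p) :
    IsSol χ (fun j => x j * χ (s * j ^ 2 * 2⁻¹)) (fun j => y j * χ (-(s * j ^ 2 * 2⁻¹))) := by
  have h2 : (2 : ZMod p) * 2⁻¹ = 1 := mul_inv_cancel₀ (two_ne hp3)
  rw [isSol_iff] at h ⊢
  obtain ⟨h0, h1⟩ := h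
  refine ⟨?_, fun a b hab => ?_⟩
  · rw [chirp_cc]
    simp [h0]
  · rw [chirp_cc, chirp_cc, h2]
    have hab' : a ≠ 0 ∨ b - s * a * 1 ≠ 0 := by
      by_cases ha : a = 0
      · right
        rw [ha]
        simpa [ha] using hab
      · exact Or.inl ha
    have h3 := h1 a (b - s * a * 1) hab'
    rw [← h3]
    have h4 : -b - s * -a * 1 = -(b - s * a * 1) := by ring
    rw [h4]
    have h5 : χ (-(s * a ^ 2 * 2⁻¹)) * (χ (a * b) * χ (-(s * (-a) ^ 2 * 2⁻¹))) =
        χ (a * (b - s * a * 1)) := by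
      rw [← AddChar.map_add_eq_mul, ← AddChar.map_add_eq_mul]
      congr 1
      linear_combination (-s * a ^ 2) * h2
    rw [← h5]
    ring

/-- the Fourier transform of the pair -/
theorem four_cc [CharZero K] (hχ : χ ≠ 1) (a b : ZMod p) :
    cc χ (fun k => ft χ x k) (fun k => (p : K)⁻¹ * ft χ y (-k)) a b =
      χ (-(a * b)) * cc χ x y b (-a) := by
  have hp0 : (p : K) ≠ 0 := cast_p_ne
  have h1 : ∀ k, ft χ x k * ((p : K)⁻¹ * ft χ y (-(k + a))) * χ (b * k) =
      ∑ j, ∑ l, ((p : K)⁻¹ * (x j * y l * χ (-(l * a)))) * χ (k * (j - l + b)) := by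
    intro k
    have h2 : ft χ x k * ((p : K)⁻¹ * ft χ y (-(k + a))) * χ (b * k) =
        ((p : K)⁻¹ * χ (b * k)) * (ft χ x k * ft χ y (-(k + a))) := by ring
    rw [h2]
    unfold ft
    rw [Finset.sum_mul_sum, Finset.mul_sum]
    refine Finset.sum_congr rfl fun j _ => ?_
    rw [Finset.mul_sum]
    refine Finset.sum_congr rfl fun l _ => ?_
    have h3 : χ (b * k) * (χ (k * j) * χ (-(k + a) * l)) =
        χ (-(l * a)) * χ (k * (j - l + b)) := by
      rw [← AddChar.map_add_eq_mul, ← AddChar.map_add_eq_mul, ← AddChar.map_add_eq_mul]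
      congr 1
      ring
    calc _ = (p : K)⁻¹ * (x j * y l) * (χ (b * k) * (χ (k * j) * χ (-(k + a) * l))) := by ring
      _ = _ := by rw [h3]; ring
  have h4 : cc χ (fun k => ft χ x k) (fun k => (p : K)⁻¹ * ft χ y (-k)) a b =
      ∑ j, ∑ l, ((p : K)⁻¹ * (x j * y l * χ (-(l * a)))) *
        (if j - l + b = 0 then (p : K) else 0) := by
    unfold cc
    simp_rw [h1]
    rw [Finset.sum_comm]
    refine Finset.sum_congr rfl fun j _ => ?_
    rw [Finset.sum_comm]
    refine Finset.sum_congr rfl fun l _ => ?_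
    rw [← Finset.mul_sum, char_mul_sum hχ]
  rw [h4]
  unfold cc
  rw [Finset.mul_sum]
  refine Finset.sum_congr rfl fun j _ => ?_
  rw [Finset.sum_eq_single (j + b)]
  · rw [if_pos (by ring)]
    have h5 : χ (-(j + b) * a) = χ (-(a * b)) * χ (-a * j) := by
      rw [← AddChar.map_add_eq_mul]
      congr 1
      ring
    rw [show -((j + b) * a) = -(j + b) * a by ring, h5]
    field_simp
  · intro l _ hl
    rw [if_neg, mul_zero]
    intro h0
    apply hl
    linear_combination -h0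
  · intro h0
    exact absurd (Finset.mem_univ _) h0

theorem four_sol [CharZero K] (hχ : χ ≠ 1) (h : IsSol χ x y) :
    IsSol χ (fun k => ft χ x k) (fun k => (p : K)⁻¹ * ft χ y (-k)) := by
  rw [isSol_iff] at h ⊢
  obtain ⟨h0, h1⟩ := h
  refine ⟨?_, fun a b hab => ?_⟩
  · rw [four_cc hχ]
    simp [h0]
  · rw [four_cc hχ, four_cc hχ]
    have h3 := h1 b (-a) (by
      rcases hab with h | h
      · exact Or.inr (neg_ne_zero.2 h)
      · exact Or.inl h)
    rw [← h3, neg_neg]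
    have h5 : χ (-(a * b)) * (χ (a * b) * χ (-(-a * -b))) = χ (b * -a) := by
      rw [← AddChar.map_add_eq_mul, ← AddChar.map_add_eq_mul]
      congr 1
      ring
    rw [← h5]
    ring

end Pool.Agent.Y387.SF
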