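import Pool.Agent.Y387.SF.Link
import Pool.Agent.Y387.SF.Cliff

/-!
# All products of entries are integral at every place with residue characteristic zero
-/

set_option autoImplicit false

open Finset

namespace Pool.Agent.Y387.SF

open IsLocalRing

variable {K : Type*} [Field K] {p : ℕ} [hp : Fact p.Prime] {χ : AddChar (ZMod p) K}
  {x y : ZMod p → K}

theorem vertical (hp5 : 5 ≤ p) (V : ValuationSubring K) [CharZero (ResidueField V)] (hχ : χ ≠ 1)
    (h : IsSol χ x y) (a₀ : ZMod p) {M : V.ValueGroup} (hM : 1 < M)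
    (hline : ∀ b, V.valuation (cc χ x y a₀ b) = M) : False := by
  have hM0 : M ≠ 0 := (zero_lt_one.trans hM).ne'
  have hcd : ∀ b, V.valuation (cd χ x y a₀ b) = M⁻¹ := by
    intro b
    have h1 := h.val_mul' V a₀ b
    rw [hline b] at h1
    exact eq_inv_of_mul_eq_one_right h1
  have h1 : ∀ j, V.valuation (x (j + a₀) * y j) ≤ M⁻¹ := by
    intro j
    apply le_of_ft V hχ (fun j => x (j + a₀) * y j)
    intro b
    have h2 := hcd (-b)
    rw [cd_eq_ft, neg_neg] at h2
    exact h2.le
  have h2 : ∀ j, V.valuation (x j * y (j + a₀)) ≤ M := by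
    intro j
    apply le_of_ft V hχ (fun j => x j * y (j + a₀))
    intro b
    have h2 := hline b
    rw [cc_eq_ft] at h2
    exact h2.le
  have hg : ∀ j, V.valuation (x j * y j) ≤ 1 := by
    apply good_of V hχ h a₀
    intro j
    rw [← map_mul]
    have h3 : x j * y j * (x (j + a₀) * y (j + a₀)) =
        x j * y (j + a₀) * (x (j + a₀) * y j) := by ring
    rw [h3, map_mul]
    calc _ ≤ M * M⁻¹ := mul_le_mul' (h2 j) (h1 j)
      _ = 1 := mul_inv_cancel₀ hM0
  have hb := bounded_of_good hp5 V hχ h hg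
  have h3 : V.valuation (cc χ x y a₀ 0) ≤ 1 := by
    rw [cc_eq_ft]
    exact ft_val_le V χ _ (fun j => hb j (j + a₀)) 0
  rw [hline] at h3
  exact absurd hM (not_lt.2 h3)

/-- **Theorem A.** -/
theorem all_bounded (hp5 : 5 ≤ p) (V : ValuationSubring K) [CharZero (ResidueField V)]
    (hχ : χ ≠ 1) (h : IsSol χ x y) (i j : ZMod p) : V.valuation (x i * y j) ≤ 1 := by
  have hK := charZero_of V
  by_cases hall : ∀ a b, V.valuation (cc χ x y a b) ≤ 1
  · have h1 := le_of_ft V hχ (fun l => x l * y (l + (j - i))) (θ := 1) (fun b => by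
      have := hall (j - i) b
      rwa [cc_eq_ft] at this) i
    simp only [add_sub_cancel] at h1
    exact h1
  · exfalso
    push Not at hall
    obtain ⟨a₁, b₁, hab⟩ := hall
    obtain ⟨U, hUV, hU⟩ := exists_comp V p hp.out
    have hbig : 1 < U.valuation (cc χ x y a₁ b₁) := by
      by_contra hcon
      rw [not_lt] at hcon
      have h1 := val_mono hUV (a := cc χ x y a₁ b₁) (b := 1) (by rwa [map_one])
      rw [map_one] at h1
      exact absurd hab (not_lt.2 h1)
    obtain ⟨r, v, hv0, hmax, hline⟩ := link U hU (by omega) h ⟨a₁, b₁, hbig⟩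
    set M := V.valuation (cc χ x y r.1 r.2) with hMdef
    have hM : 1 < M := hab.trans_le (val_mono hUV (hmax a₁ b₁))
    have hline' : ∀ t : ZMod p, V.valuation (cc χ x y (r.1 + t * v.1) (r.2 + t * v.2)) = M :=
      fun t => le_antisymm (val_mono hUV (hline t).le) (val_mono hUV (hline t).ge)
    by_cases hv1 : v.1 = 0
    · have hv2 : v.2 ≠ 0 := by
        intro hv2
        exact hv0 (Prod.ext hv1 hv2)
      apply vertical hp5 V hχ h r.1 hM
      intro b
      have h1 := hline' ((b - r.2) / v.2)
      rw [hv1, mul_zero, add_zero, div_mul_cancel₀ _ hv2, add_sub_cancel] at h1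
      exact h1
    · set s := v.2 / v.1 with hs
      have hsol1 := chirp_sol (by omega) h (-s)
      have hsol2 := four_sol hχ hsol1
      have h2 : (2 : ZMod p) * 2⁻¹ = 1 := mul_inv_cancel₀ (two_ne (by omega))
      apply vertical hp5 V hχ hsol2 (-(r.2 - s * r.1)) hM
      intro b
      rw [four_cc hχ, chirp_cc, map_mul, map_mul, val_char, val_char, one_mul, one_mul, h2]
      have h1 := hline' ((b - r.1) / v.1)
      rw [div_mul_cancel₀ _ hv1, add_sub_cancel] at h1
      have h3 : - -(r.2 - s * r.1) - -s * b * 1 = r.2 + (b - r.1) / v.1 * v.2 := by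
        rw [hs]
        field_simp
        ring
      rw [h3]
      exact h1

end Pool.Agent.Y387.SF
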