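import Pool.Agent.Y387.SF.Count

/-!
# Composite valuations
-/

set_option autoImplicit false

open Finset

namespace Pool.Agent.Y387.SF

open IsLocalRing

variable {K : Type*} [Field K]

/-- the valuation ring obtained by composing `V` with a valuation ring of its residue field -/
def comp (V : ValuationSubring K) (U : ValuationSubring (ResidueField V)) :
    ValuationSubring K where
  carrier := {x | ∃ h : x ∈ V, residue V ⟨x, h⟩ ∈ U}
  mul_mem' := by
    rintro a b ⟨ha, ha'⟩ ⟨hb, hb'⟩
    refine ⟨V.mul_mem _ _ ha hb, ?_⟩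
    have h1 := U.mul_mem _ _ ha' hb'
    rw [← map_mul] at h1
    exact h1
  one_mem' := by
    refine ⟨V.one_mem, ?_⟩
    have h1 := U.one_mem
    rw [← map_one (residue V)] at h1
    exact h1
  add_mem' := by
    rintro a b ⟨ha, ha'⟩ ⟨hb, hb'⟩
    refine ⟨V.add_mem _ _ ha hb, ?_⟩
    have h1 := U.add_mem _ _ ha' hb'
    rw [← map_add] at h1
    exact h1
  zero_mem' := by
    refine ⟨V.zero_mem, ?_⟩
    have h1 := U.zero_mem
    rw [← map_zero (residue V)] at h1
    exact h1
  neg_mem' := by
    rintro a ⟨ha, ha'⟩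
    refine ⟨V.neg_mem _ ha, ?_⟩
    have h1 := U.neg_mem _ ha'
    rw [← map_neg] at h1
    exact h1
  mem_or_inv_mem' := by
    have key : ∀ x : K, x ∈ V → (∃ h : x ∈ V, residue V ⟨x, h⟩ ∈ U) ∨
        (∃ h : x⁻¹ ∈ V, residue V ⟨x⁻¹, h⟩ ∈ U) := by
      intro x hx
      by_cases hu : residue V ⟨x, hx⟩ = 0
      · left
        exact ⟨hx, by rw [hu]; exact U.zero_mem⟩
      · rw [residue_eq_zero_iff] at hu
        have hu' : IsUnit (⟨x, hx⟩ : V) := by
          by_contra h
          exact hu ((mem_maximalIdeal _).2 h)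
        have hx1 : x⁻¹ ∈ V := by
          rw [V.valuation_eq_one_iff] at hu'
          rw [← V.valuation_le_one_iff, map_inv₀]
          rw [hu', inv_one]
        have hne : x ≠ 0 := by
          rintro rfl
          have := hu'.ne_zero
          exact this rfl
        have hmul : residue V ⟨x, hx⟩ * residue V ⟨x⁻¹, hx1⟩ = 1 := by
          rw [← map_mul, ← map_one (residue V)]
          congr 1
          apply Subtype.ext
          exact mul_inv_cancel₀ hne
        rcases U.mem_or_inv_mem (residue V ⟨x, hx⟩) with h | h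
        · exact Or.inl ⟨hx, h⟩
        · right
          refine ⟨hx1, ?_⟩
          rwa [inv_eq_of_mul_eq_one_right hmul] at h
    intro x
    rcases V.mem_or_inv_mem x with hx | hx
    · exact key x hx
    · rcases key x⁻¹ hx with h | h
      · exact Or.inr h
      · rw [inv_inv] at h
        exact Or.inl h

theorem comp_le (V : ValuationSubring K) (U : ValuationSubring (ResidueField V)) :
    comp V U ≤ V := by
  rintro x ⟨h, _⟩
  exact h

/-- the valuation of the smaller ring is finer -/
theorem val_mono {V U : ValuationSubring K} (h : U ≤ V) {a b : K}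
    (hab : U.valuation a ≤ U.valuation b) : V.valuation a ≤ V.valuation b := by
  by_cases hb : b = 0
  · rw [hb, map_zero] at hab
    have h1 : a = 0 := (map_eq_zero U.valuation).1 (le_zero_iff.1 hab)
    rw [h1, hb]
  · have h1 : a / b ∈ U := by
      rw [← U.valuation_le_one_iff, map_div₀]
      exact (div_le_one₀ ((Valuation.pos_iff _).2 hb)).2 hab
    have h2 := h h1
    rw [← V.valuation_le_one_iff, map_div₀] at h2
    exact (div_le_one₀ ((Valuation.pos_iff _).2 hb)).1 h2

theorem exists_comp (V : ValuationSubring K) [CharZero (ResidueField V)] (p : ℕ)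
    (hp : p.Prime) : ∃ U : ValuationSubring K, U ≤ V ∧ (p : K) ∈ U.nonunits := by
  obtain ⟨W, hW⟩ := exists_val (ResidueField V) p hp
  refine ⟨comp V W, comp_le V W, ?_⟩
  have hK := charZero_of V
  have hp0 : (p : K) ≠ 0 := by exact_mod_cast hp.ne_zero
  rw [ValuationSubring.mem_nonunits_iff, ← not_le]
  intro hle
  -- then `p⁻¹` lies in the composite ring
  have h1 : (p : K)⁻¹ ∈ comp V W := by
    rw [← ValuationSubring.valuation_le_one_iff, map_inv₀]
    exact (inv_le_one₀ ((Valuation.pos_iff _).2 hp0)).2 hle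
  obtain ⟨h2, h3⟩ := h1
  have h4 : (p : ResidueField V) * residue V ⟨(p : K)⁻¹, h2⟩ = 1 := by
    have h5 : (p : ResidueField V) = residue V (p : V) := by rw [map_natCast]
    rw [h5, ← map_mul, ← map_one (residue V)]
    congr 1
    apply Subtype.ext
    push_cast
    exact mul_inv_cancel₀ hp0
  have h5 : W.valuation (residue V ⟨(p : K)⁻¹, h2⟩) ≤ 1 := (W.valuation_le_one_iff _).2 h3
  rw [ValuationSubring.mem_nonunits_iff] at hW
  have h6 := congrArg W.valuation h4
  rw [map_mul, map_one] at h6
  exact absurd h6 (mul_lt_one_of_lt_of_le hW h5).ne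

end Pool.Agent.Y387.SF
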