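import Mathlib
import Pool.Agent.Y387.SF.Base

/-!
# Counting large coefficients of a function and of its Fourier transform
-/

set_option autoImplicit false

open Finset Polynomial

namespace Pool.Agent.Y387.SF

open IsLocalRing

variable {K : Type*} [Field K] {p : ℕ} [hp : Fact p.Prime]

theorem val_nat (V : ValuationSubring K) [CharZero (ResidueField V)] {n : ℕ} (hn : n ≠ 0) :
    V.valuation (n : K) = 1 := by
  have h1 : V.valuation ((n : V) : K) = 1 := by
    rw [← V.valuation_eq_one_iff]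
    rw [← residue_ne_zero_iff_isUnit]
    rw [map_natCast]
    exact_mod_cast hn
  exact_mod_cast h1

theorem charZero_of (V : ValuationSubring K) [CharZero (ResidueField V)] : CharZero K := by
  refine charZero_of_inj_zero fun n hn => ?_
  by_contra h
  have h1 := val_nat V h
  rw [hn, map_zero] at h1
  exact zero_ne_one h1

/-- the residue character -/
theorem exists_res (V : ValuationSubring K) [CharZero (ResidueField V)]
    {χ : AddChar (ZMod p) K} (hχ : χ ≠ 1) :
    ∃ (ψ : AddChar (ZMod p) V) (χ' : AddChar (ZMod p) (ResidueField V)), χ' ≠ 1 ∧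
      (∀ b, (ψ b : K) = χ b) ∧ ∀ b, residue V (ψ b) = χ' b := by
  obtain ⟨ψ, hψ⟩ := exists_lift V χ
  refine ⟨ψ, (residue V).toMonoidHom.compAddChar ψ, ?_, hψ, fun b => rfl⟩
  intro h
  have h1 : ∑ b, χ b = 0 := AddChar.sum_eq_zero_of_ne_one hχ
  have h2 : ∑ b, ψ b = 0 := by
    apply Subtype.val_injective
    push_cast
    simp_rw [hψ]
    exact h1
  have h3 : ∑ b : ZMod p, residue V (ψ b) = 0 := by rw [← map_sum, h2, map_zero]
  have h4 : ∀ b, residue V (ψ b) = 1 := fun b => by
    have := congrArg (fun c : AddChar (ZMod p) (ResidueField V) => c b) h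
    simpa using this
  simp_rw [h4] at h3
  rw [Finset.sum_const, Finset.card_univ, ZMod.card, nsmul_eq_mul, mul_one] at h3
  exact hp.out.ne_zero (by exact_mod_cast h3)

theorem ft_val_le (V : ValuationSubring K) (χ : AddChar (ZMod p) K) (f : ZMod p → K)
    {θ : V.ValueGroup} (h : ∀ j, V.valuation (f j) ≤ θ) (b : ZMod p) :
    V.valuation (ft χ f b) ≤ θ := by
  apply Valuation.map_sum_le
  intro j _
  rw [map_mul, val_char, mul_one]
  exact h j

theorem char_mul_sum {χ : AddChar (ZMod p) K} (hχ : χ ≠ 1) (c : ZMod p) :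
    ∑ b, χ (b * c) = if c = 0 then (p : K) else 0 := by
  have := AddChar.sum_mulShift (R := ZMod p) (R' := K) (ψ := χ) c
    (AddChar.IsPrimitive.of_ne_one hχ)
  rw [this, ZMod.card]
  split_ifs <;> simp

/-- Fourier inversion -/
theorem ft_inv {χ : AddChar (ZMod p) K} (hχ : χ ≠ 1) (f : ZMod p → K) (i : ZMod p) :
    ∑ b, ft χ f b * χ (-(b * i)) = p * f i := by
  unfold ft
  simp_rw [Finset.sum_mul]
  rw [Finset.sum_comm]
  have h1 : ∀ j, ∑ b, f j * χ (b * j) * χ (-(b * i)) = f j * if j - i = 0 then (p : K) else 0 := by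
    intro j
    rw [← char_mul_sum hχ, Finset.mul_sum]
    refine Finset.sum_congr rfl fun b _ => ?_
    rw [mul_assoc, ← AddChar.map_add_eq_mul]
    congr 2
    ring
  simp_rw [h1]
  rw [Finset.sum_eq_single i]
  · rw [sub_self, if_pos rfl, mul_comm]
  · intro j _ hj
    rw [if_neg (sub_ne_zero.2 hj), mul_zero]
  · intro h; exact absurd (Finset.mem_univ i) h

theorem le_of_ft (V : ValuationSubring K) [CharZero (ResidueField V)]
    {χ : AddChar (ZMod p) K} (hχ : χ ≠ 1) (f : ZMod p → K)
    {θ : V.ValueGroup} (h : ∀ b, V.valuation (ft χ f b) ≤ θ) (j : ZMod p) :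
    V.valuation (f j) ≤ θ := by
  have h1 : V.valuation ((p : K) * f j) = V.valuation (f j) := by
    rw [map_mul, val_nat V hp.out.ne_zero, one_mul]
  rw [← h1, ← ft_inv hχ]
  apply Valuation.map_sum_le
  intro b _
  rw [map_mul, val_char, mul_one]
  exact h b

open scoped Classical in
/-- counting at the leading level -/
theorem count_lead (V : ValuationSubring K) [CharZero (ResidueField V)]
    {χ : AddChar (ZMod p) K} (hχ : χ ≠ 1) {f : ZMod p → K} (hf : f ≠ 0) :
    ∃ i₀, f i₀ ≠ 0 ∧ (∀ i, V.valuation (f i) ≤ V.valuation (f i₀)) ∧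
      p + 1 ≤ (univ.filter fun j => V.valuation (f j) = V.valuation (f i₀)).card +
        (univ.filter fun b => V.valuation (ft χ f b) = V.valuation (f i₀)).card := by
  have := charZero_of V
  obtain ⟨i₀, h1, h0, F, hF, hFr⟩ := exists_lead V f hf
  obtain ⟨ψ, χ', hχ', hψ, hψ'⟩ := exists_res V hχ
  refine ⟨i₀, h1, h0, ?_⟩
  have hne : (fun j => residue V (F j)) ≠ 0 := by
    intro h
    exact (hFr i₀).2 rfl (congrFun h i₀)
  have h2 := unc hχ' hne
  refine h2.trans (add_le_add (le_of_eq ?_) ?_)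
  · congr 1
    refine Finset.filter_congr fun j _ => ?_
    exact hFr j
  · apply Finset.card_le_card
    intro b hb
    rw [Finset.mem_filter] at hb ⊢
    refine ⟨Finset.mem_univ _, ?_⟩
    have h3 : ft χ f b = f i₀ * ((∑ j, F j * ψ (b * j) : V) : K) := by
      unfold ft
      push_cast
      rw [Finset.mul_sum]
      refine Finset.sum_congr rfl fun j _ => ?_
      rw [hψ, hF j, mul_assoc]
    have h4 : IsUnit (∑ j, F j * ψ (b * j) : V) := by
      rw [← residue_ne_zero_iff_isUnit, map_sum]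
      convert hb.2 using 2
      unfold ft
      refine Finset.sum_congr rfl fun j _ => ?_
      rw [map_mul, hψ']
    rw [h3, map_mul, (V.valuation_eq_one_iff _).1 h4, mul_one]

open scoped Classical in
theorem count_gt (V : ValuationSubring K) [CharZero (ResidueField V)]
    {χ : AddChar (ZMod p) K} (hχ : χ ≠ 1) {f : ZMod p → K} {θ : V.ValueGroup}
    (h : ∃ j, θ < V.valuation (f j)) :
    p + 1 ≤ (univ.filter fun j => θ < V.valuation (f j)).card +
        (univ.filter fun b => θ < V.valuation (ft χ f b)).card := by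
  obtain ⟨j₀, hj₀⟩ := h
  have hf : f ≠ 0 := by
    rintro rfl
    simp at hj₀
  obtain ⟨i₀, h1, h0, h2⟩ := count_lead V hχ hf
  have h3 : θ < V.valuation (f i₀) := hj₀.trans_le (h0 j₀)
  refine h2.trans (add_le_add (Finset.card_le_card ?_) (Finset.card_le_card ?_))
  · intro j hj
    rw [Finset.mem_filter] at hj ⊢
    exact ⟨hj.1, hj.2 ▸ h3⟩
  · intro j hj
    rw [Finset.mem_filter] at hj ⊢
    exact ⟨hj.1, hj.2 ▸ h3⟩

open scoped Classical in
theorem count_ge (V : ValuationSubring K) [CharZero (ResidueField V)]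
    {χ : AddChar (ZMod p) K} (hχ : χ ≠ 1) {f : ZMod p → K} {θ : V.ValueGroup} (hθ : 0 < θ)
    (h : ∃ j, θ ≤ V.valuation (f j)) :
    p + 1 ≤ (univ.filter fun j => θ ≤ V.valuation (f j)).card +
        (univ.filter fun b => θ ≤ V.valuation (ft χ f b)).card := by
  obtain ⟨j₀, hj₀⟩ := h
  have hf : f ≠ 0 := by
    rintro rfl
    simp only [Pi.zero_apply, map_zero] at hj₀
    exact absurd hθ (not_lt.2 hj₀)
  obtain ⟨i₀, h1, h0, h2⟩ := count_lead V hχ hf
  have h3 : θ ≤ V.valuation (f i₀) := hj₀.trans (h0 j₀)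
  refine h2.trans (add_le_add (Finset.card_le_card ?_) (Finset.card_le_card ?_))
  · intro j hj
    rw [Finset.mem_filter] at hj ⊢
    exact ⟨hj.1, hj.2 ▸ h3⟩
  · intro j hj
    rw [Finset.mem_filter] at hj ⊢
    exact ⟨hj.1, hj.2 ▸ h3⟩

end Pool.Agent.Y387.SF
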