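import Mathlib

/-!
# Difference operators in characteristic `p`
-/

set_option autoImplicit false

open Finset

namespace Pool.Agent.Y387.SF

section Gen

variable {k : Type*} [Field k] {E : Type*} [AddCommGroup E]

/-- translation -/
def T (v : E) : Module.End k (E → k) where
  toFun f u := f (u + v)
  map_add' _ _ := rfl
  map_smul' _ _ := rfl

/-- difference -/
def N (v : E) : Module.End k (E → k) := T v - 1

@[simp] theorem T_apply (v : E) (f : E → k) (u : E) : T v f u = f (u + v) := rfl

theorem N_apply (v : E) (f : E → k) (u : E) : N v f u = f (u + v) - f u := rfl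

theorem T_mul (v w : E) : (T v : Module.End k (E → k)) * T w = T (v + w) := by
  ext f u
  change f (u + v + w) = f (u + (v + w))
  rw [add_assoc]

theorem T_zero : (T 0 : Module.End k (E → k)) = 1 := by
  ext f u
  change f (u + 0) = f u
  rw [add_zero]

theorem T_comm (v w : E) : Commute (T v : Module.End k (E → k)) (T w) := by
  rw [commute_iff_eq, T_mul, T_mul, add_comm]

theorem T_eq (v : E) : (T v : Module.End k (E → k)) = N v + 1 := by
  rw [N, sub_add_cancel]

theorem N_T_comm (v w : E) : Commute (N v : Module.End k (E → k)) (T w) :=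
  (T_comm v w).sub_left (Commute.one_left _)

theorem N_comm (v w : E) : Commute (N v : Module.End k (E → k)) (N w) :=
  (N_T_comm v w).sub_right (Commute.one_right _)

theorem T_pow (v : E) (n : ℕ) : (T v : Module.End k (E → k)) ^ n = T (n • v) := by
  induction n with
  | zero => rw [pow_zero, zero_smul, T_zero]
  | succ n ih => rw [pow_succ, ih, T_mul, succ_nsmul]

theorem N_add (v w : E) : (N (v + w) : Module.End k (E → k)) = N v + N w + N v * N w := by
  rw [N, N, N, ← T_mul]
  simp only [sub_mul, mul_sub, one_mul, mul_one]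
  abel

theorem N_neg (v : E) : (N (-v) : Module.End k (E → k)) = -(T (-v) * N v) := by
  rw [N, N, mul_sub, T_mul, neg_add_cancel, T_zero, mul_one]
  abel

theorem N_pow_p {p : ℕ} [hp : Fact p.Prime] [CharP k p] (v : E) (hv : p • v = 0) :
    (N v : Module.End k (E → k)) ^ p = 0 := by
  have : CharP (Module.End k (E → k)) p := by
    refine ⟨fun n => ?_⟩
    constructor
    · intro h
      have h1 := congrFun (LinearMap.congr_fun h (fun _ => (1 : k))) (0 : E)
      simp only [LinearMap.zero_apply, Pi.zero_apply] at h1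
      have h2 : ((n : Module.End k (E → k)) (fun _ => (1 : k))) (0 : E) = (n : k) := by
        rw [Module.End.natCast_apply]
        simp
      rw [h2] at h1
      exact (CharP.cast_eq_zero_iff k p n).1 h1
    · rintro ⟨m, rfl⟩
      ext f u
      rw [Module.End.natCast_apply]
      simp
  rw [N, sub_pow_char_of_commute p (Commute.one_right (T v)), T_pow, hv, T_zero, one_pow, sub_self]

/-- Leibniz rule -/
theorem N_mul (v : E) (F G : E → k) : N v (F * G) = N v F * T v G + F * N v G := by
  ext u
  simp only [N_apply, Pi.mul_apply, Pi.add_apply, T_apply]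
  ring

theorem N_pow_mul (v : E) (F G : E → k) (n : ℕ) :
    (N v ^ n) (F * G) =
      ∑ i ∈ range (n + 1), (n.choose i : k) • (((N v ^ i) F) * ((T v ^ i) ((N v ^ (n - i)) G))) := by
  induction n with
  | zero => simp
  | succ n ih =>
    rw [pow_succ', Module.End.mul_apply, ih, map_sum]
    have h1 : ∀ i ∈ range (n + 1), N v ((n.choose i : k) •
        (((N v ^ i) F) * ((T v ^ i) ((N v ^ (n - i)) G)))) =
        (n.choose i : k) • (((N v ^ (i + 1)) F) * ((T v ^ (i + 1)) ((N v ^ (n - i)) G))) +
        (n.choose i : k) • (((N v ^ i) F) * ((T v ^ i) ((N v ^ (n + 1 - i)) G))) := by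
      intro i hi
      rw [Finset.mem_range] at hi
      rw [map_smul, N_mul, smul_add]
      congr 2
      · rw [← Module.End.mul_apply, ← pow_succ', ← Module.End.mul_apply, ← pow_succ']
      · congr 1
        rw [← Module.End.mul_apply, ← Module.End.mul_apply, ← Module.End.mul_apply]
        rw [((N_T_comm v v).pow_right i).eq]
        rw [mul_assoc, ← pow_succ', show n - i + 1 = n + 1 - i by omega]
    rw [Finset.sum_congr rfl h1, Finset.sum_add_distrib]
    rw [Finset.sum_range_succ' (fun i => ((n + 1).choose i : k) •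
      (((N v ^ i) F) * ((T v ^ i) ((N v ^ (n + 1 - i)) G)))) (n + 1)]
    have h2 : ∀ i ∈ range (n + 1), ((n + 1).choose (i + 1) : k) •
        (((N v ^ (i + 1)) F) * ((T v ^ (i + 1)) ((N v ^ (n + 1 - (i + 1))) G))) =
        (n.choose i : k) • (((N v ^ (i + 1)) F) * ((T v ^ (i + 1)) ((N v ^ (n - i)) G))) +
        (n.choose (i + 1) : k) •
          (((N v ^ (i + 1)) F) * ((T v ^ (i + 1)) ((N v ^ (n + 1 - (i + 1))) G))) := by
      intro i _
      rw [Nat.choose_succ_succ, Nat.cast_add, add_smul]
      congr 4
      rw [Nat.add_sub_add_right]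
    rw [Finset.sum_congr rfl h2, Finset.sum_add_distrib, add_assoc]
    congr 1
    rw [Finset.sum_range_succ' (fun i => (n.choose i : k) •
      (((N v ^ i) F) * ((T v ^ i) ((N v ^ (n + 1 - i)) G)))) n]
    rw [Finset.sum_range_succ (fun i => (n.choose (i + 1) : k) •
          (((N v ^ (i + 1)) F) * ((T v ^ (i + 1)) ((N v ^ (n + 1 - (i + 1))) G)))) n]
    rw [Nat.choose_succ_self, Nat.cast_zero, zero_smul, add_zero]
    congr 2
    simp

/-- top coefficient of a product -/
theorem N_top (v : E) (F G : E → k) (a b : ℕ) (hF : (N v ^ (a + 1)) F = 0)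
    (hG : (N v ^ (b + 1)) G = 0) :
    (N v ^ (a + b)) (F * G) = ((a + b).choose a : k) • (((N v ^ a) F) * ((N v ^ b) G)) := by
  rw [N_pow_mul, Finset.sum_eq_single a]
  · rw [Nat.add_sub_cancel_left]
    congr 2
    have h1 : T v ((N v ^ b) G) = (N v ^ b) G := by
      rw [T_eq, LinearMap.add_apply, ← Module.End.mul_apply, ← pow_succ', hG, zero_add,
        Module.End.one_apply]
    have h2 : ∀ i : ℕ, (T v ^ i) ((N v ^ b) G) = (N v ^ b) G := by
      intro i
      induction i with
      | zero => rw [pow_zero, Module.End.one_apply]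
      | succ i ih => rw [pow_succ, Module.End.mul_apply, h1, ih]
    exact h2 a
  · intro i hi hia
    rw [Finset.mem_range] at hi
    rcases lt_or_gt_of_ne hia with h | h
    · have h1 : (N v ^ (a + b - i)) G = 0 := by
        rw [show a + b - i = (a - 1 - i) + (b + 1) by omega, pow_add, Module.End.mul_apply, hG,
          map_zero]
      rw [h1, map_zero, mul_zero, smul_zero]
    · have h1 : (N v ^ i) F = 0 := by
        rw [show i = (i - (a + 1)) + (a + 1) by omega, pow_add, Module.End.mul_apply, hF,
          map_zero]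
      rw [h1, zero_mul, smul_zero]
  · intro h
    exact absurd (Finset.mem_range.2 (by omega)) h

theorem N_comp_neg (v : E) (f : E → k) : N v (fun u => f (-u)) = fun u => N (-v) f (-u) := by
  ext u
  simp only [N_apply]
  rw [neg_add]

theorem N_pow_comp_neg (v : E) (f : E → k) (n : ℕ) :
    (N v ^ n) (fun u => f (-u)) = fun u => (N (-v) ^ n) f (-u) := by
  induction n with
  | zero => rfl
  | succ n ih =>
    rw [pow_succ', Module.End.mul_apply, ih, N_comp_neg, pow_succ', Module.End.mul_apply]

/-- the symmetric product: the top difference of `f` satisfies the same equation -/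
theorem top_disjoint {p : ℕ} [hp : Fact p.Prime] [CharP k p] (v : E) (f : E → k)
    (hf : ∀ u, f u * f (-u) = 0) (J : ℕ) (hJ : 2 * J < p) (hJ1 : (N v ^ (J + 1)) f = 0) (u : E) :
    (N v ^ J) f u * (N v ^ J) f (-u) = 0 := by
  have h0 : f * (fun u => f (-u)) = 0 := by
    ext u; exact hf u
  have hinv : T (-v) ((N v ^ J) f) = (N v ^ J) f := by
    have h1 : N (-v) ((N v ^ J) f) = 0 := by
      rw [N_neg, LinearMap.neg_apply, Module.End.mul_apply, ← Module.End.mul_apply (N v),
        ← pow_succ', hJ1, map_zero, neg_zero]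
    rw [T_eq, LinearMap.add_apply, h1, zero_add, Module.End.one_apply]
  have hneg : ∀ n : ℕ, (N (-v) ^ n : Module.End k (E → k)) =
      ((-1 : k) ^ n) • (T (-v) ^ n * N v ^ n) := by
    intro n
    induction n with
    | zero => rw [pow_zero, pow_zero, pow_zero, pow_zero, one_smul, one_mul]
    | succ n ih =>
      have e1 : ∀ F G : Module.End k (E → k), F * -G = -(F * G) := by
        intro F G
        ext g w
        rw [Module.End.mul_apply, LinearMap.neg_apply, map_neg, LinearMap.neg_apply,
          Module.End.mul_apply]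
      have e2 : (T (-v) ^ n * N v ^ n * (T (-v) * N v) : Module.End k (E → k)) =
          T (-v) ^ n * T (-v) * (N v ^ n * N v) := by
        rw [mul_assoc, mul_assoc, ← mul_assoc (N v ^ n), ← mul_assoc (T (-v)) (N v ^ n)]
        rw [((N_T_comm v (-v)).pow_left n).eq]
      rw [pow_succ, ih, N_neg, pow_succ, pow_succ (T (-v)), pow_succ (N v), e1, ← e2,
        smul_mul_assoc]
      ext g w
      simp only [LinearMap.neg_apply, LinearMap.smul_apply, Pi.neg_apply, Pi.smul_apply,
        smul_eq_mul]
      ring
  have hG : (N v ^ (J + 1)) (fun u => f (-u)) = 0 := by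
    rw [N_pow_comp_neg, hneg]
    ext u
    rw [LinearMap.smul_apply, Module.End.mul_apply, hJ1, map_zero, smul_zero]
    rfl
  have hGJ : (N v ^ J) (fun u => f (-u)) = fun u => (-1) ^ J * (N v ^ J) f (-u) := by
    rw [N_pow_comp_neg, hneg]
    ext u
    rw [LinearMap.smul_apply, Module.End.mul_apply]
    have h2 : ∀ i : ℕ, (T (-v) ^ i) ((N v ^ J) f) = (N v ^ J) f := by
      intro i
      induction i with
      | zero => rw [pow_zero, Module.End.one_apply]
      | succ i ih => rw [pow_succ, Module.End.mul_apply, hinv, ih]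
    rw [h2]
    rfl
  have h3 := N_top v f (fun u => f (-u)) J J hJ1 hG
  rw [h0, map_zero, hGJ] at h3
  have h4 := congrFun h3 u
  simp only [Pi.zero_apply, Pi.smul_apply, Pi.mul_apply, smul_eq_mul] at h4
  have h5 : (((J + J).choose J : ℕ) : k) ≠ 0 := by
    rw [Ne, CharP.cast_eq_zero_iff k p]
    intro hdvd
    have h6 : p ∣ (J + J).factorial := by
      have h7 := Nat.add_choose_mul_factorial_mul_factorial J J
      rw [← h7]
      exact Dvd.dvd.mul_right (Dvd.dvd.mul_right hdvd _) _
    rw [hp.out.dvd_factorial] at h6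
    omega
  rcases mul_eq_zero.1 h4.symm with h6 | h6
  · exact absurd h6 h5
  · have h7 : (-1 : k) ^ J ≠ 0 := pow_ne_zero _ (neg_ne_zero.2 one_ne_zero)
    have h8 : (-1 : k) ^ J * ((N v ^ J) f u * (N v ^ J) f (-u)) = 0 := by
      rw [← h6]; ring
    rcases mul_eq_zero.1 h8 with h9 | h9
    · exact absurd h9 h7
    · exact h9

/-- the largest nonvanishing difference -/
theorem exists_top {p : ℕ} [hp : Fact p.Prime] [CharP k p] (v : E) (hv : p • v = 0) {f : E → k}
    (hf : f ≠ 0) : ∃ J, (N v ^ J) f ≠ 0 ∧ (N v ^ (J + 1)) f = 0 := by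
  by_contra hcon
  push Not at hcon
  have h1 : ∀ J, (N v ^ J) f ≠ 0 := by
    intro J
    induction J with
    | zero => rwa [pow_zero, Module.End.one_apply]
    | succ J ih => exact hcon J ih
  apply h1 p
  rw [N_pow_p v hv]
  rfl

end Gen

section Line

variable {k : Type*} [Field k] {p : ℕ} [hp : Fact p.Prime] [CharP k p]

theorem line_lemma (g : ZMod p → k) (hg : g ≠ 0) (hgg : ∀ t, g t * g (-t) = 0) (m : ℕ)
    (hm : 2 * m < p + 2) : (N (1 : ZMod p) ^ m) g ≠ 0 := by
  intro h0
  obtain ⟨J, hJ, hJ1⟩ := exists_top (1 : ZMod p) (by simp) hg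
  have hJm : J < m := by
    by_contra hcon
    rw [not_lt] at hcon
    apply hJ
    rw [show J = (J - m) + m by omega, pow_add, Module.End.mul_apply, h0, map_zero]
  have h1 := top_disjoint (1 : ZMod p) g hgg J (by omega) hJ1 0
  rw [neg_zero, mul_self_eq_zero] at h1
  -- the top difference is constant
  apply hJ
  have h2 : ∀ t, (N (1 : ZMod p) ^ J) g (t + 1) = (N (1 : ZMod p) ^ J) g t := by
    intro t
    have h3 := congrFun hJ1 t
    rw [pow_succ', Module.End.mul_apply, N_apply] at h3
    exact sub_eq_zero.1 h3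
  have h3 : ∀ n : ℕ, (N (1 : ZMod p) ^ J) g (n : ZMod p) = 0 := by
    intro n
    induction n with
    | zero => rw [Nat.cast_zero]; exact h1
    | succ n ih => rw [Nat.cast_succ, h2, ih]
  ext t
  rw [← ZMod.natCast_zmod_val t]
  exact h3 _

variable {E : Type*} [AddCommGroup E] [Module (ZMod p) E]

omit [CharP k p] in
theorem N_line (f : E → k) (v : E) (n : ℕ) (t : ZMod p) :
    (N (1 : ZMod p) ^ n) (fun t : ZMod p => f (t • v)) t = (N v ^ n) f (t • v) := by
  induction n generalizing t with
  | zero => rfl
  | succ n ih =>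
    rw [pow_succ', Module.End.mul_apply, N_apply, ih, ih, pow_succ', Module.End.mul_apply,
      N_apply, add_smul, one_smul]

/-- a function with disjoint support from its reflection has a large degree -/
theorem large_degree (f : E → k) (hff : ∀ u, f u * f (-u) = 0) (v : E) (hv : f v ≠ 0) (m : ℕ)
    (hm : 2 * m < p + 2) : (N v ^ m) f ≠ 0 := by
  intro h0
  apply line_lemma (fun t : ZMod p => f (t • v)) _ _ m hm
  · ext t
    rw [N_line, h0]
    rfl
  · intro h1
    apply hv
    have := congrFun h1 1
    simpa using this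
  · intro t
    rw [neg_smul]
    exact hff _

end Line

end Pool.Agent.Y387.SF
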