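import Mathlib
import Pool.Agent.Y387.SF.Count

/-!
# The equations of a Weyl-Heisenberg covariant maximal equiangular tight frame
-/

set_option autoImplicit false

open Finset Polynomial

namespace Pool.Agent.Y387.SF

open IsLocalRing

variable {K : Type*} [Field K] {p : ℕ} [hp : Fact p.Prime]

/-- `∑ x_j y_{j+a} χ(b j)` -/
def cc (χ : AddChar (ZMod p) K) (x y : ZMod p → K) (a b : ZMod p) : K :=
  ∑ j, x j * y (j + a) * χ (b * j)

/-- `∑ x_{j+a} y_j χ(-b j)` -/
def cd (χ : AddChar (ZMod p) K) (x y : ZMod p → K) (a b : ZMod p) : K :=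
  ∑ j, x (j + a) * y j * χ (-(b * j))

/-- the equations -/
structure IsSol (χ : AddChar (ZMod p) K) (x y : ZMod p → K) : Prop where
  one : ∑ j, x j * y j = 1
  mul : ∀ a b, (a ≠ 0 ∨ b ≠ 0) → cc χ x y a b * cd χ x y a b = ((p : K) + 1)⁻¹

theorem cc_eq_ft (χ : AddChar (ZMod p) K) (x y : ZMod p → K) (a b : ZMod p) :
    cc χ x y a b = ft χ (fun j => x j * y (j + a)) b := rfl

theorem cd_eq_ft (χ : AddChar (ZMod p) K) (x y : ZMod p → K) (a b : ZMod p) :
    cd χ x y a b = ft χ (fun j => x (j + a) * y j) (-b) := by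
  unfold cd ft
  refine Finset.sum_congr rfl fun j _ => ?_
  rw [neg_mul]

/-- `c(-a,-b)` and `cd(a,b)` differ by a root of unity -/
theorem cd_eq_cc (χ : AddChar (ZMod p) K) (x y : ZMod p → K) (a b : ZMod p) :
    cd χ x y a b = χ (a * b) * cc χ x y (-a) (-b) := by
  unfold cd cc
  rw [Finset.mul_sum]
  refine Fintype.sum_equiv (Equiv.addRight a) _ _ fun j => ?_
  rw [Equiv.coe_addRight, add_neg_cancel_right]
  have : χ (-(b * j)) = χ (a * b) * χ (-b * (j + a)) := by
    rw [← AddChar.map_add_eq_mul]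
    congr 1
    ring
  rw [this]
  ring

theorem corr_ft {χ : AddChar (ZMod p) K} (hχ : χ ≠ 1) (f g : ZMod p → K) (k : ZMod p) :
    ∑ b, ft χ f b * ft χ g (-b) * χ (b * k) = p * ∑ j, f j * g (j + k) := by
  have h1 : ∀ b, ft χ f b * ft χ g (-b) * χ (b * k) =
      ∑ j, ft χ f b * (g j * χ (-(b * (j - k)))) := by
    intro b
    rw [← Finset.mul_sum, mul_assoc]
    congr 1
    unfold ft
    rw [Finset.sum_mul]
    refine Finset.sum_congr rfl fun j _ => ?_
    rw [mul_assoc, ← AddChar.map_add_eq_mul]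
    congr 2
    ring
  simp_rw [h1]
  rw [Finset.sum_comm]
  have h2 : ∀ j, ∑ b, ft χ f b * (g j * χ (-(b * (j - k)))) = p * (f (j - k) * g j) := by
    intro j
    have := ft_inv hχ f (j - k)
    rw [← mul_assoc, ← this, Finset.sum_mul]
    refine Finset.sum_congr rfl fun b _ => ?_
    ring
  simp_rw [h2]
  rw [← Finset.mul_sum]
  congr 1
  refine (Fintype.sum_equiv (Equiv.addRight k) _ _ fun j => ?_).symm
  rw [Equiv.coe_addRight, add_sub_cancel_right]

variable {χ : AddChar (ZMod p) K} {x y : ZMod p → K}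

theorem cast_p_ne [CharZero K] : (p : K) ≠ 0 := by exact_mod_cast hp.out.ne_zero

omit hp in
theorem cast_p1_ne [CharZero K] : (p : K) + 1 ≠ 0 := by exact_mod_cast p.succ_ne_zero

/-- the quartic equations, `a ≠ 0` -/
theorem IsSol.corr [CharZero K] (hχ : χ ≠ 1) (h : IsSol χ x y) {a : ZMod p} (ha : a ≠ 0)
    (k : ZMod p) :
    ∑ j, x j * y (j + a) * (x (j + k + a) * y (j + k)) = if k = 0 then ((p : K) + 1)⁻¹ else 0 := by
  have h1 := corr_ft hχ (fun j => x j * y (j + a)) (fun j => x (j + a) * y j) k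
  have h2 : ∑ b, ft χ (fun j => x j * y (j + a)) b * ft χ (fun j => x (j + a) * y j) (-b) *
      χ (b * k) = ((p : K) + 1)⁻¹ * ∑ b, χ (b * k) := by
    rw [Finset.mul_sum]
    refine Finset.sum_congr rfl fun b _ => ?_
    rw [← cc_eq_ft, ← cd_eq_ft, h.mul a b (Or.inl ha)]
  rw [h2, char_mul_sum hχ] at h1
  have h3 : (p : K) ≠ 0 := cast_p_ne
  split_ifs with hk
  · rw [if_pos hk] at h1
    apply mul_left_cancel₀ h3
    rw [← h1]
    ring
  · rw [if_neg hk, mul_zero] at h1
    rcases mul_eq_zero.1 h1.symm with h4 | h4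
    · exact absurd h4 h3
    · exact h4

/-- the quartic equations, `a = 0` -/
theorem IsSol.corr_zero [CharZero K] (hχ : χ ≠ 1) (h : IsSol χ x y) (k : ZMod p) :
    ∑ j, x j * y j * (x (j + k) * y (j + k)) =
      (if k = 0 then 2 else 1) * ((p : K) + 1)⁻¹ := by
  have h1 := corr_ft hχ (fun j => x j * y j) (fun j => x j * y j) k
  have hp0 : (p : K) ≠ 0 := cast_p_ne
  have hp1 : (p : K) + 1 ≠ 0 := cast_p1_ne
  have h2 : ∀ b, ft χ (fun j => x j * y j) b * ft χ (fun j => x j * y j) (-b) * χ (b * k) =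
      ((p : K) + 1)⁻¹ * χ (b * k) + if b = 0 then 1 - ((p : K) + 1)⁻¹ else 0 := by
    intro b
    split_ifs with hb
    · have h3 : ft χ (fun j => x j * y j) 0 = 1 := by
        unfold ft
        simp only [zero_mul, AddChar.map_zero_eq_one, mul_one]
        exact h.one
      rw [hb, neg_zero, h3, zero_mul, AddChar.map_zero_eq_one]
      ring
    · have h3 := h.mul 0 b (Or.inr hb)
      rw [cc_eq_ft, cd_eq_ft] at h3
      simp only [add_zero] at h3
      rw [h3, add_zero]
  simp_rw [h2] at h1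
  rw [Finset.sum_add_distrib, ← Finset.mul_sum, char_mul_sum hχ, Finset.sum_ite_eq'] at h1
  rw [if_pos (Finset.mem_univ _)] at h1
  apply mul_left_cancel₀ hp0
  rw [← h1]
  split_ifs <;> field_simp <;> ring

end Pool.Agent.Y387.SF
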