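import Pool.Agent.Y387.SF.Svn
import Pool.Agent.Y387.SF.Sol

/-!
# Every maximal equiangular tight frame with transitive symmetries in prime dimension is
a Weyl-Heisenberg orbit
-/

set_option autoImplicit false

open Finset

namespace Pool.Agent.Y387.SF

section Coord

variable {p : ℕ} [hp : Fact p.Prime]

/-- displaced vectors -/
noncomputable def Dv (χ : AddChar (ZMod p) ℂ) (ψ : ZMod p → ℂ) (a b : ZMod p) :
    EuclideanSpace ℂ (ZMod p) := WithLp.toLp 2 (fun j => χ (b * j) * ψ (j - a))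

theorem Dv_apply (χ : AddChar (ZMod p) ℂ) (ψ : ZMod p → ℂ) (a b j : ZMod p) :
    Dv χ ψ a b j = χ (b * j) * ψ (j - a) := rfl

/-- complex conjugate -/
noncomputable abbrev cj (ψ : ZMod p → ℂ) : ZMod p → ℂ := fun j => (starRingEnd ℂ) (ψ j)

theorem inner_Dv (χ : AddChar (ZMod p) ℂ) (ψ : ZMod p → ℂ) (s r : ZMod p × ZMod p) :
    inner ℂ (Dv χ ψ s.1 s.2) (Dv χ ψ r.1 r.2) =
      χ ((r.2 - s.2) * r.1) * cc χ ψ (cj ψ) (r.1 - s.1) (r.2 - s.2) := by
  rw [PiLp.inner_apply]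
  unfold cc
  rw [Finset.mul_sum]
  symm
  refine Fintype.sum_equiv (Equiv.addRight r.1) _ _ fun j => ?_
  simp only [Equiv.coe_addRight, Dv_apply, RCLike.inner_apply]
  rw [RingHom.map_mul (starRingEnd ℂ), add_sub_cancel_right, ← AddChar.map_neg_eq_conj]
  have h1 : j + (r.1 - s.1) = j + r.1 - s.1 := by ring
  have h2 : χ ((r.2 - s.2) * r.1) * χ ((r.2 - s.2) * j) =
      χ (r.2 * (j + r.1)) * χ (-(s.2 * (j + r.1))) := by
    rw [← AddChar.map_add_eq_mul, ← AddChar.map_add_eq_mul]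
    congr 1
    ring
  rw [h1]
  calc _ = ψ j * (starRingEnd ℂ) (ψ (j + r.1 - s.1)) *
        (χ ((r.2 - s.2) * r.1) * χ ((r.2 - s.2) * j)) := by ring
    _ = _ := by rw [h2]; ring

theorem cd_conj (χ : AddChar (ZMod p) ℂ) (ψ : ZMod p → ℂ) (a b : ZMod p) :
    cd χ ψ (cj ψ) a b = (starRingEnd ℂ) (cc χ ψ (cj ψ) a b) := by
  unfold cc cd
  rw [map_sum]
  refine Finset.sum_congr rfl fun j _ => ?_
  rw [map_mul, map_mul, Complex.conj_conj, AddChar.map_neg_eq_conj]
  ring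

theorem cc_mul_cd (χ : AddChar (ZMod p) ℂ) (ψ : ZMod p → ℂ) (a b : ZMod p) :
    cc χ ψ (cj ψ) a b * cd χ ψ (cj ψ) a b = ((‖cc χ ψ (cj ψ) a b‖ ^ 2 : ℝ) : ℂ) := by
  rw [cd_conj, Complex.mul_conj, Complex.normSq_eq_norm_sq]

theorem parseval {χ : AddChar (ZMod p) ℂ} (hχ : χ ≠ 1) (x y : ZMod p → ℂ) :
    ∑ a, ∑ b, cc χ x y a b * cd χ x y a b = p * (∑ j, x j * y j) ^ 2 := by
  have h1 : ∀ a, ∑ b, cc χ x y a b * cd χ x y a b =
      p * ∑ j, x j * y (j + a) * (x (j + a) * y j) := by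
    intro a
    have h2 := corr_ft hχ (fun j => x j * y (j + a)) (fun j => x (j + a) * y j) 0
    simp only [add_zero] at h2
    rw [← h2]
    refine Finset.sum_congr rfl fun b _ => ?_
    rw [mul_zero, AddChar.map_zero_eq_one, mul_one, cc_eq_ft, cd_eq_ft]
  simp_rw [h1]
  rw [← Finset.mul_sum, Finset.sum_comm, sq, Finset.sum_mul]
  congr 1
  refine Finset.sum_congr rfl fun j _ => ?_
  rw [Finset.mul_sum]
  refine Fintype.sum_equiv (Equiv.addLeft j) _ _ fun a => ?_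
  rw [Equiv.coe_addLeft]
  ring

/-- lower bounds on all the overlaps imply equality -/
theorem isSol_of_bound {χ : AddChar (ZMod p) ℂ} (hχ : χ ≠ 1) (ψ : ZMod p → ℂ)
    (h1 : ∑ j, ψ j * (cj ψ) j = 1)
    (h2 : ∀ a b, (a ≠ 0 ∨ b ≠ 0) → ((p : ℝ) + 1)⁻¹ ≤ ‖cc χ ψ (cj ψ) a b‖ ^ 2) :
    IsSol χ ψ (cj ψ) := by
  have hp0 : (0 : ℝ) < (p : ℝ) + 1 := by positivity
  set g : ZMod p × ZMod p → ℝ := fun r => ‖cc χ ψ (cj ψ) r.1 r.2‖ ^ 2 - ((p : ℝ) + 1)⁻¹ with hg
  have h00 : cc χ ψ (cj ψ) 0 0 = 1 := by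
    unfold cc
    simpa using h1
  have hg0 : g 0 = p / (p + 1) := by
    simp only [hg, Prod.fst_zero, Prod.snd_zero, h00, norm_one]
    field_simp
    ring
  have hsum : ∑ r, g r = p / (p + 1) := by
    simp only [hg]
    rw [Finset.sum_sub_distrib, Finset.sum_const, Finset.card_univ, Fintype.card_prod, ZMod.card,
      nsmul_eq_mul]
    have h3 : ∑ r : ZMod p × ZMod p, ‖cc χ ψ (cj ψ) r.1 r.2‖ ^ 2 = (p : ℝ) := by
      have h4 := parseval hχ ψ (cj ψ)
      simp_rw [cc_mul_cd] at h4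
      rw [h1, ← Fintype.sum_prod_type'] at h4
      have h5 : ((∑ r : ZMod p × ZMod p, ‖cc χ ψ (cj ψ) r.1 r.2‖ ^ 2 : ℝ) : ℂ) = (p : ℂ) := by
        push_cast at h4 ⊢
        rw [h4]
        ring
      exact_mod_cast h5
    rw [h3]
    push_cast
    field_simp
    ring
  have hnn : ∀ r ∈ univ.erase (0 : ZMod p × ZMod p), 0 ≤ g r := by
    intro r hr
    rw [Finset.mem_erase] at hr
    have h3 : r.1 ≠ 0 ∨ r.2 ≠ 0 := by
      by_contra hcon
      push Not at hcon
      exact hr.1 (Prod.ext hcon.1 hcon.2)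
    simp only [hg]
    exact sub_nonneg.2 (h2 r.1 r.2 h3)
  have hz : ∑ r ∈ univ.erase (0 : ZMod p × ZMod p), g r = 0 := by
    have h3 := Finset.add_sum_erase univ g (Finset.mem_univ (0 : ZMod p × ZMod p))
    rw [hsum, hg0] at h3
    linarith
  rw [Finset.sum_eq_zero_iff_of_nonneg hnn] at hz
  refine ⟨h1, fun a b hab => ?_⟩
  have h3 := hz (a, b) (by
    rw [Finset.mem_erase]
    refine ⟨?_, Finset.mem_univ _⟩
    intro h0
    rcases hab with h | h
    · exact h (congrArg Prod.fst h0)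
    · exact h (congrArg Prod.snd h0))
  simp only [hg] at h3
  rw [cc_mul_cd, sub_eq_zero.1 h3]
  push_cast
  rfl

end Coord

section Frame

variable {V : Type*} [NormedAddCommGroup V] [InnerProductSpace ℂ V] [FiniteDimensional ℂ V]
  {ι : Type*} [Fintype ι] {x : ι → V} {p : ℕ} [hp : Fact p.Prime]

omit [FiniteDimensional ℂ V] [Fintype ι] in
theorem Ind.pow {U : V ≃ₗᵢ[ℂ] V} {π : Equiv.Perm ι} (h : Ind x U π) (n : ℕ) :
    Ind x (U ^ n) (π ^ n) := by
  induction n with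
  | zero => exact Ind.one
  | succ n ih => rw [pow_succ, pow_succ]; exact ih.mul h

theorem exists_fid (h : IsEtf p x) (hcard : Fintype.card ι = p ^ 2)
    (hV : Module.finrank ℂ V = p)
    (htr : ∀ i j, ∃ (U : V ≃ₗᵢ[ℂ] V) (π : Equiv.Perm ι), Ind x U π ∧ π i = j) :
    ∃ (χ : AddChar (ZMod p) ℂ) (ψ : ZMod p → ℂ) (T : V ≃ₗᵢ[ℂ] EuclideanSpace ℂ (ZMod p))
      (σ : ι → ZMod p × ZMod p), χ ≠ 1 ∧ IsSol χ ψ (cj ψ) ∧
      ∀ k, ∃ c : ℂ, ‖c‖ = 1 ∧ T (x k) = c • Dv χ ψ (σ k).1 (σ k).2 := by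
  classical
  obtain ⟨A, B, α, β, ζ, hA, hB, hζ, hζp, hAB⟩ := exists_pair h hcard hV htr
  obtain ⟨e, l, m, hl, hm, hAe, hBe⟩ := svn hV A B hζ hζp hAB
  have hp0 : NeZero p := ⟨hp.out.ne_zero⟩
  set χ : AddChar (ZMod p) ℂ := AddChar.zmodChar p hζp with hχdef
  have hχv : ∀ j, χ j = ζ ^ j.val := fun j => AddChar.zmodChar_apply hζp j
  have hχ : χ ≠ 1 := by
    intro h0
    apply hζ
    have h1 := congrArg (fun f : AddChar (ZMod p) ℂ => f 1) h0
    simp only [AddChar.one_apply] at h1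
    rw [hχv, ZMod.val_one, pow_one] at h1
    exact h1
  have hcm : ∀ z : ℂ, ‖z‖ = 1 → z * (starRingEnd ℂ) z = 1 := by
    intro z hz
    rw [Complex.mul_conj, Complex.normSq_eq_norm_sq, hz]
    simp
  have hχn : ∀ j, ‖χ j‖ = 1 := fun j => χ.norm_apply j
  have hTA : ∀ v j, e.repr (A v) j = l * χ j * e.repr v j := by
    intro v j
    rw [e.repr_apply_apply, e.repr_apply_apply, ← A.inner_map_map (e j) v, hAe, inner_smul_left,
      ← hχv, ← mul_assoc, hcm _ (by rw [norm_mul, hl, hχn, one_mul]), one_mul]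
  have hTB : ∀ v j, e.repr (B v) j = m * e.repr v (j - 1) := by
    intro v j
    rw [e.repr_apply_apply, e.repr_apply_apply, ← B.inner_map_map (e (j - 1)) v, hBe,
      inner_smul_left, sub_add_cancel, ← mul_assoc, hcm _ hm, one_mul]
  have hTAn : ∀ (n : ℕ) v j, e.repr ((A ^ n) v) j = l ^ n * χ (n * j) * e.repr v j := by
    intro n
    induction n with
    | zero => intro v j; simp
    | succ n ih =>
      intro v j
      have h1 : (A ^ (n + 1)) v = (A ^ n) (A v) := by rw [pow_succ]; rfl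
      have h2 : χ ((n + 1 : ℕ) * j) = χ (n * j) * χ j := by
        rw [← AddChar.map_add_eq_mul]
        congr 1
        push_cast
        ring
      rw [h1, ih, hTA, h2]
      ring
  have hTBn : ∀ (n : ℕ) v j, e.repr ((B ^ n) v) j = m ^ n * e.repr v (j - n) := by
    intro n
    induction n with
    | zero => intro v j; simp
    | succ n ih =>
      intro v j
      have h1 : (B ^ (n + 1)) v = (B ^ n) (B v) := by rw [pow_succ]; rfl
      have h2 : j - ((n + 1 : ℕ) : ZMod p) = j - n - 1 := by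
        push_cast
        ring
      rw [h1, ih, hTB, h2]
      ring
  have hne : Nonempty ι := by
    rw [← Fintype.card_pos_iff, hcard]
    have := hp.out.pos
    positivity
  obtain ⟨i₀⟩ := hne
  set ψ : ZMod p → ℂ := fun j => e.repr (x i₀) j with hψ
  set π : ZMod p × ZMod p → Equiv.Perm ι := fun r => α ^ r.2.val * β ^ r.1.val with hπ
  -- images of the first vector
  have himg : ∀ r : ZMod p × ZMod p, ∃ c : ℂ, ‖c‖ = 1 ∧
      e.repr (x (π r i₀)) = c • Dv χ ψ r.1 r.2 := by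
    intro r
    have h1 := (hA.pow r.2.val).mul (hB.pow r.1.val)
    obtain ⟨c, hc⟩ := h1 i₀
    have hc1 := ind_norm h hc
    have hc0 : c ≠ 0 := by
      rintro rfl
      simp at hc1
    refine ⟨c⁻¹ * (l ^ r.2.val * m ^ r.1.val), ?_, ?_⟩
    · rw [norm_mul, norm_mul, norm_inv, norm_pow, norm_pow, hc1, hl, hm]
      simp
    · have h2 : x (π r i₀) = c⁻¹ • (A ^ r.2.val * B ^ r.1.val) (x i₀) := by
        rw [hc, smul_smul, inv_mul_cancel₀ hc0, one_smul]
      rw [h2, map_smul]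
      ext j
      have h3 : (A ^ r.2.val * B ^ r.1.val) (x i₀) = (A ^ r.2.val) ((B ^ r.1.val) (x i₀)) := rfl
      rw [h3, PiLp.smul_apply, PiLp.smul_apply, hTAn, hTBn, Dv_apply, ZMod.natCast_zmod_val,
        ZMod.natCast_zmod_val, smul_eq_mul, smul_eq_mul]
      ring
  -- inner products
  have hinn : ∀ r s : ZMod p × ZMod p, ‖inner ℂ (x (π s i₀)) (x (π r i₀))‖ =
      ‖cc χ ψ (cj ψ) (r.1 - s.1) (r.2 - s.2)‖ := by
    intro r s
    obtain ⟨c, hc, hc'⟩ := himg r
    obtain ⟨d, hd, hd'⟩ := himg s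
    rw [← e.repr.inner_map_map, hc', hd', inner_smul_left, inner_smul_right, inner_Dv, norm_mul,
      norm_mul, norm_mul, hχn, hc, RCLike.norm_conj, hd, one_mul, one_mul, one_mul]
  have hπ0 : π 0 i₀ = i₀ := by simp [hπ]
  have hone : ∑ j, ψ j * (cj ψ) j = 1 := by
    have h1 : inner ℂ (Dv χ ψ (0 : ZMod p × ZMod p).1 (0 : ZMod p × ZMod p).2)
        (Dv χ ψ (0 : ZMod p × ZMod p).1 (0 : ZMod p × ZMod p).2) = 1 := by
      obtain ⟨c, hc, hc'⟩ := himg 0
      have h2 := e.repr.inner_map_map (x (π 0 i₀)) (x (π 0 i₀))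
      rw [hc', inner_smul_left, inner_smul_right, h.inner_self, ← mul_assoc,
        mul_comm _ c, hcm c hc, one_mul] at h2
      exact h2
    rw [inner_Dv] at h1
    simp only [sub_self, zero_mul, AddChar.map_zero_eq_one, one_mul] at h1
    rw [← h1]
    unfold cc
    simp
  have hp1 : 1 ≤ p := hp.out.one_lt.le
  have hsol : IsSol χ ψ (cj ψ) := by
    apply isSol_of_bound hχ ψ hone
    intro a b _
    have h1 := hinn (a, b) 0
    simp only [Prod.fst_zero, Prod.snd_zero, sub_zero] at h1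
    rw [← h1]
    by_cases hk : π 0 i₀ = π (a, b) i₀
    · rw [← hk, h.inner_self, norm_one, one_pow]
      apply inv_le_one_of_one_le₀
      have : (0 : ℝ) ≤ p := by positivity
      linarith
    · rw [h.ang _ _ hk, div_pow, one_pow, Real.sq_sqrt (by positivity), one_div]
  -- the map is a bijection
  have hinj : Function.Injective fun r => π r i₀ := by
    intro r s hrs
    simp only at hrs
    by_contra hne
    have h1 := hinn r s
    rw [hrs, h.inner_self, norm_one] at h1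
    have h2 : r.1 - s.1 ≠ 0 ∨ r.2 - s.2 ≠ 0 := by
      by_contra hcon
      push Not at hcon
      exact hne (Prod.ext (sub_eq_zero.1 hcon.1) (sub_eq_zero.1 hcon.2))
    have h3 := hsol.mul _ _ h2
    rw [cc_mul_cd, ← h1] at h3
    have h4 : (1 : ℂ) = ((p : ℂ) + 1)⁻¹ := by simpa using h3
    have h5 : ((p : ℂ) + 1) = 1 := by
      rw [← inv_inj, ← h4, inv_one]
    have h6 : (p : ℂ) = 0 := by linear_combination h5
    have h7 : p = 0 := by exact_mod_cast h6
    omega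
  have hbij : Function.Bijective fun r => π r i₀ := by
    rw [Fintype.bijective_iff_injective_and_card]
    refine ⟨hinj, ?_⟩
    rw [hcard, Fintype.card_prod, ZMod.card, sq]
  choose σ hσ using hbij.2
  refine ⟨χ, ψ, e.repr, σ, hχ, hsol, fun k => ?_⟩
  have h1 := himg (σ k)
  have h2 : π (σ k) i₀ = k := hσ k
  rwa [h2] at h1

end Frame

end Pool.Agent.Y387.SF
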