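import Mathlib
import Pool.Agent.Y387.SF.Sol

/-!
# Valuations of the entries of a solution: the dichotomy and the balanced diagonals
-/

set_option autoImplicit false

open Finset Polynomial

namespace Pool.Agent.Y387.SF

open IsLocalRing

variable {K : Type*} [Field K] {p : ℕ} [hp : Fact p.Prime]
variable {χ : AddChar (ZMod p) K} {x y : ZMod p → K}

omit hp in
theorem val_p1 (V : ValuationSubring K) [CharZero (ResidueField V)] :
    V.valuation ((p : K) + 1) = 1 := by
  have := val_nat V (n := p + 1) (Nat.succ_ne_zero p)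
  exact_mod_cast this

omit hp in
theorem val_p1_inv (V : ValuationSubring K) [CharZero (ResidueField V)] :
    V.valuation (((p : K) + 1)⁻¹) = 1 := by
  rw [map_inv₀, val_p1, inv_one]

theorem IsSol.val_mul (V : ValuationSubring K) [CharZero (ResidueField V)] (h : IsSol χ x y)
    {a b : ZMod p} (hab : a ≠ 0 ∨ b ≠ 0) :
    V.valuation (cc χ x y a b) * V.valuation (cd χ x y a b) = 1 := by
  rw [← map_mul, h.mul a b hab, val_p1_inv]

theorem cc_zero_zero (h : IsSol χ x y) : cc χ x y 0 0 = 1 := by
  unfold cc
  simp only [zero_mul, AddChar.map_zero_eq_one, mul_one, add_zero]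
  exact h.one

theorem cd_zero_zero (h : IsSol χ x y) : cd χ x y 0 0 = 1 := by
  unfold cd
  simp only [zero_mul, neg_zero, AddChar.map_zero_eq_one, mul_one, add_zero]
  exact h.one

theorem IsSol.val_mul' (V : ValuationSubring K) [CharZero (ResidueField V)] (h : IsSol χ x y)
    (a b : ZMod p) :
    V.valuation (cc χ x y a b) * V.valuation (cd χ x y a b) = 1 := by
  by_cases hab : a ≠ 0 ∨ b ≠ 0
  · exact h.val_mul V hab
  · push Not at hab
    rw [hab.1, hab.2, cc_zero_zero h, cd_zero_zero h, map_one, one_mul]

theorem cd_zero (b : ZMod p) : cd χ x y 0 b = cc χ x y 0 (-b) := by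
  unfold cd cc
  refine Finset.sum_congr rfl fun j _ => ?_
  rw [add_zero, neg_mul]

/-- The dichotomy: if the products of two entries at a fixed distance on the diagonal are integral,
all diagonal entries are integral. -/
theorem good_of (V : ValuationSubring K) [CharZero (ResidueField V)] (hχ : χ ≠ 1)
    (h : IsSol χ x y) (a : ZMod p)
    (ha : ∀ j, V.valuation (x j * y j) * V.valuation (x (j + a) * y (j + a)) ≤ 1) (j : ZMod p) :
    V.valuation (x j * y j) ≤ 1 := by
  classical
  by_contra hj
  rw [not_le] at hj
  have h1 := count_gt V hχ (f := fun j => x j * y j) (θ := 1) ⟨j, hj⟩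
  have h2 := count_ge V hχ (f := fun j => x j * y j) (θ := 1) one_pos ⟨j, hj.le⟩
  have hcc : ∀ b, ft χ (fun j => x j * y j) b = cc χ x y 0 b := by
    intro b
    rw [cc_eq_ft]
    simp
  have h3 : (univ.filter fun b => 1 < V.valuation (ft χ (fun j => x j * y j) b)).card =
      (univ.filter fun b => ¬ 1 ≤ V.valuation (ft χ (fun j => x j * y j) b)).card := by
    apply Finset.card_equiv (Equiv.neg (ZMod p))
    intro b
    simp only [Finset.mem_filter, Finset.mem_univ, true_and, Equiv.neg_apply, hcc, not_le]
    have h4 := h.val_mul' V 0 b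
    rw [cd_zero] at h4
    have h5 : V.valuation (cc χ x y 0 (-b)) = (V.valuation (cc χ x y 0 b))⁻¹ :=
      (eq_inv_of_mul_eq_one_right h4)
    have h6 : 0 < V.valuation (cc χ x y 0 b) := by
      rw [zero_lt_iff]
      intro h0
      rw [h0, zero_mul] at h4
      exact zero_ne_one h4
    rw [h5, inv_lt_one₀ h6]
  have h4 : (univ.filter fun b => 1 ≤ V.valuation (ft χ (fun j => x j * y j) b)).card +
      (univ.filter fun b => ¬ 1 ≤ V.valuation (ft χ (fun j => x j * y j) b)).card = p := by
    rw [Finset.card_filter_add_card_filter_not, Finset.card_univ, ZMod.card]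
  have h5 : (univ.filter fun j => 1 ≤ V.valuation (x j * y j)).card +
      (univ.filter fun j => ¬ 1 ≤ V.valuation (x j * y j)).card = p := by
    rw [Finset.card_filter_add_card_filter_not, Finset.card_univ, ZMod.card]
  have h6 : (univ.filter fun j => 1 < V.valuation (x j * y j)).card ≤
      (univ.filter fun j => ¬ 1 ≤ V.valuation (x j * y j)).card := by
    apply Finset.card_le_card_of_injOn (fun j => j + a)
    · intro i hi
      rw [Finset.mem_coe, Finset.mem_filter] at hi
      rw [Finset.mem_coe, Finset.mem_filter]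
      refine ⟨Finset.mem_univ _, ?_⟩
      rw [not_le]
      by_contra hcon
      rw [not_lt] at hcon
      have h7 := ha i
      have h8 : 1 < V.valuation (x i * y i) * V.valuation (x (i + a) * y (i + a)) :=
        one_lt_mul_of_lt_of_le hi.2 hcon
      exact absurd h7 (not_le.2 h8)
    · intro i _ j _ hij
      exact add_right_cancel hij
  omega

/-- In a good direction all diagonals are balanced. -/
theorem balanced (V : ValuationSubring K) [CharZero (ResidueField V)] (hχ : χ ≠ 1)
    (h : IsSol χ x y) (hg : ∀ j, V.valuation (x j * y j) ≤ 1) (a : ZMod p) (i j : ZMod p) :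
    V.valuation (x j * y (j + a)) * V.valuation (x (i + a) * y i) ≤ 1 := by
  classical
  by_contra hcon
  rw [not_le] at hcon
  set f : ZMod p → K := fun j => x j * y (j + a) with hf
  set g : ZMod p → K := fun j => x (j + a) * y j with hgdef
  obtain ⟨i₀, hi₀⟩ := Finite.exists_max fun i => V.valuation (g i)
  set m := V.valuation (g i₀) with hm
  have h0 : 1 < V.valuation (f j) * m :=
    hcon.trans_le (mul_le_mul_right (hi₀ i) _)
  have hm0 : 0 < m := by
    rw [zero_lt_iff]
    intro h1
    rw [h1, mul_zero] at h0
    exact absurd h0 (not_lt.2 zero_le_one)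
  have h1 : m⁻¹ < V.valuation (f j) := (inv_lt_iff_one_lt_mul₀ hm0).2 h0
  have h2 := count_gt V hχ (f := f) (θ := m⁻¹) ⟨j, h1⟩
  have h3 := count_ge V hχ (f := g) (θ := m) hm0 ⟨i₀, le_rfl⟩
  have h4 : (univ.filter fun b => m ≤ V.valuation (ft χ g b)).card =
      (univ.filter fun b => ¬ m⁻¹ < V.valuation (ft χ f b)).card := by
    apply Finset.card_equiv (Equiv.neg (ZMod p))
    intro b
    simp only [Finset.mem_filter, Finset.mem_univ, true_and, Equiv.neg_apply, not_lt]
    have h5 := h.val_mul' V a (-b)
    rw [cc_eq_ft, cd_eq_ft, neg_neg] at h5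
    have h6 : 0 < V.valuation (ft χ g b) := by
      rw [zero_lt_iff]
      intro h0
      rw [← hgdef, h0, mul_zero] at h5
      exact zero_ne_one h5
    have h7 : V.valuation (ft χ f (-b)) = (V.valuation (ft χ g b))⁻¹ :=
      eq_inv_of_mul_eq_one_left h5
    rw [h7, inv_le_inv₀ h6 hm0]
  have h5 : (univ.filter fun b => m⁻¹ < V.valuation (ft χ f b)).card +
      (univ.filter fun b => ¬ m⁻¹ < V.valuation (ft χ f b)).card = p := by
    rw [Finset.card_filter_add_card_filter_not, Finset.card_univ, ZMod.card]
  have h6 : p < (univ.filter fun j => m⁻¹ < V.valuation (f j)).card +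
      (univ.filter fun j => m ≤ V.valuation (g j)).card := by omega
  have h7 : ((univ.filter fun j => m⁻¹ < V.valuation (f j)) ∩
      (univ.filter fun j => m ≤ V.valuation (g j))).Nonempty := by
    rw [← Finset.card_pos]
    have h8 := Finset.card_union_add_card_inter (univ.filter fun j => m⁻¹ < V.valuation (f j))
      (univ.filter fun j => m ≤ V.valuation (g j))
    have h9 := Finset.card_le_univ ((univ.filter fun j => m⁻¹ < V.valuation (f j)) ∪
      (univ.filter fun j => m ≤ V.valuation (g j)))
    rw [ZMod.card] at h9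
    omega
  obtain ⟨l, hl⟩ := h7
  rw [Finset.mem_inter, Finset.mem_filter, Finset.mem_filter] at hl
  have h8 : 1 < V.valuation (f l) * V.valuation (g l) := by
    have h9 : m⁻¹ * m < V.valuation (f l) * V.valuation (g l) :=
      mul_lt_mul_of_lt_of_le_of_nonneg_of_pos hl.1.2 hl.2.2 zero_le (hm0.trans_le hl.2.2)
    rwa [inv_mul_cancel₀ hm0.ne'] at h9
  have h9 : V.valuation (f l) * V.valuation (g l) =
      V.valuation (x l * y l) * V.valuation (x (l + a) * y (l + a)) := by
    rw [hf, hgdef]
    simp only [← map_mul]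
    congr 1
    ring
  rw [h9] at h8
  exact absurd (mul_le_one' (hg l) (hg (l + a))) (not_le.2 h8)

end Pool.Agent.Y387.SF
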