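import Mathlib
import Pool.Agent.Y387.SF.Good

/-!
# The levels of a solution in a good direction
-/

set_option autoImplicit false

open Finset Polynomial

namespace Pool.Agent.Y387.SF

open IsLocalRing

variable {p : ℕ} [hp : Fact p.Prime]

theorem ft_injective_zero {k : Type*} [Field k] [CharZero k] {χ : AddChar (ZMod p) k} (hχ : χ ≠ 1)
    (f : ZMod p → k) (h : ∀ b, ft χ f b = 0) : f = 0 := by
  funext i
  have h1 := ft_inv hχ f i
  simp_rw [h, zero_mul, Finset.sum_const_zero] at h1
  rcases mul_eq_zero.1 h1.symm with h2 | h2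
  · exact absurd h2 cast_p_ne
  · exact h2

/-- there are no isolated extremal parts in two functions whose correlation is concentrated
at `0` -/
theorem no_ext {k : Type*} [Field k] [CharZero k] {χ : AddChar (ZMod p) k} (hχ : χ ≠ 1)
    (F G : ZMod p → k) (hcorr : ∀ c, c ≠ 0 → ∑ j, F j * G (j + c) = 0) (E E' : ZMod p → Prop)
    (hE : ∃ j, E j ∧ F j ≠ 0) (hE' : ∃ j, E' j ∧ G j ≠ 0)
    (hdisj : ∀ j, F j ≠ 0 → G j ≠ 0 → E j → E' j → False)
    (hiso : ∀ j j' i i', F j ≠ 0 → G j' ≠ 0 → E j → E' j' → F i ≠ 0 → G i' ≠ 0 →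
      i' - i = j' - j → E i ∧ E' i') : False := by
  classical
  set F1 : ZMod p → k := fun j => if E j then F j else 0 with hF1
  set G1 : ZMod p → k := fun j => if E' j then G j else 0 with hG1
  have hF1ne : ∀ j, F1 j ≠ 0 ↔ E j ∧ F j ≠ 0 := by
    intro j; rw [hF1]; simp only; split_ifs with h <;> simp [h]
  have hG1ne : ∀ j, G1 j ≠ 0 ↔ E' j ∧ G j ≠ 0 := by
    intro j; rw [hG1]; simp only; split_ifs with h <;> simp [h]
  -- the correlation vanishes
  have h0 : ∀ c, ∑ j, F1 j * G1 (j + c) = 0 := by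
    intro c
    by_cases hc : ∃ j, F1 j ≠ 0 ∧ G1 (j + c) ≠ 0
    · obtain ⟨j, hj1, hj2⟩ := hc
      rw [hF1ne] at hj1
      rw [hG1ne] at hj2
      have hc0 : c ≠ 0 := by
        rintro rfl
        rw [add_zero] at hj2
        exact hdisj j hj1.2 hj2.2 hj1.1 hj2.1
      rw [← hcorr c hc0]
      refine Finset.sum_congr rfl fun i _ => ?_
      by_cases hi : F i ≠ 0 ∧ G (i + c) ≠ 0
      · obtain ⟨h1, h2⟩ := hiso j (j + c) i (i + c) hj1.2 hj2.2 hj1.1 hj2.1 hi.1 hi.2 (by ring)
        rw [hF1, hG1]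
        simp only
        rw [if_pos h1, if_pos h2]
      · rw [hF1, hG1]
        simp only
        rw [not_and_or, not_not, not_not] at hi
        rcases hi with hi | hi
        · simp [hi]
        · simp [hi]
    · push Not at hc
      refine Finset.sum_eq_zero fun j _ => ?_
      by_cases h : F1 j = 0
      · rw [h, zero_mul]
      · rw [hc j h, mul_zero]
  have h1 : ∀ b, ft χ F1 b * ft χ G1 (-b) = 0 := by
    have h2 : (fun b => ft χ F1 b * ft χ G1 (-b)) = 0 := by
      apply ft_injective_zero hχ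
      intro c
      have h3 := corr_ft hχ F1 G1 c
      rw [h0, mul_zero] at h3
      rw [← h3]
      unfold ft
      refine Finset.sum_congr rfl fun b _ => ?_
      rw [mul_comm c b]
    intro b
    exact congrFun h2 b
  obtain ⟨j0, hj0⟩ := hE
  obtain ⟨j1, hj1⟩ := hE'
  have hF0 : F1 ≠ 0 := fun h => ((hF1ne j0).2 hj0) (congrFun h j0)
  have hG0 : G1 ≠ 0 := fun h => ((hG1ne j1).2 hj1) (congrFun h j1)
  have u1 := unc hχ hF0
  have u2 := unc hχ hG0
  have h2 : (univ.filter fun j => F1 j ≠ 0).card + (univ.filter fun j => G1 j ≠ 0).card ≤ p := by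
    rw [← Finset.card_union_of_disjoint]
    · have := Finset.card_le_univ ((univ.filter fun j => F1 j ≠ 0) ∪
        (univ.filter fun j => G1 j ≠ 0))
      rwa [ZMod.card] at this
    · rw [Finset.disjoint_left]
      intro j h3 h4
      rw [Finset.mem_filter, hF1ne] at h3
      rw [Finset.mem_filter, hG1ne] at h4
      exact hdisj j h3.2.2 h4.2.2 h3.2.1 h4.2.1
  have h3 : (univ.filter fun b => ft χ G1 b ≠ 0).card ≤
      (univ.filter fun b => ¬ ft χ F1 b ≠ 0).card := by
    apply Finset.card_le_card_of_injOn (fun b => -b)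
    · intro b hb
      rw [Finset.mem_coe, Finset.mem_filter] at hb ⊢
      refine ⟨Finset.mem_univ _, ?_⟩
      rw [not_not]
      have h4 := h1 (-b)
      rw [neg_neg] at h4
      rcases mul_eq_zero.1 h4 with h5 | h5
      · exact h5
      · exact absurd h5 hb.2
    · intro b _ b' _ hbb
      exact neg_injective hbb
  have h4 : (univ.filter fun b => ft χ F1 b ≠ 0).card +
      (univ.filter fun b => ¬ ft χ F1 b ≠ 0).card = p := by
    rw [Finset.card_filter_add_card_filter_not, Finset.card_univ, ZMod.card]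
  omega

variable {K : Type*} [Field K]
variable {χ : AddChar (ZMod p) K} {x y : ZMod p → K}

theorem mul_eq_of_le {Γ : Type*} [LinearOrderedCommGroupWithZero Γ] {a b c d : Γ} (h1 : a ≤ c)
    (h2 : b ≤ d) (h : a * b = c * d) (h0 : c * d ≠ 0) : a = c ∧ b = d := by
  have hc : 0 < c := zero_lt_iff.2 (left_ne_zero_of_mul h0)
  have hd : 0 < d := zero_lt_iff.2 (right_ne_zero_of_mul h0)
  have ha : 0 < a := zero_lt_iff.2 (left_ne_zero_of_mul (h ▸ h0))
  have hb : 0 < b := zero_lt_iff.2 (right_ne_zero_of_mul (h ▸ h0))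
  constructor
  · refine le_antisymm h1 ?_
    by_contra hcon
    rw [not_le] at hcon
    have := mul_lt_mul_of_lt_of_le_of_nonneg_of_pos hcon h2 zero_le hd
    exact this.ne h
  · refine le_antisymm h2 ?_
    by_contra hcon
    rw [not_le] at hcon
    have : a * b < c * d := by
      rw [mul_comm a b, mul_comm c d]
      exact mul_lt_mul_of_lt_of_le_of_nonneg_of_pos hcon h1 zero_le hc
    exact this.ne h

theorem prod_max (V : ValuationSubring K) [CharZero (ResidueField V)] (hχ : χ ≠ 1)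
    (h : IsSol χ x y) (hg : ∀ j, V.valuation (x j * y j) ≤ 1) {a : ZMod p}
    {j j' : ZMod p} (hj : ∀ i, V.valuation (x i * y (i + a)) ≤ V.valuation (x j * y (j + a)))
    (hj' : ∀ i, V.valuation (x (i + a) * y i) ≤ V.valuation (x (j' + a) * y j')) :
    V.valuation (x j * y (j + a)) * V.valuation (x (j' + a) * y j') = 1 := by
  refine le_antisymm (balanced V hχ h hg a j' j) ?_
  rw [← h.val_mul' V a 0, cc_eq_ft, cd_eq_ft]
  exact mul_le_mul' (ft_val_le V χ _ hj _) (ft_val_le V χ _ hj' _)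

/-- the level lemma -/
theorem level (V : ValuationSubring K) [CharZero (ResidueField V)] (hχ : χ ≠ 1)
    (h : IsSol χ x y) (hg : ∀ j, V.valuation (x j * y j) ≤ 1) {a : ZMod p} (ha : a ≠ 0)
    {j j' : ZMod p} (hj : ∀ i, V.valuation (x i * y (i + a)) ≤ V.valuation (x j * y (j + a)))
    (hj' : ∀ i, V.valuation (x (i + a) * y i) ≤ V.valuation (x (j' + a) * y j')) :
    V.valuation (x j) * V.valuation (y j') = 1 := by
  classical
  have := charZero_of V
  have hmm := prod_max V hχ h hg hj hj'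
  set f : ZMod p → K := fun i => x i * y (i + a) with hf
  set g : ZMod p → K := fun i => x (i + a) * y i with hgd
  have hfj0 : V.valuation (f j) ≠ 0 := left_ne_zero_of_mul (ne_of_eq_of_ne hmm one_ne_zero)
  have hgj0 : V.valuation (g j') ≠ 0 := right_ne_zero_of_mul (ne_of_eq_of_ne hmm one_ne_zero)
  -- comparison of products
  have key : ∀ i i' l l', V.valuation (f i) = V.valuation (f j) →
      V.valuation (g i') = V.valuation (g j') → l' - l = i' - i →
      V.valuation (x l) * V.valuation (y l') ≤ V.valuation (x i) * V.valuation (y i') := by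
    intro i i' l l' hi hi' hl
    have h1 : (V.valuation (x i) * V.valuation (y i')) *
        (V.valuation (x (i' + a)) * V.valuation (y (i + a))) = 1 := by
      rw [← hmm, ← hi, ← hi', hf, hgd]
      simp only [← map_mul]
      congr 1
      ring
    have h2 := balanced V hχ h hg (l' - l) (i + a) l
    rw [add_sub_cancel, show i + a + (l' - l) = i' + a by rw [hl]; ring, map_mul, map_mul] at h2
    have h3 : V.valuation (x (i' + a)) * V.valuation (y (i + a)) ≠ 0 :=
      right_ne_zero_of_mul (ne_of_eq_of_ne h1 one_ne_zero)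
    rw [← h1] at h2
    exact le_of_mul_le_mul_right h2 (zero_lt_iff.2 h3)
  have key0 : ∀ i, V.valuation (f i) = V.valuation (f j) →
      V.valuation (g i) = V.valuation (g j') → V.valuation (x i) * V.valuation (y i) = 1 := by
    intro i hi hi'
    have h1 : V.valuation (x i * y i) * V.valuation (x (i + a) * y (i + a)) = 1 * 1 := by
      rw [one_mul, ← hmm, ← hi, ← hi', hf, hgd]
      simp only [← map_mul]
      congr 1
      ring
    have := (mul_eq_of_le (hg i) (hg (i + a)) h1 (by simp)).1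
    rwa [map_mul] at this
  -- residues
  have hf0 : f ≠ 0 := by
    intro h0
    apply hfj0
    rw [h0, Pi.zero_apply, map_zero]
  have hg0 : g ≠ 0 := by
    intro h0
    apply hgj0
    rw [h0, Pi.zero_apply, map_zero]
  obtain ⟨i₀, hi₀, hi₀m, F, hF, hFr⟩ := exists_lead V f hf0
  obtain ⟨l₀, hl₀, hl₀m, G, hG, hGr⟩ := exists_lead V g hg0
  have e1 : V.valuation (f i₀) = V.valuation (f j) := le_antisymm (hj i₀) (hi₀m j)
  have e2 : V.valuation (g l₀) = V.valuation (g j') := le_antisymm (hj' l₀) (hl₀m j')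
  rw [e1] at hFr
  rw [e2] at hGr
  obtain ⟨ψ, χ', hχ', hψ, hψ'⟩ := exists_res V hχ
  have hcorr : ∀ c, c ≠ 0 → ∑ i, residue V (F i) * residue V (G (i + c)) = 0 := by
    intro c hc
    have h1 := h.corr hχ ha c
    rw [if_neg hc] at h1
    have h2 : f i₀ * g l₀ * ((∑ i, F i * G (i + c) : V) : K) = 0 := by
      rw [← h1]
      push_cast
      rw [Finset.mul_sum]
      refine Finset.sum_congr rfl fun i _ => ?_
      change _ = f i * g (i + c)
      rw [hF i, hG (i + c)]
      ring
    have h3 : (∑ i, F i * G (i + c) : V) = 0 := by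
      apply Subtype.val_injective
      rcases mul_eq_zero.1 h2 with h4 | h4
      · exact absurd h4 (mul_ne_zero hi₀ hl₀)
      · exact h4
    have h4 := congrArg (residue V) h3
    rw [map_sum, map_zero] at h4
    rw [← h4]
    refine Finset.sum_congr rfl fun i _ => ?_
    rw [map_mul]
  -- extremal elements
  set J := univ.filter fun i => V.valuation (f i) = V.valuation (f j) with hJ
  set J' := univ.filter fun i => V.valuation (g i) = V.valuation (g j') with hJ'
  have hjJ : j ∈ J := by rw [hJ, Finset.mem_filter]; exact ⟨Finset.mem_univ _, rfl⟩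
  have hjJ' : j' ∈ J' := by rw [hJ', Finset.mem_filter]; exact ⟨Finset.mem_univ _, rfl⟩
  have hxy : ∀ i ∈ J, ∀ i' ∈ J', V.valuation (x i) * V.valuation (y i') ≠ 0 := by
    intro i hi i' hi'
    rw [hJ, Finset.mem_filter] at hi
    rw [hJ', Finset.mem_filter] at hi'
    have h1 : V.valuation (f i) ≠ 0 := hi.2 ▸ hfj0
    have h2 : V.valuation (g i') ≠ 0 := hi'.2 ▸ hgj0
    rw [hf] at h1
    rw [hgd] at h2
    simp only [map_mul] at h1 h2
    exact mul_ne_zero (left_ne_zero_of_mul h1) (right_ne_zero_of_mul h2)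
  have ext : ∀ i₁ ∈ J, ∀ i₂ ∈ J', (∀ i ∈ J, ∀ i' ∈ J',
      V.valuation (x i) * V.valuation (y i') = V.valuation (x i₁) * V.valuation (y i₂) →
      V.valuation (x i) = V.valuation (x i₁) ∧ V.valuation (y i') = V.valuation (y i₂)) →
      V.valuation (x i₁) * V.valuation (y i₂) = 1 := by
    intro i₁ hi₁ i₂ hi₂ hext
    by_contra hne
    rw [hJ, Finset.mem_filter] at hi₁
    rw [hJ', Finset.mem_filter] at hi₂
    refine no_ext hχ' (fun i => residue V (F i)) (fun i => residue V (G i)) hcorr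
      (fun i => V.valuation (x i) = V.valuation (x i₁))
      (fun i => V.valuation (y i) = V.valuation (y i₂)) ⟨i₁, rfl, (hFr i₁).2 hi₁.2⟩
      ⟨i₂, rfl, (hGr i₂).2 hi₂.2⟩ ?_ ?_
    · intro i hi1 hi2 hi3 hi4
      apply hne
      rw [← hi3, ← hi4]
      exact key0 i ((hFr i).1 hi1) ((hGr i).1 hi2)
    · intro i i' l l' hi hi' hEi hEi' hl hl' hll
      have h1 : V.valuation (x l) * V.valuation (y l') =
          V.valuation (x i) * V.valuation (y i') :=
        le_antisymm (key i i' l l' ((hFr i).1 hi) ((hGr i').1 hi') hll)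
          (key l l' i i' ((hFr l).1 hl) ((hGr l').1 hl') hll.symm)
      apply hext
      · rw [hJ, Finset.mem_filter]; exact ⟨Finset.mem_univ _, (hFr l).1 hl⟩
      · rw [hJ', Finset.mem_filter]; exact ⟨Finset.mem_univ _, (hGr l').1 hl'⟩
      · rw [h1, hEi, hEi']
  obtain ⟨i₁, hi₁, hm₁⟩ := Finset.exists_max_image J (fun i => V.valuation (x i)) ⟨j, hjJ⟩
  obtain ⟨i₂, hi₂, hm₂⟩ := Finset.exists_max_image J' (fun i => V.valuation (y i)) ⟨j', hjJ'⟩
  obtain ⟨l₁, hl₁, hn₁⟩ := Finset.exists_min_image J (fun i => V.valuation (x i)) ⟨j, hjJ⟩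
  obtain ⟨l₂, hl₂, hn₂⟩ := Finset.exists_min_image J' (fun i => V.valuation (y i)) ⟨j', hjJ'⟩
  have hmax := ext i₁ hi₁ i₂ hi₂ (fun i hi i' hi' h1 =>
    mul_eq_of_le (hm₁ i hi) (hm₂ i' hi') h1 (hxy i₁ hi₁ i₂ hi₂))
  have hmin := ext l₁ hl₁ l₂ hl₂ (fun i hi i' hi' h1 => by
    have := mul_eq_of_le (hn₁ i hi) (hn₂ i' hi') h1.symm (hxy i hi i' hi')
    exact ⟨this.1.symm, this.2.symm⟩)
  refine le_antisymm ?_ ?_
  · rw [← hmax]
    exact mul_le_mul' (hm₁ j hjJ) (hm₂ j' hjJ')
  · rw [← hmin]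
    exact mul_le_mul' (hn₁ j hjJ) (hn₂ j' hjJ')

end Pool.Agent.Y387.SF
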