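import Mathlib
import Pool.Agent.Y387.SF.Level

/-!
# In a good direction all entries are integral, if `p ≥ 5`
-/

set_option autoImplicit false

open Finset Polynomial

namespace Pool.Agent.Y387.SF

open IsLocalRing

variable {p : ℕ} [hp : Fact p.Prime]
variable {K : Type*} [Field K]
variable {χ : AddChar (ZMod p) K} {x y : ZMod p → K}

/-- The combinatorial end of the argument, over the residue field. -/
theorem endgame {k : Type*} [Field k] [CharZero k] {Γ : Type*} (hp5 : 5 ≤ p) (u : ZMod p → k)
    (lev : ZMod p → Γ) (hsq : ∑ j, u j * u j = 2 * ((p : k) + 1)⁻¹)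
    (hcorr : ∀ a, a ≠ 0 → ∑ j, u j * u (j + a) = ((p : k) + 1)⁻¹)
    (hlev : ∀ a, a ≠ 0 → ∀ i j, u i ≠ 0 → u (i + a) ≠ 0 → u j ≠ 0 → u (j + a) ≠ 0 →
      lev i = lev j ∧ lev (i + a) = lev (j + a))
    (htwo : ∃ s t, u s ≠ 0 ∧ u t ≠ 0 ∧ lev s ≠ lev t) : False := by
  classical
  set c : k := ((p : k) + 1)⁻¹ with hc
  have hc0 : c ≠ 0 := inv_ne_zero cast_p1_ne
  -- unique representation of differences between levels
  have hD : ∀ s t, u s ≠ 0 → u t ≠ 0 → lev s ≠ lev t → u s * u t = c := by
    intro s t hs ht hst
    have hne : t - s ≠ 0 := by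
      intro h0
      rw [sub_eq_zero] at h0
      exact hst (by rw [h0])
    rw [← hcorr (t - s) hne, Finset.sum_eq_single s]
    · rw [add_sub_cancel]
    · intro i _ hi
      by_contra hcon
      have h1 := left_ne_zero_of_mul hcon
      have h2 := right_ne_zero_of_mul hcon
      have hne2 : i - s ≠ 0 := sub_ne_zero.2 hi
      have h3 := (hlev (i - s) hne2 s t hs (by rwa [add_sub_cancel]) ht (by
        rwa [show t + (i - s) = i + (t - s) by ring])).1
      exact hst h3
    · intro h; exact absurd (Finset.mem_univ s) h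
  obtain ⟨s, t, hs, ht, hst⟩ := htwo
  have hκ := hD s t hs ht hst
  -- values of `u`
  have hval : ∀ i, u i ≠ 0 → lev i ≠ lev t → u i = u s := by
    intro i hi h1
    have h2 := hD i t hi ht h1
    exact mul_right_cancel₀ ht (h2.trans hκ.symm)
  have hval' : ∀ i, u i ≠ 0 → lev i ≠ lev s → u i = u t := by
    intro i hi h1
    have h2 := hD i s hi hs h1
    rw [mul_comm] at h2
    exact mul_left_cancel₀ hs (h2.trans hκ.symm)
  -- no third level
  have hthree : ∀ r, u r ≠ 0 → lev r = lev s ∨ lev r = lev t := by
    intro r hr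
    by_contra hcon
    push Not at hcon
    have h1 := hval r hr hcon.2
    have h2 := hval' r hr hcon.1
    have h3 : u s = u t := h1.symm.trans h2
    have h4 : ∀ i, u i ≠ 0 → u i = u s := by
      intro i hi
      by_cases h5 : lev i = lev t
      · rw [h3]
        apply hval' i hi
        rw [h5]
        exact fun h => hst h.symm
      · exact hval i hi h5
    have h5 : ∑ j, u j * u j = ((univ.filter fun j => u j ≠ 0).card : k) * c := by
      rw [Finset.card_filter, Nat.cast_sum, Finset.sum_mul]
      refine Finset.sum_congr rfl fun j _ => ?_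
      by_cases h6 : u j = 0
      · simp [h6]
      · rw [if_pos h6, h4 j h6, Nat.cast_one, one_mul, ← hκ, ← h3]
    rw [hsq] at h5
    have h6 : (2 : k) = ((univ.filter fun j => u j ≠ 0).card : k) := mul_right_cancel₀ hc0 h5
    have h7 : 2 = (univ.filter fun j => u j ≠ 0).card := by exact_mod_cast h6
    have h8 : ({s, t, r} : Finset (ZMod p)) ⊆ univ.filter fun j => u j ≠ 0 := by
      intro i hi
      rw [Finset.mem_insert, Finset.mem_insert, Finset.mem_singleton] at hi
      rw [Finset.mem_filter]
      rcases hi with rfl | rfl | rfl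
      · exact ⟨Finset.mem_univ _, hs⟩
      · exact ⟨Finset.mem_univ _, ht⟩
      · exact ⟨Finset.mem_univ _, hr⟩
    have h9 := Finset.card_le_card h8
    rw [Finset.card_eq_three.2 ⟨s, t, r, fun h => hst (by rw [h]), fun h => hcon.1 (by rw [h]),
      fun h => hcon.2 (by rw [h]), rfl⟩] at h9
    omega
  -- the sum of squares
  have hsum : ((univ.filter fun j => u j ≠ 0 ∧ lev j = lev s).card : k) * (u s * u s) +
      ((univ.filter fun j => u j ≠ 0 ∧ lev j = lev t).card : k) * (u t * u t) = 2 * c := by
    rw [← hsq, Finset.card_filter, Finset.card_filter, Nat.cast_sum, Nat.cast_sum, Finset.sum_mul,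
      Finset.sum_mul, ← Finset.sum_add_distrib]
    refine Finset.sum_congr rfl fun j _ => ?_
    by_cases h6 : u j = 0
    · simp [h6]
    · rcases hthree j h6 with h7 | h7
      · have h8 : lev j ≠ lev t := by rw [h7]; exact hst
        rw [if_pos ⟨h6, h7⟩, if_neg (fun h => h8 h.2), hval j h6 h8]
        simp
      · have h8 : lev j ≠ lev s := by rw [h7]; exact fun h => hst h.symm
        rw [if_neg (fun h => h8 h.2), if_pos ⟨h6, h7⟩, hval' j h6 h8]
        simp
  -- each level is a singleton
  have hsing : ∀ s t : ZMod p, u s ≠ 0 → u t ≠ 0 → lev s ≠ lev t → u s * u t = c →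
      (∀ i, u i ≠ 0 → lev i ≠ lev t → u i = u s) →
      ((univ.filter fun j => u j ≠ 0 ∧ lev j = lev s).card : k) * (u s * u s) +
      ((univ.filter fun j => u j ≠ 0 ∧ lev j = lev t).card : k) * (u t * u t) = 2 * c →
      ∀ s', u s' ≠ 0 → lev s' = lev s → s' = s := by
    intro s t hs ht hst hκ hval hsum s' hs' hlevs
    by_contra hne
    have hne2 : s' - s ≠ 0 := sub_ne_zero.2 hne
    have h1 := hcorr (s' - s) hne2
    have h2 : ∑ j, u j * u (j + (s' - s)) =
        ((univ.filter fun j => u j ≠ 0 ∧ u (j + (s' - s)) ≠ 0).card : k) * (u s * u s) := by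
      rw [Finset.card_filter, Nat.cast_sum, Finset.sum_mul]
      refine Finset.sum_congr rfl fun j _ => ?_
      by_cases h6 : u j ≠ 0 ∧ u (j + (s' - s)) ≠ 0
      · rw [if_pos h6, Nat.cast_one, one_mul]
        have h7 := hlev (s' - s) hne2 j s h6.1 h6.2 hs (by rwa [add_sub_cancel])
        rw [add_sub_cancel] at h7
        rw [hval j h6.1 (by rw [h7.1]; exact hst), hval _ h6.2 (by rw [h7.2, hlevs]; exact hst)]
      · rw [if_neg h6, Nat.cast_zero, zero_mul]
        rw [not_and_or, not_not, not_not] at h6
        rcases h6 with h6 | h6 <;> simp [h6]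
    set r := (univ.filter fun j => u j ≠ 0 ∧ u (j + (s' - s)) ≠ 0).card with hr
    set e0 := (univ.filter fun j => u j ≠ 0 ∧ lev j = lev s).card with he0
    set e1 := (univ.filter fun j => u j ≠ 0 ∧ lev j = lev t).card with he1
    have h3 : (r : k) * (u s * u s) = c := by rw [← h2, h1]
    have h4 : (e0 : k) + e1 * r ^ 2 = 2 * r := by
      have h5 : (u s * u s) * (u t * u t) = c * c := by rw [← hκ]; ring
      have h6 : u t * u t = c * r := by
        have h7 : (r : k) * ((u s * u s) * (u t * u t)) = r * (c * c) := by rw [h5]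
        rw [← mul_assoc, h3] at h7
        have h8 := mul_left_cancel₀ hc0 (h7.trans (by ring : (r : k) * (c * c) = c * (c * r)))
        exact h8
      have h7 : (r : k) * ((e0 : k) * (u s * u s) + e1 * (u t * u t)) = r * (2 * c) := by
        rw [hsum]
      have h8 : c * ((e0 : k) + e1 * r ^ 2) = c * (2 * r) := by
        calc c * ((e0 : k) + e1 * r ^ 2) = e0 * c + e1 * r * (c * r) := by ring
          _ = e0 * (r * (u s * u s)) + e1 * r * (u t * u t) := by rw [h3, h6]
          _ = r * ((e0 : k) * (u s * u s) + e1 * (u t * u t)) := by ring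
          _ = r * (2 * c) := h7
          _ = c * (2 * r) := by ring
      exact mul_left_cancel₀ hc0 h8
    have h5 : e0 + e1 * r ^ 2 = 2 * r := by exact_mod_cast h4
    have h6 : 2 ≤ e0 := by
      have h7 : ({s, s'} : Finset (ZMod p)) ⊆ univ.filter fun j => u j ≠ 0 ∧ lev j = lev s := by
        intro i hi
        rw [Finset.mem_insert, Finset.mem_singleton] at hi
        rw [Finset.mem_filter]
        rcases hi with rfl | rfl
        · exact ⟨Finset.mem_univ _, hs, rfl⟩
        · exact ⟨Finset.mem_univ _, hs', hlevs⟩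
      have h8 := Finset.card_le_card h7
      rwa [Finset.card_pair (fun h => hne h.symm)] at h8
    have h7 : 1 ≤ e1 := by
      rw [he1]
      apply Finset.card_pos.2
      exact ⟨t, by rw [Finset.mem_filter]; exact ⟨Finset.mem_univ _, ht, rfl⟩⟩
    have h8 : 1 * r ^ 2 ≤ e1 * r ^ 2 := Nat.mul_le_mul_right _ h7
    have h9 : 2 + r ^ 2 ≤ 2 * r := by omega
    have h10 : (2 : ℤ) + (r : ℤ) ^ 2 ≤ 2 * r := by exact_mod_cast h9
    nlinarith [sq_nonneg ((r : ℤ) - 1)]
  have hS := hsing s t hs ht hst hκ hval hsum
  have hT := hsing t s ht hs (fun h => hst h.symm) (by rw [mul_comm]; exact hκ) hval' (by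
    rw [add_comm]; exact hsum)
  have hU : ∀ i, u i ≠ 0 → i = s ∨ i = t := by
    intro i hi
    rcases hthree i hi with h | h
    · exact Or.inl (hS i hi h)
    · exact Or.inr (hT i hi h)
  -- a difference which does not occur
  obtain ⟨a, ha⟩ : ∃ a : ZMod p, a ∉ ({0, t - s, s - t} : Finset (ZMod p)) := by
    by_contra hcon
    push Not at hcon
    have h1 : (univ : Finset (ZMod p)) ⊆ {0, t - s, s - t} := fun a _ => hcon a
    have h2 := Finset.card_le_card h1
    rw [Finset.card_univ, ZMod.card] at h2
    have h3 : ({0, t - s, s - t} : Finset (ZMod p)).card ≤ 3 := Finset.card_le_three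
    omega
  rw [Finset.mem_insert, Finset.mem_insert, Finset.mem_singleton, not_or, not_or] at ha
  have h1 := hcorr a ha.1
  rw [Finset.sum_eq_zero] at h1
  · exact hc0 h1.symm
  · intro j _
    by_contra hcon
    have h2 := left_ne_zero_of_mul hcon
    have h3 := right_ne_zero_of_mul hcon
    rcases hU j h2 with h4 | h4
    · rcases hU _ h3 with h5 | h5
      · apply ha.1
        rw [h4] at h5
        simpa using h5
      · apply ha.2.1
        rw [h4] at h5
        rw [← h5]; ring
    · rcases hU _ h3 with h5 | h5
      · apply ha.2.2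
        rw [h4] at h5
        rw [← h5]; ring
      · apply ha.1
        rw [h4] at h5
        simpa using h5

/-- In a good direction everything is bounded. -/
theorem bounded_of_good (hp5 : 5 ≤ p) (V : ValuationSubring K) [CharZero (ResidueField V)]
    (hχ : χ ≠ 1) (h : IsSol χ x y) (hg : ∀ j, V.valuation (x j * y j) ≤ 1) (i j : ZMod p) :
    V.valuation (x i * y j) ≤ 1 := by
  classical
  have := charZero_of V
  by_contra hij
  -- the diagonal products
  have hmem : ∀ j, x j * y j ∈ V := fun j => (V.valuation_le_one_iff _).1 (hg j)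
  set w : ZMod p → V := fun j => ⟨x j * y j, hmem j⟩ with hw
  have hwne : ∀ j, residue V (w j) ≠ 0 ↔ V.valuation (x j * y j) = 1 := by
    intro j
    rw [residue_ne_zero_iff_isUnit, V.valuation_eq_one_iff]
  have hwk : ∀ k, ∑ j, residue V (w j) * residue V (w (j + k)) =
      (if k = 0 then 2 else 1) * (((p : ResidueField V)) + 1)⁻¹ := by
    intro k
    have h1 := h.corr_zero hχ k
    have hp1 : (p : K) + 1 ≠ 0 := cast_p1_ne
    have h2 : ((p : V) + 1) * ∑ j, w j * w (j + k) = (if k = 0 then 2 else 1) := by
      apply Subtype.val_injective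
      push_cast
      have h3 : ∑ j, x j * y j * (x (j + k) * y (j + k)) = ∑ j, (w j : K) * (w (j + k) : K) := rfl
      rw [← h3, h1]
      split_ifs
      · field_simp; rfl
      · push_cast; field_simp
    have h3 := congrArg (residue V) h2
    rw [map_mul, map_sum, map_add, map_natCast, map_one] at h3
    have hp2 : (p : ResidueField V) + 1 ≠ 0 := cast_p1_ne
    have h4 : ((p : ResidueField V) + 1) * ∑ j, residue V (w j) * residue V (w (j + k)) =
        if k = 0 then 2 else 1 := by
      have h5 : (if k = 0 then (2 : ResidueField V) else 1) =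
          residue V (if k = 0 then 2 else 1) := by
        split_ifs
        · exact (map_ofNat (residue V) 2).symm
        · exact (map_one _).symm
      rw [h5, ← h3]
      congr 1
    rw [← h4]
    field_simp
  have hex : ∀ a, a ≠ 0 → ∃ j, V.valuation (x j * y j) = 1 ∧
      V.valuation (x (j + a) * y (j + a)) = 1 := by
    intro a ha
    have h1 := hwk a
    rw [if_neg ha, one_mul] at h1
    have h2 : ∑ j, residue V (w j) * residue V (w (j + a)) ≠ 0 := by
      rw [h1]; exact inv_ne_zero cast_p1_ne
    obtain ⟨j, _, hj⟩ := Finset.exists_ne_zero_of_sum_ne_zero h2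
    exact ⟨j, (hwne j).1 (left_ne_zero_of_mul hj), (hwne _).1 (right_ne_zero_of_mul hj)⟩
  -- entries on a diagonal through two units are extremal
  have hmaxf : ∀ a j, V.valuation (x j * y j) = 1 → V.valuation (x (j + a) * y (j + a)) = 1 →
      ∀ i, V.valuation (x i * y (i + a)) ≤ V.valuation (x j * y (j + a)) := by
    intro a j h1 h2 i
    have h3 := balanced V hχ h hg a j i
    have h4 : V.valuation (x j * y (j + a)) * V.valuation (x (j + a) * y j) = 1 := by
      rw [← map_mul, show x j * y (j + a) * (x (j + a) * y j) =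
        (x j * y j) * (x (j + a) * y (j + a)) by ring, map_mul, h1, h2, one_mul]
    rw [← h4] at h3
    exact le_of_mul_le_mul_right h3
      (zero_lt_iff.2 (right_ne_zero_of_mul (ne_of_eq_of_ne h4 one_ne_zero)))
  have hmaxg : ∀ a j, V.valuation (x j * y j) = 1 → V.valuation (x (j + a) * y (j + a)) = 1 →
      ∀ i, V.valuation (x (i + a) * y i) ≤ V.valuation (x (j + a) * y j) := by
    intro a j h1 h2 i
    have h3 := balanced V hχ h hg a i j
    have h4 : V.valuation (x j * y (j + a)) * V.valuation (x (j + a) * y j) = 1 := by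
      rw [← map_mul, show x j * y (j + a) * (x (j + a) * y j) =
        (x j * y j) * (x (j + a) * y (j + a)) by ring, map_mul, h1, h2, one_mul]
    rw [← h4] at h3
    exact le_of_mul_le_mul_left h3
      (zero_lt_iff.2 (left_ne_zero_of_mul (ne_of_eq_of_ne h4 one_ne_zero)))
  have hyinv : ∀ j, V.valuation (x j * y j) = 1 → V.valuation (y j) = (V.valuation (x j))⁻¹ := by
    intro j hj
    rw [map_mul] at hj
    exact eq_inv_of_mul_eq_one_right hj
  refine endgame hp5 (fun j => residue V (w j)) (fun j => V.valuation (x j)) ?_ ?_ ?_ ?_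
  · have := hwk 0
    rw [if_pos rfl] at this
    rw [← this]
    refine Finset.sum_congr rfl fun j _ => ?_
    rw [add_zero]
  · intro a ha
    have := hwk a
    rw [if_neg ha, one_mul] at this
    exact this
  · intro a ha i j hi hia hj hja
    rw [hwne] at hi hia hj hja
    have h1 := level V hχ h hg ha (hmaxf a i hi hia) (hmaxg a j hj hja)
    have h2 : V.valuation (x i) = V.valuation (x j) := by
      rw [hyinv j hj] at h1
      have h3 : V.valuation (x j) ≠ 0 := by
        intro h0
        rw [map_mul, h0, zero_mul] at hj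
        exact zero_ne_one hj
      rwa [mul_inv_eq_one₀ h3] at h1
    refine ⟨h2, ?_⟩
    have h3 : V.valuation (x (i + a) * y i) = V.valuation (x (j + a) * y j) :=
      le_antisymm (hmaxg a j hj hja i) (hmaxg a i hi hia j)
    rw [map_mul, map_mul, hyinv i hi, hyinv j hj, h2] at h3
    have h4 : (V.valuation (x j))⁻¹ ≠ 0 := by
      intro h0
      have := hyinv j hj
      rw [h0] at this
      rw [map_mul, this, mul_zero] at hj
      exact zero_ne_one hj
    exact mul_right_cancel₀ h4 h3
  · -- two levels
    by_contra hcon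
    push Not at hcon
    apply hij
    -- all entries are bounded by one
    have h1 : ∀ a l, V.valuation (x l * y (l + a)) ≤ 1 := by
      intro a l
      by_cases ha : a = 0
      · rw [ha, add_zero]; exact hg l
      obtain ⟨j, hj, hja⟩ := hex a ha
      refine (hmaxf a j hj hja l).trans ?_
      have h2 := hcon j (j + a) ((hwne j).2 hj) ((hwne _).2 hja)
      rw [map_mul, hyinv _ hja, h2]
      have h3 : V.valuation (x (j + a)) ≠ 0 := by
        intro h0
        rw [map_mul, h0, zero_mul] at hja
        exact zero_ne_one hja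
      rw [mul_inv_cancel₀ h3]
    have h2 := h1 (j - i) i
    rwa [add_sub_cancel] at h2

end Pool.Agent.Y387.SF
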