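import Mathlib

/-!
# A filtration attached to two commuting nilpotent operators
-/

set_option autoImplicit false

open Finset

namespace Pool.Agent.Y387.SF

section

variable {k V : Type*} [Field k] [AddCommGroup V] [Module k V]

/-- monomials in two operators applied to a vector -/
def mon (A B : Module.End k V) (f : V) (i j : ℕ) : V := (A ^ i) ((B ^ j) f)

/-- span of the monomials of degree at least `n` -/
def W (A B : Module.End k V) (f : V) (n : ℕ) : Submodule k V :=
  Submodule.span k {x | ∃ i j, n ≤ i + j ∧ x = mon A B f i j}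

variable {A B : Module.End k V} {f : V}

theorem mon_mem {i j n : ℕ} (h : n ≤ i + j) : mon A B f i j ∈ W A B f n :=
  Submodule.subset_span ⟨i, j, h, rfl⟩

theorem A_mon (i j : ℕ) : A (mon A B f i j) = mon A B f (i + 1) j := by
  rw [mon, mon, pow_succ', Module.End.mul_apply]

theorem B_mon (hAB : Commute A B) (i j : ℕ) : B (mon A B f i j) = mon A B f i (j + 1) := by
  rw [mon, mon, pow_succ', Module.End.mul_apply, ← Module.End.mul_apply B,
    ← (hAB.pow_left i).eq, Module.End.mul_apply]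

theorem W_anti {m n : ℕ} (h : m ≤ n) : W A B f n ≤ W A B f m := by
  apply Submodule.span_mono
  rintro x ⟨i, j, hij, rfl⟩
  exact ⟨i, j, h.trans hij, rfl⟩

theorem A_mem {n : ℕ} {x : V} (hx : x ∈ W A B f n) : A x ∈ W A B f (n + 1) := by
  induction hx using Submodule.span_induction with
  | mem x hx =>
    obtain ⟨i, j, hij, rfl⟩ := hx
    rw [A_mon]
    exact mon_mem (by omega)
  | zero => rw [map_zero]; exact Submodule.zero_mem _
  | add x y _ _ hx hy => rw [map_add]; exact Submodule.add_mem _ hx hy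
  | smul c x _ hx => rw [map_smul]; exact Submodule.smul_mem _ _ hx

theorem B_mem (hAB : Commute A B) {n : ℕ} {x : V} (hx : x ∈ W A B f n) :
    B x ∈ W A B f (n + 1) := by
  induction hx using Submodule.span_induction with
  | mem x hx =>
    obtain ⟨i, j, hij, rfl⟩ := hx
    rw [B_mon hAB]
    exact mon_mem (by omega)
  | zero => rw [map_zero]; exact Submodule.zero_mem _
  | add x y _ _ hx hy => rw [map_add]; exact Submodule.add_mem _ hx hy
  | smul c x _ hx => rw [map_smul]; exact Submodule.smul_mem _ _ hx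

theorem W_succ_le (hAB : Commute A B) {n : ℕ} {x : V} (hx : x ∈ W A B f (n + 1)) :
    ∃ y ∈ W A B f n, ∃ z ∈ W A B f n, x = A y + B z := by
  induction hx using Submodule.span_induction with
  | mem x hx =>
    obtain ⟨i, j, hij, rfl⟩ := hx
    rcases i with _ | i
    · rcases j with _ | j
      · omega
      · refine ⟨0, Submodule.zero_mem _, mon A B f 0 j, mon_mem (by omega), ?_⟩
        rw [B_mon hAB, map_zero, zero_add]
    · refine ⟨mon A B f i j, mon_mem (by omega), 0, Submodule.zero_mem _, ?_⟩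
      rw [A_mon, map_zero, add_zero]
  | zero => exact ⟨0, Submodule.zero_mem _, 0, Submodule.zero_mem _, by simp⟩
  | add x y _ _ hx hy =>
    obtain ⟨x1, hx1, x2, hx2, rfl⟩ := hx
    obtain ⟨y1, hy1, y2, hy2, rfl⟩ := hy
    refine ⟨x1 + y1, Submodule.add_mem _ hx1 hy1, x2 + y2, Submodule.add_mem _ hx2 hy2, ?_⟩
    rw [map_add, map_add]
    abel
  | smul c x _ hx =>
    obtain ⟨x1, hx1, x2, hx2, rfl⟩ := hx
    refine ⟨c • x1, Submodule.smul_mem _ _ hx1, c • x2, Submodule.smul_mem _ _ hx2, ?_⟩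
    rw [map_smul, map_smul, smul_add]

theorem W_eq_bot {p : ℕ} (hA : A ^ p = 0) (hB : B ^ p = 0) :
    W A B f (2 * p) = ⊥ := by
  rw [W, Submodule.span_eq_bot]
  rintro x ⟨i, j, hij, rfl⟩
  rcases le_or_gt p i with h | h
  · rw [mon, show i = (i - p) + p by omega, pow_add, hA, mul_zero]
    rfl
  · rw [mon, show j = (j - p) + p by omega, pow_add, hB, mul_zero]
    simp

theorem key_rel (hAB : Commute A B) {m : ℕ} {w : V}
    (hW : ∀ x ∈ W A B f (m + 1), ∃ c : k, x - c • w ∈ W A B f (m + 2))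
    (hne : ¬ (W A B f (m + 1) ≤ W A B f (m + 2))) :
    ∃ α β : k, (α ≠ 0 ∨ β ≠ 0) ∧ α • B w - β • A w ∈ W A B f (m + 3) := by
  have h1 : ∃ z ∈ W A B f m, A z ∉ W A B f (m + 2) ∨ B z ∉ W A B f (m + 2) := by
    by_contra hcon
    push Not at hcon
    apply hne
    intro x hx
    obtain ⟨y, hy, z, hz, rfl⟩ := W_succ_le hAB hx
    exact Submodule.add_mem _ (hcon y hy).1 (hcon z hz).2
  obtain ⟨z, hz, hz2⟩ := h1
  obtain ⟨α, hα⟩ := hW (A z) (A_mem hz)
  obtain ⟨β, hβ⟩ := hW (B z) (B_mem hAB hz)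
  refine ⟨α, β, ?_, ?_⟩
  · by_contra hcon
    push Not at hcon
    rw [hcon.1, zero_smul, sub_zero] at hα
    rw [hcon.2, zero_smul, sub_zero] at hβ
    rcases hz2 with h | h
    · exact h hα
    · exact h hβ
  · have h2 := Submodule.sub_mem _ (A_mem hβ) (B_mem hAB hα)
    have h3 : A (B z) = B (A z) := by
      rw [← Module.End.mul_apply, hAB.eq, Module.End.mul_apply]
    rw [map_sub, map_sub, map_smul, map_smul, h3] at h2
    have h4 : B (A z) - β • A w - (B (A z) - α • B w) = α • B w - β • A w := by abel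
    rwa [h4] at h2

/-- the property that the graded piece of degree `n` has dimension at most one -/
def PP (A B : Module.End k V) (f : V) (n : ℕ) : Prop :=
  ∃ w ∈ W A B f n, ∀ x ∈ W A B f n, ∃ c : k, x - c • w ∈ W A B f (n + 1)

theorem l_all (hAB : Commute A B) {n₁ : ℕ} {w : V}
    (hW : ∀ x ∈ W A B f n₁, ∃ c : k, x - c • w ∈ W A B f (n₁ + 1)) {α β : k}
    (h : α • B w - β • A w ∈ W A B f (n₁ + 2)) (n : ℕ) (hn : n₁ ≤ n) :
    ∀ x ∈ W A B f n, α • B x - β • A x ∈ W A B f (n + 2) := by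
  induction n, hn using Nat.le_induction with
  | base =>
    intro x hx
    obtain ⟨c, hc⟩ := hW x hx
    have h1 : α • B x - β • A x =
        (α • B (x - c • w) - β • A (x - c • w)) + c • (α • B w - β • A w) := by
      rw [map_sub, map_sub, map_smul, map_smul, smul_sub, smul_sub, smul_sub, smul_comm c α,
        smul_comm c β]
      abel
    rw [h1]
    refine Submodule.add_mem _ (Submodule.sub_mem _ (Submodule.smul_mem _ _ (B_mem hAB hc))
      (Submodule.smul_mem _ _ (A_mem hc))) (Submodule.smul_mem _ _ h)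
  | succ n _ ih =>
    intro x hx
    obtain ⟨y, hy, z, hz, rfl⟩ := W_succ_le hAB hx
    have h1 : α • B (A y + B z) - β • A (A y + B z) =
        A (α • B y - β • A y) + B (α • B z - β • A z) := by
      have h3 : ∀ u, A (B u) = B (A u) := by
        intro u
        rw [← Module.End.mul_apply, hAB.eq, Module.End.mul_apply]
      rw [map_add, map_add, map_sub, map_sub, map_smul, map_smul, map_smul, map_smul, smul_add,
        smul_add, h3, h3]
      abel
    rw [h1]
    exact Submodule.add_mem _ (A_mem (ih y hy)) (B_mem hAB (ih z hz))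

theorem PP_succ (hAB : Commute A B) {m : ℕ} (h : PP A B f (m + 1)) : PP A B f (m + 2) := by
  obtain ⟨w, hw, hW⟩ := h
  by_cases hne : W A B f (m + 1) ≤ W A B f (m + 2)
  · refine ⟨0, Submodule.zero_mem _, fun x hx => ⟨0, ?_⟩⟩
    rw [smul_zero, sub_zero]
    obtain ⟨y, hy, z, hz, rfl⟩ := W_succ_le hAB hx
    exact Submodule.add_mem _ (A_mem (hne hy)) (B_mem hAB (hne hz))
  · obtain ⟨α, β, hαβ, hl⟩ := key_rel hAB hW hne
    rcases hαβ with hα | hβ
    · refine ⟨A w, A_mem hw, fun x hx => ?_⟩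
      obtain ⟨y, hy, z, hz, rfl⟩ := W_succ_le hAB hx
      obtain ⟨c, hc⟩ := hW y hy
      obtain ⟨d, hd⟩ := hW z hz
      refine ⟨c + d * (α⁻¹ * β), ?_⟩
      have h1 : A y + B z - (c + d * (α⁻¹ * β)) • A w =
          A (y - c • w) + B (z - d • w) + (d * α⁻¹) • (α • B w - β • A w) := by
        rw [map_sub, map_sub, map_smul, map_smul, smul_sub, smul_smul, smul_smul, add_smul,
          mul_assoc, mul_assoc, inv_mul_cancel₀ hα, mul_one]
        abel
      rw [h1]
      exact Submodule.add_mem _ (Submodule.add_mem _ (A_mem hc) (B_mem hAB hd))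
        (Submodule.smul_mem _ _ hl)
    · refine ⟨B w, B_mem hAB hw, fun x hx => ?_⟩
      obtain ⟨y, hy, z, hz, rfl⟩ := W_succ_le hAB hx
      obtain ⟨c, hc⟩ := hW y hy
      obtain ⟨d, hd⟩ := hW z hz
      refine ⟨d + c * (β⁻¹ * α), ?_⟩
      have h1 : A y + B z - (d + c * (β⁻¹ * α)) • B w =
          A (y - c • w) + B (z - d • w) - (c * β⁻¹) • (α • B w - β • A w) := by
        rw [map_sub, map_sub, map_smul, map_smul, smul_sub, smul_smul, smul_smul, add_smul,
          mul_assoc, mul_assoc, inv_mul_cancel₀ hβ, mul_one]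
        abel
      rw [h1]
      exact Submodule.sub_mem _ (Submodule.add_mem _ (A_mem hc) (B_mem hAB hd))
        (Submodule.smul_mem _ _ hl)

theorem W_strict (hAB : Commute A B) {M : ℕ} (hM : W A B f M = ⊥) {n : ℕ}
    (hn : W A B f n ≠ ⊥) : ¬ (W A B f n ≤ W A B f (n + 1)) := by
  intro h
  have h1 : ∀ j, W A B f (n + j) ≤ W A B f (n + j + 1) := by
    intro j
    induction j with
    | zero => exact h
    | succ j ih =>
      intro x hx
      obtain ⟨y, hy, z, hz, rfl⟩ := W_succ_le hAB (n := n + j) hx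
      exact Submodule.add_mem _ (A_mem (ih hy)) (B_mem hAB (ih hz))
  have h2 : ∀ j, W A B f n ≤ W A B f (n + j) := by
    intro j
    induction j with
    | zero => exact le_refl _
    | succ j ih => exact ih.trans (h1 j)
  apply hn
  rw [eq_bot_iff, ← hM]
  exact (h2 M).trans (W_anti (by omega))

variable [FiniteDimensional k V]

theorem finrank_lt (hAB : Commute A B) {M : ℕ} (hM : W A B f M = ⊥) {n : ℕ}
    (hn : W A B f n ≠ ⊥) :
    Module.finrank k (W A B f (n + 1)) + 1 ≤ Module.finrank k (W A B f n) := by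
  apply Submodule.finrank_lt_finrank_of_lt
  exact lt_of_le_not_ge (W_anti (by omega)) (W_strict hAB hM hn)

theorem finrank_two {n : ℕ} (hn : ¬ PP A B f n) :
    Module.finrank k (W A B f (n + 1)) + 2 ≤ Module.finrank k (W A B f n) := by
  by_contra hcon
  rw [not_le] at hcon
  apply hn
  by_cases h : W A B f n ≤ W A B f (n + 1)
  · exact ⟨0, Submodule.zero_mem _, fun x hx => ⟨0, by rw [smul_zero, sub_zero]; exact h hx⟩⟩
  · obtain ⟨w, hw, hw1⟩ := Set.not_subset.1 h
    refine ⟨w, hw, ?_⟩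
    have hle : W A B f (n + 1) ⊔ Submodule.span k {w} ≤ W A B f n :=
      sup_le (W_anti (by omega)) ((Submodule.span_singleton_le_iff_mem _ _).2 hw)
    have hlt : W A B f (n + 1) < W A B f (n + 1) ⊔ Submodule.span k {w} := by
      apply lt_of_le_not_ge le_sup_left
      intro h2
      exact hw1 (h2 (Submodule.mem_sup_right (Submodule.mem_span_singleton_self w)))
    have h3 := Submodule.finrank_lt_finrank_of_lt hlt
    have heq := Submodule.eq_of_le_of_finrank_le hle (by omega)
    intro x hx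
    rw [← heq, Submodule.mem_sup] at hx
    obtain ⟨y, hy, z, hz, rfl⟩ := hx
    obtain ⟨c, rfl⟩ := Submodule.mem_span_singleton.1 hz
    exact ⟨c, by rwa [add_sub_cancel_right]⟩

/-- the main dimension count -/
theorem grad_main (hAB : Commute A B) {p : ℕ} (hA : A ^ p = 0) (hB : B ^ p = 0)
    (hdim : Module.finrank k (W A B f 0) ≤ p) {m : ℕ} (hm : W A B f m ≠ ⊥) (hpm : p + 1 ≤ 2 * m) :
    ∃ D n₁ : ℕ, ∃ α β : k, m ≤ D ∧ W A B f D ≠ ⊥ ∧ W A B f (D + 1) = ⊥ ∧ 1 ≤ n₁ ∧ D + n₁ ≤ p ∧
      (α ≠ 0 ∨ β ≠ 0) ∧ ∀ n, n₁ ≤ n → ∀ x ∈ W A B f n, α • B x - β • A x ∈ W A B f (n + 2) := by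
  classical
  have hM : W A B f (2 * p) = ⊥ := W_eq_bot hA hB
  -- the top degree
  have hex : ∃ n, W A B f n = ⊥ := ⟨_, hM⟩
  set D1 := Nat.find hex with hD1
  have hD1s : W A B f D1 = ⊥ := Nat.find_spec hex
  have hD1m : ∀ n, n < D1 → W A B f n ≠ ⊥ := fun n hn => Nat.find_min hex hn
  have hmD : m < D1 := by
    by_contra hcon
    rw [not_lt] at hcon
    apply hm
    rw [eq_bot_iff, ← hD1s]
    exact W_anti hcon
  obtain ⟨D, hD⟩ : ∃ D, D1 = D + 1 := ⟨D1 - 1, by omega⟩
  rw [hD] at hD1s hD1m hmD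
  -- the first degree with one dimensional piece
  have hex2 : ∃ n, PP A B f (n + 1) := by
    refine ⟨D, 0, Submodule.zero_mem _, fun x hx => ⟨0, ?_⟩⟩
    rw [hD1s, Submodule.mem_bot] at hx
    rw [hx, smul_zero, sub_zero]
    exact Submodule.zero_mem _
  set n₀ := Nat.find hex2 with hn₀
  have hn₀s : PP A B f (n₀ + 1) := Nat.find_spec hex2
  have hn₀m : ∀ n, n < n₀ → ¬ PP A B f (n + 1) := fun n hn => Nat.find_min hex2 hn
  have hn₀D : n₀ ≤ D := by
    apply Nat.find_min'
    refine ⟨0, Submodule.zero_mem _, fun x hx => ⟨0, ?_⟩⟩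
    rw [hD1s, Submodule.mem_bot] at hx
    rw [hx, smul_zero, sub_zero]
    exact Submodule.zero_mem _
  -- counting
  have hc1 : ∀ j, j ≤ D + 1 → j ≤ Module.finrank k (W A B f (D + 1 - j)) := by
    intro j
    induction j with
    | zero => intro _; exact Nat.zero_le _
    | succ j ih =>
      intro hj
      have h1 := ih (by omega)
      have h2 := finrank_lt hAB hM (hD1m (D + 1 - (j + 1)) (by omega))
      rw [show D + 1 - (j + 1) + 1 = D + 1 - j by omega] at h2
      omega
  have hc2 : ∀ j, j ≤ n₀ →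
      Module.finrank k (W A B f (n₀ + 1)) + 2 * j ≤ Module.finrank k (W A B f (n₀ + 1 - j)) := by
    intro j
    induction j with
    | zero => intro _; simp
    | succ j ih =>
      intro hj
      have h1 := ih (by omega)
      have h2 := finrank_two (hn₀m (n₀ - (j + 1)) (by omega))
      rw [show n₀ - (j + 1) + 1 = n₀ + 1 - (j + 1) by omega,
        show n₀ + 1 - (j + 1) + 1 = n₀ + 1 - j by omega] at h2
      omega
  have h1 := hc1 (D - n₀) (by omega)
  rw [show D + 1 - (D - n₀) = n₀ + 1 by omega] at h1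
  have h2 := hc2 n₀ le_rfl
  rw [show n₀ + 1 - n₀ = 0 + 1 by omega] at h2
  have h3 := finrank_lt hAB hM (hD1m 0 (by omega))
  have h4 : D + (n₀ + 1) ≤ p := by omega
  -- the relation
  obtain ⟨w, hw, hW⟩ := hn₀s
  have hne := W_strict hAB hM (hD1m (n₀ + 1) (by omega))
  obtain ⟨α, β, hαβ, hl⟩ := key_rel hAB hW hne
  exact ⟨D, n₀ + 1, α, β, by omega, hD1m D (by omega), hD1s, by omega, h4, hαβ,
    fun n hn x hx => l_all hAB hW hl n hn x hx⟩

end

end Pool.Agent.Y387.SF
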