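import Mathlib

/-!
# A polynomial computation in characteristic `p`
-/

set_option autoImplicit false

open Finset

namespace Pool.Agent.Y387.SF

variable {k : Type*} [Field k] {p : ℕ} [hp : Fact p.Prime] [CharP k p]

theorem choose_pred (i : ℕ) (hi : i ≤ p - 1) : ((p - 1).choose i : k) = (-1) ^ i := by
  have hp2 := hp.out.two_le
  induction i with
  | zero => simp
  | succ i ih =>
    have h1 := ih (by omega)
    have h2 : p.choose (i + 1) = (p - 1).choose i + (p - 1).choose (i + 1) := by
      conv_lhs => rw [show p = (p - 1) + 1 by omega]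
      rw [Nat.choose_succ_succ]
    have h3 : ((p.choose (i + 1) : ℕ) : k) = 0 := by
      rw [CharP.cast_eq_zero_iff k p]
      exact hp.out.dvd_choose_self (by omega) (by omega)
    rw [h2, Nat.cast_add, h1] at h3
    rw [pow_succ, mul_neg_one]
    exact eq_neg_of_add_eq_zero_right h3

theorem fact_ne {n : ℕ} (hn : n < p) : ((n.factorial : ℕ) : k) ≠ 0 := by
  rw [Ne, CharP.cast_eq_zero_iff k p, hp.out.dvd_factorial]
  omega

theorem choose_ident {D I J i : ℕ} (hIJ : I + J = 2 * D) (hiD : i ≤ D) (hiI : i ≤ I) :
    D.choose i * D.choose (I - i) * (I.factorial * J.factorial) =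
      D.factorial * D.factorial * (I.choose i * J.choose (D - i)) := by
  rcases le_or_gt (I - i) D with h | h
  · have h1 := Nat.choose_mul_factorial_mul_factorial hiD
    have h2 := Nat.choose_mul_factorial_mul_factorial h
    have h3 := Nat.choose_mul_factorial_mul_factorial hiI
    have h4 := Nat.choose_mul_factorial_mul_factorial (show D - i ≤ J by omega)
    rw [show J - (D - i) = D - (I - i) by omega] at h4
    calc _ = D.choose i * D.choose (I - i) *
        ((I.choose i * i.factorial * (I - i).factorial) *
          (J.choose (D - i) * (D - i).factorial * (D - (I - i)).factorial)) := by rw [h3, h4]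
      _ = (D.choose i * i.factorial * (D - i).factorial) *
        (D.choose (I - i) * (I - i).factorial * (D - (I - i)).factorial) *
          (I.choose i * J.choose (D - i)) := by ring
      _ = _ := by rw [h1, h2]
  · rw [Nat.choose_eq_zero_of_lt h, Nat.choose_eq_zero_of_lt (show J < D - i by omega)]
    simp

open Polynomial in
theorem poly_contra (hp3 : 3 ≤ p) {ε : k} (hε : ε ^ p ≠ ε) {D : ℕ} (hD : D ≤ p - 1)
    (h : ∀ I J, I + J = 2 * D → I ≤ p - 1 → J ≤ p - 1 →
      ∑ i ∈ range (D + 1), (I.choose i : k) * (J.choose (D - i) : k) *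
        (ε ^ (D - i) * (ε ^ p) ^ (J - (D - i))) = 0) : False := by
  set ε' := ε ^ p with hε'
  have hp2 := hp.out.two_le
  have hodd : Odd p := hp.out.odd_of_ne_two (by omega)
  -- vanishing of the coefficients
  have hcoef : ∀ I, 2 * D ≤ I + (p - 1) → I ≤ p - 1 →
      (((X + C ε) ^ D * (X + C ε') ^ D : k[X])).coeff I = 0 := by
    intro I hI1 hI2
    rcases le_or_gt I (2 * D) with hID | hID
    · obtain ⟨J, hJ⟩ : ∃ J, I + J = 2 * D := ⟨2 * D - I, by omega⟩
      have h1 := h I J hJ hI2 (by omega)
      have h2 : (((X + C ε) ^ D * (X + C ε') ^ D : k[X])).coeff I =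
          ∑ i ∈ range (min I D + 1), (ε ^ (D - i) * (D.choose i : k)) *
            (ε' ^ (D - (I - i)) * (D.choose (I - i) : k)) := by
        rw [coeff_mul, Finset.Nat.sum_antidiagonal_eq_sum_range_succ_mk]
        symm
        apply Finset.sum_subset_zero_on_sdiff
        · intro i hi
          rw [Finset.mem_range] at hi ⊢
          omega
        · intro i hi
          rw [Finset.mem_sdiff, Finset.mem_range, Finset.mem_range] at hi
          rw [coeff_X_add_C_pow, Nat.choose_eq_zero_of_lt (by omega)]
          simp
        · intro i hi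
          rw [coeff_X_add_C_pow, coeff_X_add_C_pow]
      have h3 : ∑ i ∈ range (D + 1), (I.choose i : k) * (J.choose (D - i) : k) *
        (ε ^ (D - i) * (ε') ^ (J - (D - i))) = ∑ i ∈ range (min I D + 1),
          (I.choose i : k) * (J.choose (D - i) : k) *
          (ε ^ (D - i) * (ε') ^ (J - (D - i))) := by
        symm
        apply Finset.sum_subset_zero_on_sdiff
        · intro i hi
          rw [Finset.mem_range] at hi ⊢
          omega
        · intro i hi
          rw [Finset.mem_sdiff, Finset.mem_range, Finset.mem_range] at hi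
          rw [Nat.choose_eq_zero_of_lt (show I < i by omega)]
          simp
        · intro i _
          rfl
      rw [h3] at h1
      have h4 : ((I.factorial : k) * (J.factorial : k)) *
          (((X + C ε) ^ D * (X + C ε') ^ D : k[X])).coeff I =
          ((D.factorial : k) * (D.factorial : k)) * ∑ i ∈ range (min I D + 1),
          (I.choose i : k) * (J.choose (D - i) : k) *
          (ε ^ (D - i) * (ε') ^ (J - (D - i))) := by
        rw [h2, Finset.mul_sum, Finset.mul_sum]
        apply Finset.sum_congr rfl
        intro i hi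
        rw [Finset.mem_range] at hi
        have h5 := choose_ident hJ (show i ≤ D by omega) (show i ≤ I by omega)
        have h6 : ((D.choose i : k) * (D.choose (I - i) : k)) *
            ((I.factorial : k) * (J.factorial : k)) =
            ((D.factorial : k) * (D.factorial : k)) *
              ((I.choose i : k) * (J.choose (D - i) : k)) := by
          exact_mod_cast congrArg (Nat.cast : ℕ → k) h5
        rcases le_or_gt (I - i) D with h7 | h7
        · rw [show J - (D - i) = D - (I - i) by omega]
          linear_combination (ε ^ (D - i) * ε' ^ (D - (I - i))) * h6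
        · rw [Nat.choose_eq_zero_of_lt h7, Nat.choose_eq_zero_of_lt (show J < D - i by omega)]
          simp
      rw [h1, mul_zero] at h4
      rcases mul_eq_zero.1 h4 with h5 | h5
      · exact absurd h5 (mul_ne_zero (fact_ne (p := p) (by omega)) (fact_ne (p := p) (by omega)))
      · exact h5
    · apply coeff_eq_zero_of_natDegree_lt
      refine lt_of_le_of_lt natDegree_mul_le ?_
      have h1 := natDegree_pow_le (p := (X + C ε : k[X])) (n := D)
      have h2 := natDegree_pow_le (p := (X + C ε' : k[X])) (n := D)
      rw [natDegree_X_add_C] at h1 h2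
      omega
  -- the product
  have hprod : ((X + C ε) ^ (p - 1) * (X + C ε') ^ (p - 1) : k[X]) =
      ((X + C ε) ^ D * (X + C ε') ^ D) * ((X + C ε) ^ (p - 1 - D) * (X + C ε') ^ (p - 1 - D)) := by
    have h1 : ∀ q : k[X], q ^ (p - 1) = q ^ D * q ^ (p - 1 - D) := by
      intro q
      rw [← pow_add]
      congr 1
      omega
    rw [h1, h1 (X + C ε')]
    ring
  have hz : ((X + C ε) ^ (p - 1) * (X + C ε') ^ (p - 1) : k[X]).coeff (p - 1) = 0 := by
    rw [hprod, coeff_mul]
    apply Finset.sum_eq_zero
    rintro ⟨a, b⟩ hab
    rw [Finset.HasAntidiagonal.mem_antidiagonal] at hab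
    simp only at hab ⊢
    rcases le_or_gt b (2 * (p - 1 - D)) with h1 | h1
    · rw [hcoef a (by omega) (by omega), zero_mul]
    · have h2 : (((X + C ε) ^ (p - 1 - D) * (X + C ε') ^ (p - 1 - D) : k[X])).coeff b = 0 := by
        apply coeff_eq_zero_of_natDegree_lt
        refine lt_of_le_of_lt natDegree_mul_le ?_
        have h1 := natDegree_pow_le (p := (X + C ε : k[X])) (n := p - 1 - D)
        have h2 := natDegree_pow_le (p := (X + C ε' : k[X])) (n := p - 1 - D)
        rw [natDegree_X_add_C] at h1 h2
        omega
      rw [h2, mul_zero]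
  -- direct computation
  rw [coeff_mul, Finset.Nat.sum_antidiagonal_eq_sum_range_succ_mk] at hz
  have h1 : ∀ i ∈ range (p - 1 + 1), ((X + C ε) ^ (p - 1) : k[X]).coeff i *
      ((X + C ε') ^ (p - 1) : k[X]).coeff (p - 1 - i) = ε' ^ i * ε ^ (p - 1 - i) := by
    intro i hi
    rw [Finset.mem_range] at hi
    rw [coeff_X_add_C_pow, coeff_X_add_C_pow, choose_pred i (by omega),
      choose_pred (p - 1 - i) (by omega), show p - 1 - (p - 1 - i) = i by omega]
    have h2 : (-1 : k) ^ i * (-1) ^ (p - 1 - i) = 1 := by
      rw [← pow_add, show i + (p - 1 - i) = p - 1 by omega]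
      exact (Nat.Odd.sub_odd hodd odd_one).neg_one_pow
    linear_combination (ε ^ (p - 1 - i) * ε' ^ i) * h2
  rw [Finset.sum_congr rfl h1, show p - 1 + 1 = p by omega] at hz
  have h2 := (Commute.all ε' ε).geom_sum₂_mul p
  rw [hz, zero_mul] at h2
  have h3 : (ε' - ε) ^ p = ε' ^ p - ε ^ p := sub_pow_char ε' ε
  rw [← h2] at h3
  have h4 := pow_eq_zero_iff (hp.out.ne_zero) |>.1 h3
  exact hε (sub_eq_zero.1 h4)

end Pool.Agent.Y387.SF
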