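import Pool.Agent.Y387.SF.Diff
import Pool.Agent.Y387.SF.Grad
import Pool.Agent.Y387.SF.Poly

/-!
# The Leibniz rule in two directions, and the irrational case
-/

set_option autoImplicit false

open Finset

namespace Pool.Agent.Y387.SF

section Gen

variable {k : Type*} [Field k] {E : Type*} [AddCommGroup E]

theorem N_pow_comm (v w : E) (i j : ℕ) :
    Commute (N v ^ i : Module.End k (E → k)) (N w ^ j) :=
  (N_comm v w).pow_pow i j

theorem T_const (v : E) (c : k) : T v (fun _ : E => c) = fun _ => c := rfl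

theorem T_pow_const (v : E) (c : k) (n : ℕ) : (T v ^ n) (fun _ : E => c) = fun _ => c := by
  rw [T_pow, T_const]

theorem leib2 (e1 e2 : E) (F G : E → k) (D : ℕ) (φ γ : ℕ → k)
    (hF : ∀ i j, D < i + j → (N e1 ^ i) ((N e2 ^ j) F) = 0)
    (hG : ∀ i j, D < i + j → (N e1 ^ i) ((N e2 ^ j) G) = 0)
    (hFc : ∀ i j, i + j = D → (N e1 ^ i) ((N e2 ^ j) F) = fun _ => φ j)
    (hGc : ∀ i j, i + j = D → (N e1 ^ i) ((N e2 ^ j) G) = fun _ => γ j)
    (I J : ℕ) (hIJ : I + J = 2 * D) :
    (N e1 ^ I) ((N e2 ^ J) (F * G)) = fun _ => ∑ i ∈ range (D + 1),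
      (I.choose i : k) * (J.choose (D - i) : k) * (φ (D - i) * γ (J - (D - i))) := by
  rw [N_pow_mul, map_sum]
  have h1 : ∀ j ∈ range (J + 1), (N e1 ^ I) ((J.choose j : k) •
      (((N e2 ^ j) F) * ((T e2 ^ j) ((N e2 ^ (J - j)) G)))) =
      ∑ i ∈ range (I + 1), fun _ => (if i + j = D then
        (I.choose i : k) * (J.choose j : k) * (φ j * γ (J - j)) else 0) := by
    intro j hj
    rw [Finset.mem_range] at hj
    rw [map_smul, N_pow_mul, Finset.smul_sum]
    apply Finset.sum_congr rfl
    intro i hi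
    rw [Finset.mem_range] at hi
    have h2 : (N e1 ^ (I - i)) ((T e2 ^ j) ((N e2 ^ (J - j)) G)) =
        (T e2 ^ j) ((N e1 ^ (I - i)) ((N e2 ^ (J - j)) G)) := by
      rw [← Module.End.mul_apply, ((N_T_comm e1 e2).pow_pow (I - i) j).eq, Module.End.mul_apply]
    rw [h2]
    rcases lt_trichotomy (i + j) D with h3 | h3 | h3
    · rw [hG (I - i) (J - j) (by omega), map_zero, map_zero, mul_zero, smul_zero, smul_zero,
        if_neg h3.ne]
      rfl
    · rw [hGc (I - i) (J - j) (by omega), T_pow_const, T_pow_const, hFc i j h3, if_pos h3]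
      ext u
      simp only [Pi.smul_apply, Pi.mul_apply, smul_eq_mul]
      ring
    · rw [hF i j h3, zero_mul, smul_zero, smul_zero, if_neg h3.ne']
      rfl
  rw [Finset.sum_congr rfl h1, Finset.sum_comm]
  ext u
  rw [Finset.sum_apply]
  simp only [Finset.sum_apply]
  have key : ∀ i ∈ range (I + 1), ∑ j ∈ range (J + 1), (if i + j = D then
        (I.choose i : k) * (J.choose j : k) * (φ j * γ (J - j)) else 0) = if i ≤ D then
        (I.choose i : k) * (J.choose (D - i) : k) * (φ (D - i) * γ (J - (D - i))) else 0 := by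
    intro i _
    split_ifs with h
    · rw [Finset.sum_eq_single (D - i)]
      · rw [if_pos (by omega)]
      · intro j _ hj
        rw [if_neg (by omega)]
      · intro hj
        rw [Finset.mem_range, not_lt] at hj
        rw [if_pos (by omega), Nat.choose_eq_zero_of_lt (show J < D - i by omega)]
        simp
    · apply Finset.sum_eq_zero
      intro j _
      rw [if_neg (by omega)]
  rw [Finset.sum_congr rfl key]
  have h2 : ∑ i ∈ range (D + 1), (I.choose i : k) * (J.choose (D - i) : k) *
      (φ (D - i) * γ (J - (D - i))) = ∑ i ∈ range (D + 1), if i ≤ D then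
        (I.choose i : k) * (J.choose (D - i) : k) * (φ (D - i) * γ (J - (D - i))) else 0 := by
    apply Finset.sum_congr rfl
    intro i hi
    rw [Finset.mem_range] at hi
    rw [if_pos (by omega)]
  rw [h2]
  trans ∑ i ∈ range (max I D + 1), if i ≤ D then
        (I.choose i : k) * (J.choose (D - i) : k) * (φ (D - i) * γ (J - (D - i))) else 0
  · apply Finset.sum_subset
    · intro i hi
      rw [Finset.mem_range] at hi ⊢
      omega
    · intro i _ hi
      rw [Finset.mem_range, not_lt] at hi
      rw [Nat.choose_eq_zero_of_lt (show I < i by omega)]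
      simp
  · symm
    apply Finset.sum_subset
    · intro i hi
      rw [Finset.mem_range] at hi ⊢
      omega
    · intro i _ hi
      rw [Finset.mem_range, not_lt] at hi
      rw [if_neg (by omega)]

variable {p : ℕ} [hp : Fact p.Prime] [CharP k p]

theorem N_frob (v : E) (h : E → k) : N v (fun u => h u ^ p) = fun u => (N v h u) ^ p := by
  ext u
  rw [N_apply, N_apply, sub_pow_char]

theorem N_pow_frob (v : E) (h : E → k) (n : ℕ) :
    (N v ^ n) (fun u => h u ^ p) = fun u => ((N v ^ n) h u) ^ p := by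
  induction n with
  | zero => rfl
  | succ n ih => rw [pow_succ', Module.End.mul_apply, ih, N_frob, Module.End.mul_apply]

end Gen

section Two

variable {k : Type*} [Field k] {p : ℕ} [hp : Fact p.Prime] [CharP k p]

/-- the filtration of a function on the plane -/
abbrev WW (f : ZMod p × ZMod p → k) (n : ℕ) : Submodule k (ZMod p × ZMod p → k) :=
  W (N ((1 : ZMod p), (0 : ZMod p))) (N ((0 : ZMod p), (1 : ZMod p))) f n

/-- the inclusion of the prime field -/
abbrev ph (k : Type*) [Field k] (p : ℕ) [CharP k p] : ZMod p →+* k := ZMod.castHom (dvd_refl p) k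

theorem plane_induction {P : ZMod p × ZMod p → Prop} (h0 : P 0) (h1 : P (1, 0)) (h2 : P (0, 1))
    (hadd : ∀ v w, P v → P w → P (v + w)) (v : ZMod p × ZMod p) : P v := by
  have hn : ∀ w, P w → ∀ n : ℕ, P (n • w) := by
    intro w hw n
    induction n with
    | zero => rwa [zero_smul]
    | succ n ih => rw [succ_nsmul]; exact hadd _ _ ih hw
  have h3 : v = v.1.val • ((1 : ZMod p), (0 : ZMod p)) + v.2.val • ((0 : ZMod p), (1 : ZMod p)) := by
    ext <;> simp
  rw [h3]
  exact hadd _ _ (hn _ h1 _) (hn _ h2 _)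

variable {f : ZMod p × ZMod p → k}

omit [CharP k p] in
theorem N_mem (v : ZMod p × ZMod p) : ∀ n : ℕ, ∀ x ∈ WW f n, N v x ∈ WW f (n + 1) := by
  induction v using plane_induction with
  | h0 =>
    intro n x _
    have : N (0 : ZMod p × ZMod p) x = 0 := by
      ext u
      rw [N_apply, add_zero, sub_self]
      rfl
    rw [this]
    exact Submodule.zero_mem _
  | h1 =>
    intro n x hx
    exact A_mem hx
  | h2 =>
    intro n x hx
    exact B_mem (N_comm _ _) hx
  | hadd v w hv hw =>
    intro n x hx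
    rw [N_add, LinearMap.add_apply, LinearMap.add_apply, Module.End.mul_apply]
    exact Submodule.add_mem _ (Submodule.add_mem _ (hv n x hx) (hw n x hx))
      (W_anti (by omega) (hv _ _ (hw n x hx)))

omit [CharP k p] in
theorem N_pow_mem (v : ZMod p × ZMod p) (i n : ℕ) (x : ZMod p × ZMod p → k) (hx : x ∈ WW f n) :
    (N v ^ i) x ∈ WW f (n + i) := by
  induction i with
  | zero => exact hx
  | succ i ih =>
    rw [pow_succ', Module.End.mul_apply]
    exact N_mem v _ _ ih

theorem N_lin (v : ZMod p × ZMod p) : ∀ n : ℕ, ∀ x ∈ WW f n,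
    N v x - (ph k p v.1 • N ((1 : ZMod p), (0 : ZMod p)) x +
      ph k p v.2 • N ((0 : ZMod p), (1 : ZMod p)) x) ∈ WW f (n + 2) := by
  induction v using plane_induction with
  | h0 =>
    intro n x _
    have : N (0 : ZMod p × ZMod p) x = 0 := by
      ext u
      rw [N_apply, add_zero, sub_self]
      rfl
    rw [this]
    simp
  | h1 =>
    intro n x hx
    simp
  | h2 =>
    intro n x hx
    simp
  | hadd v w hv hw =>
    intro n x hx
    rw [N_add, LinearMap.add_apply, LinearMap.add_apply, Module.End.mul_apply, Prod.fst_add,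
      Prod.snd_add, map_add, map_add, add_smul, add_smul]
    have h1 := Submodule.add_mem _ (Submodule.add_mem _ (hv n x hx) (hw n x hx))
      (N_mem v _ _ (N_mem w n x hx))
    convert h1 using 1
    abel

/-- the irrational case is impossible -/
theorem irrational_case (hp3 : 3 ≤ p) (hff : ∀ u, f u * f (-u) = 0) {D n₁ : ℕ} {α β : k}
    (hWD : WW f D ≠ ⊥) (hWD1 : WW f (D + 1) = ⊥) (hn : n₁ < D) (hDp : D ≤ p - 1)
    (hα : α ≠ 0) (hβ : (α⁻¹ * β) ^ p ≠ α⁻¹ * β)
    (hl : ∀ n, n₁ ≤ n → ∀ x ∈ WW f n, α • N ((0 : ZMod p), (1 : ZMod p)) x -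
      β • N ((1 : ZMod p), (0 : ZMod p)) x ∈ WW f (n + 2)) : False := by
  set ε := α⁻¹ * β with hε
  set A : Module.End k (ZMod p × ZMod p → k) := N ((1 : ZMod p), (0 : ZMod p)) with hA
  set B : Module.End k (ZMod p × ZMod p → k) := N ((0 : ZMod p), (1 : ZMod p)) with hB
  have hAB : Commute A B := N_comm _ _
  have h1 : ∀ x ∈ WW f (D - 1), B x = ε • A x := by
    intro x hx
    have h2 := hl (D - 1) (by omega) x hx
    rw [show D - 1 + 2 = D + 1 by omega, hWD1, Submodule.mem_bot, sub_eq_zero] at h2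
    rw [hε, mul_smul, ← h2, smul_smul, inv_mul_cancel₀ hα, one_smul]
  have h2 : ∀ j i, i + j = D → mon A B f i j = ε ^ j • mon A B f D 0 := by
    intro j
    induction j with
    | zero =>
      intro i hi
      rw [pow_zero, one_smul, ← hi, add_zero]
    | succ j ih =>
      intro i hi
      rw [← B_mon hAB, h1 _ (mon_mem (by omega)), A_mon, ih (i + 1) (by omega), smul_smul,
        ← pow_succ']
  have hinv : ∀ x ∈ WW f D, ∀ u, x u = x 0 := by
    intro x hx u
    have h3 := N_mem u _ _ hx
    rw [hWD1, Submodule.mem_bot] at h3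
    have h4 := congrFun h3 0
    rw [N_apply, zero_add] at h4
    exact sub_eq_zero.1 h4
  set c := mon A B f D 0 0 with hc
  have hcst : ∀ i j, i + j = D → mon A B f i j = fun _ => ε ^ j * c := by
    intro i j hij
    ext u
    rw [h2 j i hij, Pi.smul_apply, smul_eq_mul, hinv _ (mon_mem (by omega)) u]
  have hhigh : ∀ i j, D < i + j → mon A B f i j = 0 := by
    intro i j hij
    have h3 : mon A B f i j ∈ WW f (D + 1) := mon_mem (by omega)
    rwa [hWD1, Submodule.mem_bot] at h3
  have hc0 : c ≠ 0 := by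
    intro h0
    apply hWD
    rw [WW, W, Submodule.span_eq_bot]
    rintro x ⟨i, j, hij, rfl⟩
    rcases hij.eq_or_lt with h3 | h3
    · rw [hcst i j h3.symm, h0]
      ext u
      simp
    · exact hhigh i j h3
  -- the second function
  have hmem0 : f ∈ WW f 0 := by
    have : mon A B f 0 0 ∈ WW f 0 := mon_mem (by omega)
    exact this
  have hgen : ∀ i j, (A ^ i) ((B ^ j) (fun u => f (-u) ^ p)) = fun u =>
      ((N (-((1 : ZMod p), (0 : ZMod p))) ^ i) ((N (-((0 : ZMod p), (1 : ZMod p))) ^ j) f)
        (-u)) ^ p := by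
    intro i j
    rw [hA, hB, N_pow_frob _ (fun u => f (-u)), N_pow_frob, N_pow_comp_neg, N_pow_comp_neg]
  have hneg : ∀ i j, i + j = D →
      (N (-((1 : ZMod p), (0 : ZMod p))) ^ i) ((N (-((0 : ZMod p), (1 : ZMod p))) ^ j) f) =
      fun _ => (-1) ^ D * (ε ^ j * c) := by
    have hlem : ∀ (v : ZMod p × ZMod p) (n : ℕ) (x : ZMod p × ZMod p → k), x ∈ WW f n →
        ∀ i, n + i = D → (N (-v) ^ i) x = (-1 : k) ^ i • (N v ^ i) x := by
      intro v n x hx i
      induction i generalizing n x with
      | zero => intro _; rw [pow_zero, pow_zero, pow_zero, one_smul]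
      | succ i ih =>
        intro hni
        rw [pow_succ, Module.End.mul_apply, ih (n + 1) _ (N_mem _ _ _ hx) (by omega), pow_succ (N v),
          Module.End.mul_apply, pow_succ (-1 : k), mul_neg_one, neg_smul, ← smul_neg, ← map_neg]
        congr 1
        rw [← sub_eq_zero, ← map_sub]
        have h5 : N (-v) x - -(N v x) ∈ WW f (n + 2) := by
          have h6 : N (-v) x - -(N v x) = -(N v (N (-v) x)) := by
            ext u
            simp only [Pi.sub_apply, Pi.neg_apply, N_apply]
            rw [add_assoc, add_neg_cancel, add_zero]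
            ring
          rw [h6]
          exact Submodule.neg_mem _ (N_mem _ _ _ (N_mem _ _ _ hx))
        have h7 := N_pow_mem v i _ _ h5
        rw [show n + 2 + i = D + 1 by omega, hWD1, Submodule.mem_bot] at h7
        exact h7
    intro i j hij
    have h8 : (N (-((0 : ZMod p), (1 : ZMod p))) ^ j) f ∈ WW f j := by
      have := N_pow_mem (-((0 : ZMod p), (1 : ZMod p))) j 0 f hmem0
      rwa [zero_add] at this
    have h9 : (N ((1 : ZMod p), (0 : ZMod p)) ^ i) f ∈ WW f i := by
      have := N_pow_mem ((1 : ZMod p), (0 : ZMod p)) i 0 f hmem0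
      rwa [zero_add] at this
    rw [hlem _ j _ h8 i (by omega), ← Module.End.mul_apply, (N_pow_comm _ _ i j).eq,
      Module.End.mul_apply, hlem _ i _ h9 j (by omega), ← Module.End.mul_apply,
      (N_pow_comm _ _ j i).eq, Module.End.mul_apply]
    have h10 := hcst i j hij
    rw [mon] at h10
    rw [h10]
    ext u
    simp only [Pi.smul_apply, smul_eq_mul]
    rw [← mul_assoc, ← pow_add, hij]
  -- apply the Leibniz rule
  have hFG : f * (fun u => f (-u) ^ p) = 0 := by
    ext u
    rw [Pi.mul_apply, Pi.zero_apply]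
    rcases mul_eq_zero.1 (hff u) with h3 | h3
    · rw [h3, zero_mul]
    · rw [h3, zero_pow hp.out.ne_zero, mul_zero]
  apply poly_contra (p := p) hp3 hβ hDp
  intro I J hIJ _ _
  have h3 := leib2 ((1 : ZMod p), (0 : ZMod p)) ((0 : ZMod p), (1 : ZMod p)) f
    (fun u => f (-u) ^ p) D (fun j => ε ^ j * c) (fun j => ((-1) ^ D * (ε ^ j * c)) ^ p)
    hhigh (by
      intro i j hij
      rw [hgen]
      have h4 : (N (-((1 : ZMod p), (0 : ZMod p))) ^ i)
          ((N (-((0 : ZMod p), (1 : ZMod p))) ^ j) f) ∈ WW f (D + 1) :=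
        W_anti (by omega) (N_pow_mem _ i _ _ (N_pow_mem _ j _ _ hmem0))
      rw [hWD1, Submodule.mem_bot] at h4
      rw [h4]
      ext u
      simp [hp.out.ne_zero]) hcst (by
      intro i j hij
      rw [hgen, hneg i j hij]) I J hIJ
  rw [hFG, map_zero, map_zero] at h3
  have h4 := congrFun h3 0
  simp only [Pi.zero_apply] at h4
  have h5 : ∑ i ∈ range (D + 1), (I.choose i : k) * (J.choose (D - i) : k) *
      (ε ^ (D - i) * c * ((-1) ^ D * (ε ^ (J - (D - i)) * c)) ^ p) =
      (c * ((-1) ^ D * c) ^ p) * ∑ i ∈ range (D + 1), (I.choose i : k) * (J.choose (D - i) : k) *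
      (ε ^ (D - i) * (ε ^ p) ^ (J - (D - i))) := by
    rw [Finset.mul_sum]
    apply Finset.sum_congr rfl
    intro i _
    rw [← pow_mul ε p, mul_comm p, pow_mul]
    ring
  rw [h5] at h4
  rcases mul_eq_zero.1 h4.symm with h6 | h6
  · exact absurd h6 (mul_ne_zero hc0 (pow_ne_zero _ (mul_ne_zero (pow_ne_zero _
      (neg_ne_zero.2 one_ne_zero)) hc0)))
  · exact h6

end Two

end Pool.Agent.Y387.SF
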