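import Pool.Agent.Y387.SF.Struct
import Pool.Agent.Y387.SF.Comp
import Pool.Agent.Y387.SF.FinGood

/-!
# Reduction of the ambiguity function modulo a place above `p`
-/

set_option autoImplicit false

open Finset

namespace Pool.Agent.Y387.SF

open IsLocalRing

theorem finrank_span_le_of_dep {k V ι : Type*} [Field k] [AddCommGroup V] [Module k V] [Finite ι]
    (g : ι → V) (n : ℕ) (h : ∀ s : Fin (n + 1) → ι, ¬ LinearIndependent k (g ∘ s)) :
    Module.finrank k (Submodule.span k (Set.range g)) ≤ n := by
  classical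
  obtain ⟨κ, a, ha, hsp, hli⟩ := exists_linearIndependent' k g
  have hfin : Finite κ := Finite.of_injective a ha
  have := Fintype.ofFinite κ
  by_contra hcon
  rw [not_le, ← hsp, finrank_span_eq_card hli] at hcon
  have hc : Fintype.card (Fin (n + 1)) ≤ Fintype.card κ := by
    rw [Fintype.card_fin]; exact hcon
  obtain ⟨e⟩ := Function.Embedding.nonempty_of_card_le hc
  exact h (a ∘ e) (hli.comp e e.injective)

variable {K : Type*} [Field K] {p : ℕ} [hp : Fact p.Prime] {χ : AddChar (ZMod p) K}
  {x y : ZMod p → K}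

/-- twisted translates of the ambiguity function factor through a space of dimension `p` -/
theorem cc_factor (a b s u : ZMod p) :
    χ (b * s) * cc χ x y (a + s) (b + u) =
      ∑ j, (χ (-(u * s)) * x (j - s) * χ (u * j)) * (y (j + a) * χ (b * j)) := by
  unfold cc
  rw [Finset.mul_sum]
  refine Fintype.sum_equiv (Equiv.addRight s) _ _ fun j => ?_
  rw [Equiv.coe_addRight, add_sub_cancel_right]
  have h1 : χ (b * s) * χ ((b + u) * j) =
      χ (-(u * s)) * χ (u * (j + s)) * χ (b * (j + s)) := by
    rw [← AddChar.map_add_eq_mul, ← AddChar.map_add_eq_mul, ← AddChar.map_add_eq_mul]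
    congr 1
    ring
  have h2 : j + (a + s) = j + s + a := by ring
  rw [h2]
  calc _ = x j * y (j + s + a) * (χ (b * s) * χ ((b + u) * j)) := by ring
    _ = _ := by rw [h1]; ring

theorem residue_char (U : ValuationSubring K) (hU : (p : K) ∈ U.nonunits)
    (ψ : AddChar (ZMod p) U) (b : ZMod p) : residue U (ψ b) = 1 := by
  have hchar := charP_residue hp.out U hU
  have h2 : ψ b ^ p = 1 := by
    rw [← AddChar.map_nsmul_eq_pow, nsmul_eq_mul, CharP.cast_eq_zero, zero_mul,
      AddChar.map_zero_eq_one]
  have h3 : (residue U (ψ b)) ^ p = 1 := by rw [← map_pow, h2, map_one]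
  have h4 : (residue U (ψ b) - 1) ^ p = 0 := by
    rw [sub_pow_char, h3, one_pow, sub_self]
  have h5 := pow_eq_zero_iff hp.out.ne_zero |>.1 h4
  exact sub_eq_zero.1 h5

omit hp in
theorem val_p1_U (U : ValuationSubring K) (hU : (p : K) ∈ U.nonunits) :
    U.valuation ((p : K) + 1) = 1 := by
  rw [ValuationSubring.mem_nonunits_iff] at hU
  have h1 : U.valuation (p : K) < U.valuation 1 := by rwa [map_one]
  rw [add_comm, Valuation.map_add_eq_of_lt_left _ h1, map_one]

theorem link (U : ValuationSubring K) (hU : (p : K) ∈ U.nonunits) (hp3 : 3 ≤ p)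
    (h : IsSol χ x y) (hbig : ∃ a b, 1 < U.valuation (cc χ x y a b)) :
    ∃ r v : ZMod p × ZMod p, v ≠ 0 ∧
      (∀ a b, U.valuation (cc χ x y a b) ≤ U.valuation (cc χ x y r.1 r.2)) ∧
      ∀ t : ZMod p, U.valuation (cc χ x y (r.1 + t * v.1) (r.2 + t * v.2)) =
        U.valuation (cc χ x y r.1 r.2) := by
  classical
  have hchar := charP_residue hp.out U hU
  set c : ZMod p × ZMod p → K := fun r => cc χ x y r.1 r.2 with hc
  obtain ⟨a₀, b₀, hab⟩ := hbig
  have hc0 : c ≠ 0 := by
    intro h0
    have h1 := congrFun h0 (a₀, b₀)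
    simp only [hc, Pi.zero_apply] at h1
    rw [h1, map_zero] at hab
    exact absurd hab (not_lt.2 zero_le_one)
  obtain ⟨r, hr0, hmax, F, hF, hFr⟩ := exists_lead U c hc0
  have hM : 1 < U.valuation (c r) := hab.trans_le (hmax (a₀, b₀))
  set f : ZMod p × ZMod p → ResidueField U := fun u => residue U (F u) with hf
  have hfr : f r ≠ 0 := (hFr r).2 rfl
  have hf0 : f ≠ 0 := fun h0 => hfr (congrFun h0 r)
  have hprod : ∀ u : ZMod p × ZMod p, U.valuation (c u) * U.valuation (c (-u)) = 1 := by
    intro u
    have h1 : cc χ x y u.1 u.2 * cd χ x y u.1 u.2 = ((p : K) + 1)⁻¹ ∨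
        cc χ x y u.1 u.2 * cd χ x y u.1 u.2 = 1 := by
      by_cases hu : u.1 ≠ 0 ∨ u.2 ≠ 0
      · exact Or.inl (h.mul _ _ hu)
      · push Not at hu
        right
        rw [hu.1, hu.2, cc_zero_zero h, cd_zero_zero h, one_mul]
    have h2 : U.valuation (cc χ x y u.1 u.2 * cd χ x y u.1 u.2) = 1 := by
      rcases h1 with h1 | h1
      · rw [h1, map_inv₀, val_p1_U U hU, inv_one]
      · rw [h1, map_one]
    rw [cd_eq_cc, map_mul, map_mul, val_char, one_mul] at h2
    exact h2
  have hff : ∀ u, f u * f (-u) = 0 := by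
    intro u
    by_contra hcon
    have h1 := (hFr u).1 (left_ne_zero_of_mul hcon)
    have h2 := (hFr (-u)).1 (right_ne_zero_of_mul hcon)
    have h3 := hprod u
    rw [h1, h2] at h3
    exact absurd h3 (one_lt_mul'' hM hM).ne'
  obtain ⟨ψ, hψ⟩ := exists_lift U χ
  have hdim : Module.finrank (ResidueField U) (Tr f) ≤ p := by
    apply finrank_span_le_of_dep
    intro s hLI
    -- dependence over `K`
    set X : Fin (p + 1) → (ZMod p → K) := fun i j =>
      χ (-((s i).2 * (s i).1)) * x (j - (s i).1) * χ ((s i).2 * j) with hX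
    have hnot : ¬ LinearIndependent K X := by
      intro hli
      have h1 := hli.fintype_card_le_finrank
      rw [Fintype.card_fin, Module.finrank_fintype_fun_eq_card, ZMod.card] at h1
      omega
    rw [Fintype.not_linearIndependent_iff] at hnot
    obtain ⟨lam, hlam, i₁, hi₁⟩ := hnot
    have hlam0 : lam ≠ 0 := fun h0 => hi₁ (congrFun h0 i₁)
    obtain ⟨i₀, hi₀, _, L, hL, hLr⟩ := exists_lead U lam hlam0
    have hLX : ∀ j, ∑ i, (L i : K) * X i j = 0 := by
      intro j
      have h1 := congrFun hlam j
      rw [Finset.sum_apply] at h1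
      simp only [Pi.smul_apply, smul_eq_mul, Pi.zero_apply] at h1
      have h2 : lam i₀ * ∑ i, (L i : K) * X i j = 0 := by
        rw [Finset.mul_sum, ← h1]
        refine Finset.sum_congr rfl fun i _ => ?_
        rw [hL i, mul_assoc]
      rcases mul_eq_zero.1 h2 with h3 | h3
      · exact absurd h3 hi₀
      · exact h3
    have hrel : ∀ u : ZMod p × ZMod p, ∑ i, L i * (ψ (u.2 * (s i).1) * F (u + s i)) = 0 := by
      intro u
      apply Subtype.val_injective
      have h1 : c r * ((∑ i, L i * (ψ (u.2 * (s i).1) * F (u + s i)) : U) : K) = 0 := by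
        push_cast
        rw [Finset.mul_sum]
        have h2 : ∀ i, c r * ((L i : K) * ((ψ (u.2 * (s i).1) : K) * (F (u + s i) : K))) =
            ∑ j, ((L i : K) * X i j) * (y (j + u.1) * χ (u.2 * j)) := by
          intro i
          have h3 := cc_factor (χ := χ) (x := x) (y := y) u.1 u.2 (s i).1 (s i).2
          have h4 : cc χ x y (u.1 + (s i).1) (u.2 + (s i).2) = c r * F (u + s i) := by
            rw [← hF]
            rfl
          rw [h4] at h3
          calc _ = (L i : K) * (χ (u.2 * (s i).1) * (c r * (F (u + s i) : K))) := by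
                rw [hψ]; ring
            _ = _ := by
                rw [h3, Finset.mul_sum]
                refine Finset.sum_congr rfl fun j _ => ?_
                rw [hX]
                ring
        simp_rw [h2]
        rw [Finset.sum_comm]
        apply Finset.sum_eq_zero
        intro j _
        rw [← Finset.sum_mul, hLX j, zero_mul]
      rcases mul_eq_zero.1 h1 with h3 | h3
      · exact absurd h3 hr0
      · exact h3
    have hrel2 : ∑ i, residue U (L i) • (T (s i) f) = 0 := by
      ext u
      rw [Finset.sum_apply]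
      have h1 := congrArg (residue U) (hrel u)
      rw [map_sum, map_zero] at h1
      rw [Pi.zero_apply, ← h1]
      refine Finset.sum_congr rfl fun i _ => ?_
      rw [map_mul, map_mul, residue_char U hU, one_mul]
      rfl
    rw [Fintype.linearIndependent_iff] at hLI
    exact ((hLr i₀).2 rfl) (hLI (fun i => residue U (L i)) hrel2 i₀)
  obtain ⟨v, hv0, hv⟩ := struct hp3 hf0 hff hdim
  refine ⟨r, v, hv0, fun a b => hmax (a, b), fun t => ?_⟩
  have h1 : ∀ u, f (u + v) = f u := by
    intro u
    have h2 := congrFun hv u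
    rw [N_apply] at h2
    exact sub_eq_zero.1 h2
  have h2 : ∀ n : ℕ, f (r + n • v) = f r := by
    intro n
    induction n with
    | zero => rw [zero_smul, add_zero]
    | succ n ih => rw [succ_nsmul, ← add_assoc, h1, ih]
  have h3 : (r.1 + t * v.1, r.2 + t * v.2) = r + t.val • v := by
    ext <;> simp
  have h4 : f (r.1 + t * v.1, r.2 + t * v.2) ≠ 0 := by
    rw [h3, h2]
    exact hfr
  exact (hFr _).1 h4

end Pool.Agent.Y387.SF
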