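import Pool.Agent.Y387.SF.Leib

/-!
# The structure theorem in characteristic `p`
-/

set_option autoImplicit false

open Finset

namespace Pool.Agent.Y387.SF

section Gen

variable {k : Type*} [Field k] {E : Type*} [AddCommGroup E]

/-- span of the translates -/
def Tr (f : E → k) : Submodule k (E → k) := Submodule.span k (Set.range fun t => T t f)

theorem self_mem_Tr (f : E → k) : f ∈ Tr f :=
  Submodule.subset_span ⟨0, by simp only [T_zero, Module.End.one_apply]⟩

theorem T_mem_Tr (f : E → k) (v : E) {x : E → k} (hx : x ∈ Tr f) : T v x ∈ Tr f := by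
  rw [Tr] at hx
  induction hx using Submodule.span_induction with
  | mem x hx =>
    obtain ⟨t, rfl⟩ := hx
    simp only
    rw [← Module.End.mul_apply, T_mul]
    exact Submodule.subset_span ⟨v + t, rfl⟩
  | zero => rw [map_zero]; exact Submodule.zero_mem _
  | add x y _ _ hx hy => rw [map_add]; exact Submodule.add_mem _ hx hy
  | smul c x _ hx => rw [map_smul]; exact Submodule.smul_mem _ _ hx

theorem N_mem_Tr (f : E → k) (v : E) {x : E → k} (hx : x ∈ Tr f) : N v x ∈ Tr f := by
  rw [N, LinearMap.sub_apply, Module.End.one_apply]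
  exact Submodule.sub_mem _ (T_mem_Tr f v hx) hx

theorem N_pow_mem_Tr (f : E → k) (v : E) {x : E → k} (hx : x ∈ Tr f) (n : ℕ) :
    (N v ^ n) x ∈ Tr f := by
  induction n with
  | zero => exact hx
  | succ n ih => rw [pow_succ', Module.End.mul_apply]; exact N_mem_Tr f v ih

/-- independence of a nilpotent chain -/
theorem chain_indep {V : Type*} [AddCommGroup V] [Module k V] (M : Module.End k V) (x : V) (n : ℕ)
    (h0 : (M ^ n) x ≠ 0) (h1 : (M ^ (n + 1)) x = 0) :
    LinearIndependent k (fun i : Fin (n + 1) => (M ^ (i : ℕ)) x) := by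
  have hz : ∀ m, n + 1 ≤ m → (M ^ m) x = 0 := by
    intro m hm
    rw [show m = (m - (n + 1)) + (n + 1) by omega, pow_add, Module.End.mul_apply, h1, map_zero]
  rw [Fintype.linearIndependent_iff]
  intro g hg
  have key : ∀ m : ℕ, ∀ hm : m < n + 1, g ⟨m, hm⟩ = 0 := by
    intro m
    induction m using Nat.strong_induction_on with
    | _ m ih =>
      intro hm
      have h2 := congrArg (M ^ (n - m)) hg
      rw [map_sum, map_zero, Finset.sum_eq_single ⟨m, hm⟩] at h2
      · rw [map_smul, ← Module.End.mul_apply, ← pow_add, show n - m + m = n by omega] at h2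
        rcases smul_eq_zero.1 h2 with h3 | h3
        · exact h3
        · exact absurd h3 h0
      · rintro ⟨i, hi⟩ _ hne
        have hne' : i ≠ m := fun h => hne (by simp [h])
        rw [map_smul, ← Module.End.mul_apply, ← pow_add]
        rcases lt_or_gt_of_ne hne' with h3 | h3
        · rw [ih i h3 hi, zero_smul]
        · rw [hz _ (by simp only; omega), smul_zero]
      · intro h
        exact absurd (Finset.mem_univ _) h
  rintro ⟨i, hi⟩
  exact key i hi

end Gen

section Two

variable {k : Type*} [Field k] {p : ℕ} [hp : Fact p.Prime] [CharP k p]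

theorem p_smul_zero (v : ZMod p × ZMod p) : p • v = 0 := by
  ext <;> simp

/-- functions of small degree in one direction are constant in that direction -/
theorem small_degree {f : ZMod p × ZMod p → k} (hp3 : 3 ≤ p) (hf0 : f ≠ 0)
    (hff : ∀ u, f u * f (-u) = 0) (hdim : Module.finrank k (Tr f) ≤ p) (v : ZMod p × ZMod p)
    (m : ℕ) (hm : 2 * m ≤ p + 1) (hv : (N v ^ m) f = 0) : N v f = 0 := by
  obtain ⟨J, hJ, hJ1⟩ := exists_top (p := p) v (p_smul_zero v) hf0
  have hJm : J < m := by
    by_contra hcon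
    rw [not_lt] at hcon
    apply hJ
    rw [show J = (J - m) + m by omega, pow_add, Module.End.mul_apply, hv, map_zero]
  rcases Nat.eq_zero_or_pos J with hJ0 | hJ0
  · rw [hJ0, zero_add, pow_one] at hJ1
    exact hJ1
  exfalso
  set ψ := (N v ^ J) f with hψ
  have hψψ : ∀ u, ψ u * ψ (-u) = 0 := top_disjoint (p := p) v f hff J (by omega) hJ1
  obtain ⟨u₀, hu₀⟩ : ∃ u, ψ u ≠ 0 := by
    by_contra hcon
    push Not at hcon
    exact hJ (funext hcon)
  obtain ⟨i₀, hi₀, hi₁⟩ := exists_top (p := p) u₀ (p_smul_zero u₀) hJ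
  have hodd : Odd p := hp.out.odd_of_ne_two (by omega)
  obtain ⟨q, hq⟩ := hodd
  have hi₀q : q + 1 ≤ i₀ := by
    by_contra hcon
    rw [not_le] at hcon
    have h1 := large_degree (p := p) ψ hψψ u₀ hu₀ (q + 1) (by omega)
    apply h1
    rw [show q + 1 = (q + 1 - (i₀ + 1)) + (i₀ + 1) by omega, pow_add, Module.End.mul_apply, hi₁,
      map_zero]
  -- the span of the chain
  set Ψ : Submodule k (ZMod p × ZMod p → k) :=
    Submodule.span k (Set.range fun i : Fin (i₀ + 1) => (N u₀ ^ (i : ℕ)) ψ) with hΨ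
  have hΨdim : Module.finrank k Ψ = i₀ + 1 := by
    have := finrank_span_eq_card (chain_indep (N u₀) ψ i₀ hi₀ hi₁)
    rw [Fintype.card_fin] at this
    exact this
  have hψmem : ψ ∈ Tr f := N_pow_mem_Tr f v (self_mem_Tr f) J
  have hΨle : Ψ ≤ Tr f := by
    rw [hΨ, Submodule.span_le]
    rintro x ⟨i, rfl⟩
    exact N_pow_mem_Tr f u₀ hψmem _
  set L := (N v ^ J).domRestrict (Tr f) with hL
  have hrank := LinearMap.finrank_range_add_finrank_ker L
  have hrange : i₀ + 1 ≤ Module.finrank k (LinearMap.range L) := by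
    rw [← hΨdim]
    apply Submodule.finrank_mono
    rw [hΨ, Submodule.span_le]
    rintro x ⟨i, rfl⟩
    refine ⟨⟨(N u₀ ^ (i : ℕ)) f, N_pow_mem_Tr f u₀ (self_mem_Tr f) _⟩, ?_⟩
    rw [hL, LinearMap.domRestrict_apply]
    simp only
    rw [← Module.End.mul_apply, (N_pow_comm v u₀ J i).eq, Module.End.mul_apply]
  have hker : i₀ + 1 ≤ Module.finrank k (LinearMap.ker L) := by
    rw [← hΨdim, ← (Submodule.comapSubtypeEquivOfLe hΨle).finrank_eq]
    apply Submodule.finrank_mono
    rintro ⟨x, hx⟩ hxΨ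
    rw [Submodule.mem_comap] at hxΨ
    rw [LinearMap.mem_ker, hL, LinearMap.domRestrict_apply]
    simp only [Submodule.subtype_apply] at hxΨ ⊢
    have : Ψ ≤ LinearMap.ker (N v ^ J) := by
      rw [hΨ, Submodule.span_le]
      rintro y ⟨i, rfl⟩
      rw [SetLike.mem_coe, LinearMap.mem_ker]
      simp only
      rw [← Module.End.mul_apply, (N_pow_comm v u₀ J i).eq, Module.End.mul_apply, hψ,
        ← Module.End.mul_apply (N v ^ J), ← pow_add,
        show J + J = (J - 1) + (J + 1) by omega, pow_add, Module.End.mul_apply, hJ1, map_zero,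
        map_zero]
    exact this hxΨ
  omega

/-- **Structure theorem.** -/
theorem struct {f : ZMod p × ZMod p → k} (hp3 : 3 ≤ p) (hf0 : f ≠ 0)
    (hff : ∀ u, f u * f (-u) = 0) (hdim : Module.finrank k (Tr f) ≤ p) :
    ∃ v : ZMod p × ZMod p, v ≠ 0 ∧ N v f = 0 := by
  have hodd : Odd p := hp.out.odd_of_ne_two (by omega)
  obtain ⟨q, hq⟩ := hodd
  obtain ⟨u₀, hu₀⟩ : ∃ u, f u ≠ 0 := by
    by_contra hcon
    push Not at hcon
    exact hf0 (funext hcon)
  have hmem0 : f ∈ WW f 0 := by
    have : mon (N ((1 : ZMod p), (0 : ZMod p))) (N ((0 : ZMod p), (1 : ZMod p))) f 0 0 ∈ WW f 0 :=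
      mon_mem (by omega)
    exact this
  have hW0 : WW f 0 ≤ Tr f := by
    rw [WW, W, Submodule.span_le]
    rintro x ⟨i, j, _, rfl⟩
    exact N_pow_mem_Tr f _ (N_pow_mem_Tr f _ (self_mem_Tr f) _) _
  have hdim0 : Module.finrank k (WW f 0) ≤ p := (Submodule.finrank_mono hW0).trans hdim
  have hWm : WW f (q + 1) ≠ ⊥ := by
    intro h
    have h1 := large_degree (p := p) f hff u₀ hu₀ (q + 1) (by omega)
    have h2 := N_pow_mem u₀ (q + 1) 0 f hmem0
    rw [zero_add, h, Submodule.mem_bot] at h2
    exact h1 h2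
  obtain ⟨D, n₁, α, β, hmD, hWD, hWD1, hn1, hDn, hαβ, hl⟩ :=
    grad_main (N_comm _ _) (N_pow_p (p := p) _ (p_smul_zero _))
      (N_pow_p (p := p) _ (p_smul_zero _)) hdim0 hWm (by omega)
  -- rational case
  have hrat : ∀ (v : ZMod p × ZMod p) (c : k), v ≠ 0 → ph k p v.1 = -(c * β) →
      ph k p v.2 = c * α → ∃ v : ZMod p × ZMod p, v ≠ 0 ∧ N v f = 0 := by
    intro v c hv0 hv1 hv2
    refine ⟨v, hv0, ?_⟩
    have hstep : ∀ n, n₁ ≤ n → ∀ x ∈ WW f n, N v x ∈ WW f (n + 2) := by
      intro n hn x hx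
      have h1 := N_lin v n x hx
      have h2 := hl n hn x hx
      have h3 := Submodule.add_mem _ h1 (Submodule.smul_mem _ c h2)
      have h4 : N v x - (ph k p v.1 • N ((1 : ZMod p), (0 : ZMod p)) x +
          ph k p v.2 • N ((0 : ZMod p), (1 : ZMod p)) x) +
          c • (α • N ((0 : ZMod p), (1 : ZMod p)) x - β • N ((1 : ZMod p), (0 : ZMod p)) x) =
          N v x := by
        rw [hv1, hv2, smul_sub, smul_smul, smul_smul, neg_smul]
        abel
      rwa [h4] at h3
    have hpow : ∀ j, (N v ^ j) ((N v ^ n₁) f) ∈ WW f (n₁ + 2 * j) := by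
      intro j
      induction j with
      | zero =>
        have := N_pow_mem v n₁ 0 f hmem0
        rwa [zero_add] at this
      | succ j ih =>
        rw [pow_succ', Module.End.mul_apply]
        have := hstep (n₁ + 2 * j) (by omega) _ ih
        rwa [show n₁ + 2 * (j + 1) = n₁ + 2 * j + 2 by ring]
    apply small_degree hp3 hf0 hff hdim v (q + 1) (by omega)
    have h1 := hpow (q + 1 - n₁)
    rw [← Module.End.mul_apply, ← pow_add, show q + 1 - n₁ + n₁ = q + 1 by omega] at h1
    have h2 := W_anti (show D + 1 ≤ n₁ + 2 * (q + 1 - n₁) by omega) h1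
    rw [hWD1, Submodule.mem_bot] at h2
    exact h2
  by_cases hα : α = 0
  · have hβ : β ≠ 0 := by
      rcases hαβ with h | h
      · exact absurd hα h
      · exact h
    refine hrat (1, 0) (-β⁻¹) ?_ ?_ ?_
    · intro h
      have := congrArg Prod.fst h
      simp at this
    · simp [hβ]
    · simp [hα]
  · by_cases hε : (α⁻¹ * β) ^ p = α⁻¹ * β
    · rw [← Subfield.mem_bot_iff_pow_eq_self k p, ← ZMod.fieldRange_castHom_eq_bot p] at hε
      obtain ⟨e, he⟩ := hε
      refine hrat (-e, 1) α⁻¹ ?_ ?_ ?_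
      · intro h
        have := congrArg Prod.snd h
        simp at this
      · rw [map_neg]
        exact congrArg (fun x => -x) he
      · rw [map_one, inv_mul_cancel₀ hα]
    · exact absurd (irrational_case (f := f) hp3 hff hWD hWD1 (by omega) (by omega) hα hε hl) id

end Two

end Pool.Agent.Y387.SF
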