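import Pool.Agent.Y387.SF.Etf

/-!
# Sylow subgroups of the symmetry group
-/

set_option autoImplicit false

open Finset

namespace Pool.Agent.Y387.SF

theorem sylow_transitive {G ι : Type*} [Group G] [Finite G] [MulAction G ι] [Finite ι]
    (htr : MulAction.IsPretransitive G ι) (p n : ℕ) [hp : Fact p.Prime]
    (hcard : Nat.card ι = p ^ n) (P : Sylow p G) (i j : ι) :
    ∃ g ∈ (P : Subgroup G), g • i = j := by
  have h1 : Nat.card (MulAction.stabilizer G i) * p ^ n = Nat.card G := by
    have h2 := MulAction.index_stabilizer G i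
    rw [MulAction.orbit_eq_univ, Set.ncard_univ, hcard] at h2
    rw [← h2]
    exact Subgroup.card_mul_index _
  have h2 : Nat.card P = p ^ (Nat.card G).factorization p := Sylow.card_eq_multiplicity P
  have h3 : Nat.card (MulAction.stabilizer P i) ∣ Nat.card (MulAction.stabilizer G i) := by
    have h4 : (MulAction.stabilizer P i).map (P : Subgroup G).subtype ≤
        MulAction.stabilizer G i := by
      rintro _ ⟨g, hg, rfl⟩
      exact hg
    have h5 := Subgroup.card_dvd_of_le h4
    rwa [Subgroup.card_map_of_injective (Subgroup.subtype_injective _)] at h5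
  have h4 : Nat.card (MulAction.stabilizer P i) ∣ p ^ (Nat.card G).factorization p := by
    rw [← h2]
    exact Subgroup.card_subgroup_dvd_card _
  obtain ⟨s, hs, hs'⟩ := (Nat.dvd_prime_pow hp.out).1 h4
  have h5 : p ^ (s + n) ∣ Nat.card G := by
    rw [← h1, pow_add, ← hs']
    exact mul_dvd_mul h3 dvd_rfl
  have h6 : s + n ≤ (Nat.card G).factorization p :=
    (hp.out.pow_dvd_iff_le_factorization Nat.card_pos.ne').1 h5
  have h7 := Subgroup.card_mul_index (MulAction.stabilizer P i)
  rw [h2, hs', MulAction.index_stabilizer] at h7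
  have h8 : (MulAction.orbit P i).ncard = p ^ ((Nat.card G).factorization p - s) := by
    have h9 : p ^ s * p ^ ((Nat.card G).factorization p - s) =
        p ^ (Nat.card G).factorization p := by
      rw [← pow_add]
      congr 1
      omega
    rw [← h9] at h7
    exact Nat.eq_of_mul_eq_mul_left (pow_pos hp.out.pos _) h7
  have h9 : p ^ n ≤ (MulAction.orbit P i).ncard := by
    rw [h8]
    exact Nat.pow_le_pow_right hp.out.pos (by omega)
  have h10 : MulAction.orbit P i = Set.univ := by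
    apply Set.eq_of_subset_of_ncard_le (Set.subset_univ _)
    rw [Set.ncard_univ, hcard]
    exact h9
  have h11 : j ∈ MulAction.orbit P i := by rw [h10]; exact Set.mem_univ _
  obtain ⟨⟨g, hg⟩, hgj⟩ := h11
  exact ⟨g, hg, hgj⟩

section

variable {V : Type*} [NormedAddCommGroup V] [InnerProductSpace ℂ V] [FiniteDimensional ℂ V]
  {ι : Type*} [Fintype ι] {x : ι → V}

/-- the symmetry group -/
def symGroup {d : ℕ} (h : IsEtf d x) : Subgroup (Equiv.Perm ι) where
  carrier := {π | ∃ U : V ≃ₗᵢ[ℂ] V, Ind x U π}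
  one_mem' := ⟨1, Ind.one⟩
  mul_mem' := by
    rintro a b ⟨U, hU⟩ ⟨U', hU'⟩
    exact ⟨U * U', hU.mul hU'⟩
  inv_mem' := by
    rintro a ⟨U, hU⟩
    exact ⟨U⁻¹, hU.inv h⟩

theorem exists_pair {p : ℕ} [hp : Fact p.Prime] (h : IsEtf p x) (hcard : Fintype.card ι = p ^ 2)
    (hV : Module.finrank ℂ V = p)
    (htr : ∀ i j, ∃ (U : V ≃ₗᵢ[ℂ] V) (π : Equiv.Perm ι), Ind x U π ∧ π i = j) :
    ∃ (A B : V ≃ₗᵢ[ℂ] V) (α β : Equiv.Perm ι) (ζ : ℂ), Ind x A α ∧ Ind x B β ∧ ζ ≠ 1 ∧
      ζ ^ p = 1 ∧ ∀ v, A (B v) = ζ • B (A v) := by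
  classical
  have hp1 : 1 ≤ p := hp.out.one_lt.le
  have hpre : MulAction.IsPretransitive (symGroup h) ι := by
    constructor
    intro i j
    obtain ⟨U, π, hU, hij⟩ := htr i j
    exact ⟨⟨π, U, hU⟩, hij⟩
  obtain ⟨P⟩ : Nonempty (Sylow p (symGroup h)) := inferInstance
  have hP := sylow_transitive hpre p 2 (by rw [Nat.card_eq_fintype_card, hcard]) P
  -- the Sylow subgroup is nontrivial
  have hone : 1 < Fintype.card ι := by
    rw [hcard]
    exact Nat.one_lt_pow (by norm_num) hp.out.one_lt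
  obtain ⟨i₀, j₀, hij₀⟩ := Fintype.one_lt_card_iff.1 hone
  have hnt : Nontrivial P := by
    obtain ⟨g, hg, hgij⟩ := hP i₀ j₀
    refine ⟨⟨⟨g, hg⟩, 1, ?_⟩⟩
    intro h0
    have h1 : g = 1 := congrArg Subtype.val h0
    rw [h1, one_smul] at hgij
    exact hij₀ hgij
  have hcn := P.isPGroup'.center_nontrivial
  obtain ⟨z, hz⟩ := exists_ne (1 : Subgroup.center P)
  obtain ⟨⟨⟨α, A, hA⟩, hzG⟩, hzC⟩ := z
  · -- the element `α` is not the identity
    have hα : α ≠ 1 := by
      rintro rfl
      exact hz rfl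
    have hcomm : ∀ g ∈ (P : Subgroup (symGroup h)), α * (g : Equiv.Perm ι) =
        (g : Equiv.Perm ι) * α := by
      intro g hg
      rw [Subgroup.mem_center_iff] at hzC
      have h1 := hzC ⟨g, hg⟩
      have h2 := congrArg (fun t : P => ((t : symGroup h) : Equiv.Perm ι)) h1
      exact h2.symm
    -- some symmetry does not commute with `A`
    have hex : ∃ g ∈ (P : Subgroup (symGroup h)), ∃ B : V ≃ₗᵢ[ℂ] V,
        Ind x B (g : Equiv.Perm ι) ∧ ∃ v, A (B v) ≠ B (A v) := by
      by_contra hcon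
      push Not at hcon
      have h1 : ∃ c : ℂ, ∀ v, (A.toLinearEquiv : V →ₗ[ℂ] V) v = c • v := by
        apply commutant h hp1 hcard hV _ i₀
        intro k
        obtain ⟨g, hg, hgk⟩ := hP i₀ k
        obtain ⟨B, hB⟩ := g.2
        obtain ⟨c, hc⟩ := hB i₀
        refine ⟨B, c, ?_, fun v => hcon g hg B hB v⟩
        rw [hc]
        congr 2
      obtain ⟨c, hc⟩ := h1
      apply hα
      ext k
      obtain ⟨c', hc'⟩ := hA k
      have h2 : A (x k) = c • x k := hc (x k)
      have hc'0 : c' ≠ 0 := by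
        rintro rfl
        have := ind_norm h hc'
        simp at this
      have h3 : x (α k) = (c'⁻¹ * c) • x k := by
        rw [mul_smul, ← h2, hc', smul_smul, inv_mul_cancel₀ hc'0, one_smul]
      rw [Equiv.Perm.one_apply]
      exact h.line hp1 h3
    obtain ⟨g, hg, B, hB, v₀, hv₀⟩ := hex
    have hcg := hcomm g hg
    -- the commutator is scalar
    have hInd : Ind x ((A * B) * (B * A)⁻¹) 1 := by
      have h1 := (hA.mul hB).mul ((hB.mul hA).inv h)
      rwa [hcg, mul_inv_cancel] at h1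
    obtain ⟨ζ, _, hζ⟩ := fix_all h hp1 hcard hV hInd
    have hAB : ∀ v, A (B v) = ζ • B (A v) := by
      intro v
      have h1 := hζ ((B * A) v)
      change (A * B) ((B * A)⁻¹ ((B * A) v)) = ζ • B (A v) at h1
      have h2 : (B * A)⁻¹ ((B * A) v) = v := (B * A).symm_apply_apply v
      rw [h2] at h1
      exact h1
    refine ⟨A, B, α, g, ζ, hA, hB, ?_, ?_, hAB⟩
    · rintro rfl
      apply hv₀
      rw [hAB, one_smul]
    · -- determinants
      set a : V →ₗ[ℂ] V := (A.toLinearEquiv : V →ₗ[ℂ] V) with ha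
      set b : V →ₗ[ℂ] V := (B.toLinearEquiv : V →ₗ[ℂ] V) with hb
      have h1 : a * b = ζ • (b * a) := by
        ext v
        exact hAB v
      have h2 := congrArg LinearMap.det h1
      rw [map_mul, LinearMap.det_smul, hV, map_mul] at h2
      have ha0 : LinearMap.det a ≠ 0 := (LinearEquiv.isUnit_det' A.toLinearEquiv).ne_zero
      have hb0 : LinearMap.det b ≠ 0 := (LinearEquiv.isUnit_det' B.toLinearEquiv).ne_zero
      have h3 : (ζ ^ p - 1) * (LinearMap.det b * LinearMap.det a) = 0 := by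
        linear_combination -h2
      rcases mul_eq_zero.1 h3 with h4 | h4
      · exact sub_eq_zero.1 h4
      · exact absurd h4 (mul_ne_zero hb0 ha0)

end

end Pool.Agent.Y387.SF
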